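import Mathlib
import Pool.Agent.H532.RM.Conc

/-! The random sieve with some classes replaced by prescribed ones. -/

set_option autoImplicit false

open Finset MeasureTheory Function ProbabilityTheory Filter
open scoped ENNReal Topology

namespace Pool.Agent.H565.AC

open Pool.Agent.H532.RM

/-- the set sieved by the classes of `a` up to `w` and, at the primes of `D`, by those of `b` -/
def SD (D : Finset ℕ) (b : ℕ → ℕ) (w m U : ℕ) (a : ℕ → ℕ) : Finset ℕ :=
  TT {0} (fun p => if p ∈ D then b p else a p) (primesLe w ∪ D) m U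

theorem SD_dep (D : Finset ℕ) (b : ℕ → ℕ) (w m U : ℕ) : DepOn (primesLe w) (SD D b w m U) := by
  intro a a' h
  refine TT_congr _ _ _ _ _ _ fun p hp => ?_
  by_cases hpD : p ∈ D
  · simp [hpD]
  · have : p ∈ primesLe w := (mem_union.1 hp).resolve_right hpD
    simp only [if_neg hpD]
    rw [h p this]

theorem SD_sub (D : Finset ℕ) (b : ℕ → ℕ) (w m U : ℕ) (a : ℕ → ℕ) :
    SD D b w m U a ⊆ Ioc m (m + U) := filter_subset _ _

theorem SD_ok (D : Finset ℕ) (b : ℕ → ℕ) (w m U : ℕ) (a : ℕ → ℕ) (P : Finset ℕ)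
    (hP : ∀ p ∈ P, p.Prime ∧ 4 ≤ p) :
    SieveOK (OmD {0}) 1 (fun p => (U : ℝ) / p + 1) P (SD D b w m U a) where
  big p hp := ⟨(hP p hp).1.pos, by have := (hP p hp).2; omega⟩
  om n _ p hp := by
    refine ⟨OmD_subset {0} n p (hP p hp).1.pos, ?_⟩
    rw [OmD_card {0} n p (fun d hd => by rw [mem_singleton] at hd; rw [hd]; exact (hP p hp).1.pos),
      card_singleton]
  Bpos p hp := by positivity
  cls p hp r _ := by
    have hp0 := (hP p hp).1.pos
    have h1 : (SD D b w m U a).filter (fun n => r ∈ OmD {0} n p) ⊆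
        (Ioc m (m + U)).filter (fun n => (n + 0) % p = r) := by
      intro n hn
      obtain ⟨h1, h2⟩ := mem_filter.1 hn
      obtain ⟨d, hd, h3⟩ := mem_image.1 h2
      rw [mem_singleton] at hd
      subst hd
      exact mem_filter.2 ⟨SD_sub D b w m U a h1, h3⟩
    have h2 := card_class_le m U 0 p r hp0
    refine le_trans ?_ h2
    exact_mod_cast card_le_card h1

theorem SD_le (D : Finset ℕ) (b : ℕ → ℕ) (w m U : ℕ) (a : ℕ → ℕ) :
    (SD D b w m U a).card ≤ T1 (fun p => if p ∈ D then b p else a p) w m U := by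
  unfold SD T1
  exact card_le_card (TT_anti _ subset_union_left m U)

theorem SD_ge (D : Finset ℕ) (hD : ∀ p ∈ D, p.Prime) (b : ℕ → ℕ) (w m U : ℕ) (hw : 1 ≤ w)
    (a : ℕ → ℕ) :
    (T1 (fun p => if p ∈ D then b p else a p) w m U : ℝ) ≤
      (SD D b w m U a).card + D.card * ((U : ℝ) / w + 1) := by
  classical
  set c : ℕ → ℕ := fun p => if p ∈ D then b p else a p with hc
  have hsub : TT {0} c (primesLe w) m U ⊆ SD D b w m U a ∪
      (D.filter (fun p => w < p)).biUnion
        (fun p => (Ioc m (m + U)).filter (fun n => (n + 0) % p = c p % p)) := by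
    intro n hn
    have hn' := mem_T1.1 hn
    by_cases h : n ∈ SD D b w m U a
    · exact mem_union_left _ h
    · refine mem_union_right _ ?_
      have h1 : ¬ ∀ p ∈ primesLe w ∪ D, n % p ≠ c p % p := by
        intro h2
        exact h (mem_T1.2 ⟨hn'.1, h2⟩)
      push Not at h1
      obtain ⟨p, hp, hpn⟩ := h1
      have hpw : p ∉ primesLe w := fun h3 => hn'.2 p h3 hpn
      have hpD : p ∈ D := (mem_union.1 hp).resolve_left hpw
      have hlt : w < p := by
        by_contra h4
        exact hpw (mem_primesLe.2 ⟨by omega, hD p hpD⟩)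
      refine mem_biUnion.2 ⟨p, mem_filter.2 ⟨hpD, hlt⟩, mem_filter.2 ⟨mem_Ioc.2 hn'.1, ?_⟩⟩
      simpa using hpn
  have h1 : (T1 c w m U : ℝ) ≤ (SD D b w m U a).card +
      ∑ p ∈ D.filter (fun p => w < p),
        (((Ioc m (m + U)).filter (fun n => (n + 0) % p = c p % p)).card : ℝ) := by
    have h2 := (card_le_card hsub).trans (card_union_le _ _)
    have h3 : ((D.filter (fun p => w < p)).biUnion
        (fun p => (Ioc m (m + U)).filter (fun n => (n + 0) % p = c p % p))).card ≤
        ∑ p ∈ D.filter (fun p => w < p), ((Ioc m (m + U)).filter (fun n => (n + 0) % p = c p % p)).card :=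
      card_biUnion_le
    have h4 := h2.trans (Nat.add_le_add_left h3 _)
    unfold T1
    exact_mod_cast h4
  refine h1.trans ?_
  gcongr
  have hw0 : (0 : ℝ) < w := by exact_mod_cast hw
  calc ∑ p ∈ D.filter (fun p => w < p),
        (((Ioc m (m + U)).filter (fun n => (n + 0) % p = c p % p)).card : ℝ)
      ≤ ∑ p ∈ D.filter (fun p => w < p), ((U : ℝ) / w + 1) := by
        refine sum_le_sum fun p hp => ?_
        obtain ⟨h5, h6⟩ := mem_filter.1 hp
        have h7 := card_class_le m U 0 p (c p % p) (hD p h5).pos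
        have h8 : (U : ℝ) / p ≤ U / w := by gcongr
        linarith
    _ = ((D.filter (fun p => w < p)).card : ℝ) * ((U : ℝ) / w + 1) := by
        rw [sum_const, nsmul_eq_mul]
    _ ≤ D.card * ((U : ℝ) / w + 1) := by
        gcongr
        exact filter_subset _ _

section
variable {Ω : Type} [MeasurableSpace Ω] {μ : Measure Ω} [IsProbabilityMeasure μ]
  {A : ℕ → Ω → ℕ}

theorem tailD (hA : RandomClasses μ A) (w Z : ℕ) (hw : 4 ≤ w) (hwZ : w ≤ Z) (m U : ℕ)
    (D : Finset ℕ) (b : ℕ → ℕ) (Kh : ℝ)
    (hK1 : KK 1 (fun p => (U : ℝ) / p + 1) ((primesLe Z).filter (fun p => w < p)) ≤ Kh)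
    (hK2 : ∀ p ∈ (primesLe Z).filter (fun p => w < p),
      uu 1 ((primesLe Z).filter (fun p => w < p)) p * ((U : ℝ) / p + 1) ≤ Kh)
    (θ : ℝ) (hθ : 0 ≤ θ) (h4 : 4 * θ * Kh ≤ 1) (t M : ℝ)
    (hM : ∀ a, V Z / V w * (SD D b w m U a).card ≤ M) :
    μ {ω | t ≤ |((surv (OmD {0}) ((primesLe Z).filter (fun p => w < p)) (fun p => A p ω)
        (SD D b w m U (fun p => A p ω))).card : ℝ) -
        V Z / V w * (SD D b w m U (fun p => A p ω)).card|} ≤
      ENNReal.ofReal (2 * Real.exp (-(θ * (t - 4 * θ * Kh * M)))) := by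
  classical
  set P := (primesLe Z).filter (fun p => w < p) with hP
  have hPp : ∀ p ∈ P, p.Prime ∧ w < p := fun p hp =>
    ⟨(mem_primesLe.1 (mem_filter.1 hp).1).2, (mem_filter.1 hp).2⟩
  have hρ : rho 1 P = V Z / V w := by
    rw [rho_one, V_split hwZ, mul_div_cancel_left₀ _ (V_pos w).ne']
  have hsd : primesLe Z \ P = primesLe w := by
    ext p
    rw [Finset.mem_sdiff, hP, Finset.mem_filter, mem_primesLe, mem_primesLe]
    simp only [not_and, not_lt]
    constructor
    · rintro ⟨h1, h2⟩
      exact ⟨h2 h1, h1.2⟩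
    · rintro ⟨h1, h2⟩
      exact ⟨⟨h1.trans hwZ, h2⟩, fun _ => h1⟩
  have htail := tail_prob hA (primesLe Z) P (fun p hp => (mem_primesLe.1 hp).2)
    (filter_subset _ _) (OmD {0}) 1 (fun p => (U : ℝ) / p + 1) θ hθ
    (SD D b w m U)
    (by rw [hsd]; exact SD_dep D b w m U)
    (fun a => SD_ok D b w m U a P fun p hp => ⟨(hPp p hp).1, by have := (hPp p hp).2; omega⟩)
    Kh hK1 hK2 h4 t M (fun a => by rw [hρ]; exact hM a)
  rw [hρ] at htail
  exact htail

end

/-- The survivors of the corrupted sieve. -/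
def CS (D : Finset ℕ) (b a : ℕ → ℕ) (Z m U : ℕ) : Finset ℕ :=
  TT {0} (fun p => if p ∈ D then b p else a p) (primesLe Z) m U

/-- deterministic comparison -/
theorem CS_ge (D : Finset ℕ) (hD : ∀ p ∈ D, p.Prime) (b a : ℕ → ℕ) (w Z m U : ℕ)
    (ha : ∀ p : ℕ, p.Prime → a p < p) :
    ((surv (OmD {0}) ((primesLe Z).filter (fun p => w < p)) a
      (SD (D.filter (fun p => p ≤ U)) b w m U a)).card : ℝ) ≤ (CS D b a Z m U).card + 2 * D.card := by
  classical
  set c : ℕ → ℕ := fun p => if p ∈ D then b p else a p with hc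
  have hsub : surv (OmD {0}) ((primesLe Z).filter (fun p => w < p)) a
      (SD (D.filter (fun p => p ≤ U)) b w m U a) ⊆ CS D b a Z m U ∪
      (D.filter (fun p => U < p)).biUnion
        (fun p => (Ioc m (m + U)).filter (fun n => (n + 0) % p = c p % p)) := by
    intro n hn
    unfold surv at hn
    obtain ⟨h1, h2⟩ := mem_filter.1 hn
    have hI := mem_T1.1 h1
    by_cases h : n ∈ CS D b a Z m U
    · exact mem_union_left _ h
    · refine mem_union_right _ ?_
      have h3 : ¬ ∀ p ∈ primesLe Z, n % p ≠ c p % p := by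
        intro h4
        exact h (mem_T1.2 ⟨hI.1, h4⟩)
      push Not at h3
      obtain ⟨p, hp, hpn⟩ := h3
      have hpp := (mem_primesLe.1 hp).2
      have hpD : p ∈ D := by
        by_contra hpD
        have e1 : c p = a p := by rw [hc]; simp [hpD]
        rw [e1, Nat.mod_eq_of_lt (ha p hpp)] at hpn
        rcases le_or_gt p w with hpw | hpw
        · have := hI.2 p (mem_union_left _ (mem_primesLe.2 ⟨hpw, hpp⟩))
          rw [if_neg (fun h5 => hpD (mem_filter.1 h5).1), Nat.mod_eq_of_lt (ha p hpp)] at this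
          exact this hpn
        · have := h2 p (mem_filter.2 ⟨hp, hpw⟩)
          refine this ?_
          unfold OmD
          rw [mem_image]
          exact ⟨0, mem_singleton_self 0, by simpa using hpn⟩
      have hUp : U < p := by
        by_contra hUp
        have h5 : p ∈ D.filter (fun p => p ≤ U) := mem_filter.2 ⟨hpD, by omega⟩
        have := hI.2 p (mem_union_right _ h5)
        rw [if_pos h5] at this
        have e1 : c p = b p := by rw [hc]; simp [hpD]
        rw [e1] at hpn
        exact this hpn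
      refine mem_biUnion.2 ⟨p, mem_filter.2 ⟨hpD, hUp⟩, mem_filter.2 ⟨mem_Ioc.2 hI.1, ?_⟩⟩
      simpa using hpn
  have h2 := (card_le_card hsub).trans (card_union_le _ _)
  have h3 : ((D.filter (fun p => U < p)).biUnion
      (fun p => (Ioc m (m + U)).filter (fun n => (n + 0) % p = c p % p))).card ≤
      ∑ p ∈ D.filter (fun p => U < p), ((Ioc m (m + U)).filter (fun n => (n + 0) % p = c p % p)).card :=
    card_biUnion_le
  have h4 : (((D.filter (fun p => U < p)).biUnion
      (fun p => (Ioc m (m + U)).filter (fun n => (n + 0) % p = c p % p))).card : ℝ) ≤ 2 * D.card := by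
    calc (((D.filter (fun p => U < p)).biUnion
      (fun p => (Ioc m (m + U)).filter (fun n => (n + 0) % p = c p % p))).card : ℝ)
        ≤ ∑ p ∈ D.filter (fun p => U < p),
          (((Ioc m (m + U)).filter (fun n => (n + 0) % p = c p % p)).card : ℝ) := by
            exact_mod_cast h3
      _ ≤ ∑ p ∈ D.filter (fun p => U < p), (2 : ℝ) := by
          refine sum_le_sum fun p hp => ?_
          obtain ⟨h5, h6⟩ := mem_filter.1 hp
          have hp0 := (hD p h5).pos
          have h7 := card_class_le m U 0 p (c p % p) hp0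
          have hp0' : (0 : ℝ) < p := by exact_mod_cast hp0
          have h8 : (U : ℝ) / p ≤ 1 := by
            rw [div_le_one hp0']
            exact_mod_cast h6.le
          linarith
      _ = ((D.filter (fun p => U < p)).card : ℝ) * 2 := by rw [sum_const, nsmul_eq_mul]
      _ ≤ D.card * 2 := by
          gcongr
          exact filter_subset _ _
      _ = 2 * D.card := by ring
  have h5 : ((surv (OmD {0}) ((primesLe Z).filter (fun p => w < p)) a
      (SD (D.filter (fun p => p ≤ U)) b w m U a)).card : ℝ) ≤ (CS D b a Z m U).card +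
      (((D.filter (fun p => U < p)).biUnion
      (fun p => (Ioc m (m + U)).filter (fun n => (n + 0) % p = c p % p))).card : ℝ) := by
    exact_mod_cast h2
  linarith

end Pool.Agent.H565.AC
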