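import Mathlib
import Pool.Agent.H532.RM.Conc
import Pool.Agent.H565.AC.Tl

/-! Finite sets of changed classes, encoded by functions; the size of the sieving limit. -/

set_option autoImplicit false

open Finset MeasureTheory Function ProbabilityTheory Filter
open scoped ENNReal Topology

namespace Pool.Agent.H565.AC

open Pool.Agent.H532.RM

open Classical in
/-- the primes of the code `g` -/
noncomputable def Dg (U : ℕ) {K : ℕ} (g : Fin K → Fin (U + 1) × Fin (U + 1)) : Finset ℕ :=
  (primesLe U).filter (fun p => ∃ i, ((g i).1 : ℕ) = p)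

open Classical in
/-- the classes of the code `g` -/
noncomputable def bg {U : ℕ} {K : ℕ} (g : Fin K → Fin (U + 1) × Fin (U + 1)) (p : ℕ) : ℕ :=
  if h : ∃ i, ((g i).1 : ℕ) = p then ((g h.choose).2 : ℕ) else 0

theorem exg (U K : ℕ) (D : Finset ℕ) (hD : ∀ p ∈ D, p.Prime ∧ p ≤ U) (hK : D.card ≤ K)
    (b : ℕ → ℕ) : ∃ g : Fin K → Fin (U + 1) × Fin (U + 1), Dg U g = D ∧
      ∀ p ∈ D, bg g p % p = b p % p := by
  classical
  set l := D.toList with hl
  have hlen : l.length = D.card := Finset.length_toList D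
  have hmem : ∀ i : ℕ, l.getD i 0 = 0 ∨ l.getD i 0 ∈ D := by
    intro i
    by_cases hi : i < l.length
    · right
      rw [List.getD_eq_getElem _ _ hi]
      exact Finset.mem_toList.1 (List.getElem_mem hi)
    · left
      exact List.getD_eq_default _ _ (not_lt.1 hi)
  have hle : ∀ i : ℕ, l.getD i 0 ≤ U := by
    intro i
    rcases hmem i with h | h
    · omega
    · exact (hD _ h).2
  set g : Fin K → Fin (U + 1) × Fin (U + 1) := fun i =>
    (Fin.ofNat (U + 1) (l.getD i 0), Fin.ofNat (U + 1) (b (l.getD i 0) % (l.getD i 0))) with hg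
  have hg1 : ∀ i, ((g i).1 : ℕ) = l.getD i 0 := by
    intro i
    show (Fin.ofNat (U + 1) (l.getD i 0) : ℕ) = _
    rw [Fin.val_ofNat, Nat.mod_eq_of_lt]
    exact Nat.lt_succ_of_le (hle i)
  have hg2 : ∀ i : Fin K, l.getD i 0 ∈ D → ((g i).2 : ℕ) = b (l.getD i 0) % (l.getD i 0) := by
    intro i hi
    show (Fin.ofNat (U + 1) (b (l.getD i 0) % (l.getD i 0)) : ℕ) = _
    rw [Fin.val_ofNat, Nat.mod_eq_of_lt]
    have h1 := (hD _ hi).1.pos
    have h2 := Nat.mod_lt (b (l.getD i 0)) h1
    have h3 := hle i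
    omega
  have hex : ∀ p ∈ D, ∃ i : Fin K, ((g i).1 : ℕ) = p := by
    intro p hp
    obtain ⟨i, hi, hip⟩ := List.getElem_of_mem (Finset.mem_toList.2 hp)
    have hi' : i < l.length := hi
    refine ⟨⟨i, by omega⟩, ?_⟩
    rw [hg1]
    show l.getD i 0 = p
    rw [List.getD_eq_getElem _ _ hi]
    exact hip
  refine ⟨g, ?_, ?_⟩
  · ext p
    unfold Dg
    rw [Finset.mem_filter, mem_primesLe]
    constructor
    · rintro ⟨⟨h1, h2⟩, i, hi⟩
      rw [hg1] at hi
      rcases hmem i with h | h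
      · rw [h] at hi
        exact absurd h2 (by rw [← hi]; exact Nat.not_prime_zero)
      · rwa [hi] at h
    · intro hp
      exact ⟨⟨(hD p hp).2, (hD p hp).1⟩, hex p hp⟩
  · intro p hp
    unfold bg
    rw [dif_pos (hex p hp)]
    have h1 := (hex p hp).choose_spec
    rw [hg1] at h1
    rw [hg2 _ (by rw [h1]; exact hp), h1, Nat.mod_mod]

theorem SD_congr (D : Finset ℕ) (b b' : ℕ → ℕ) (w m U : ℕ) (a : ℕ → ℕ)
    (h : ∀ p ∈ D, b p % p = b' p % p) : SD D b w m U a = SD D b' w m U a := by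
  unfold SD
  refine TT_congr _ _ _ _ _ _ fun p _ => ?_
  by_cases hpD : p ∈ D
  · simp only [if_pos hpD]; exact h p hpD
  · simp only [if_neg hpD]

theorem gamma_half : (1 : ℝ) / 2 < Real.exp (-Real.eulerMascheroniConstant) := by
  have h1 := Real.eulerMascheroniConstant_lt_two_thirds
  have h2 := Real.log_two_gt_d9
  have h3 : (1 : ℝ) / 2 = Real.exp (-Real.log 2) := by
    rw [Real.exp_neg, Real.exp_log (by norm_num)]; norm_num
  rw [h3]
  exact Real.exp_lt_exp.2 (by linarith)

/-- the sieving limit is larger than `√x` -/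
theorem Zbig (Z : ℕ → ℕ) (L : ℕ → ℝ) (hL : Tendsto L atTop atTop)
    (h : Tendsto (fun j => V (Z j) * L j) atTop (𝓝 1)) :
    Tendsto Z atTop atTop ∧ ∀ᶠ j in atTop, L j / 2 ≤ Real.log (Z j) := by
  have hV0 : Tendsto (fun j => V (Z j)) atTop (𝓝 0) := by
    have h1 := h.mul hL.inv_tendsto_atTop
    rw [one_mul] at h1
    refine h1.congr' ?_
    filter_upwards [hL.eventually_gt_atTop 0] with j hj
    simp only [Pi.inv_apply]
    field_simp
  have hZ : Tendsto Z atTop atTop := by
    refine tendsto_atTop.2 fun B => ?_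
    filter_upwards [hV0.eventually (gt_mem_nhds (V_pos B))] with j hj
    by_contra hc
    exact absurd (V_anti (not_le.1 hc).le) (not_le.2 hj)
  refine ⟨hZ, ?_⟩
  have h1 := V_log.comp hZ
  have h2 := h1.div h one_ne_zero
  rw [div_one] at h2
  have h3 := h2.eventually (lt_mem_nhds gamma_half)
  filter_upwards [h3, hL.eventually_gt_atTop 0] with j h4 h5
  have h6 := V_pos (Z j)
  simp only [Pi.div_apply, Function.comp] at h4
  rw [mul_div_mul_left _ _ h6.ne', lt_div_iff₀ h5] at h4
  linarith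

end Pool.Agent.H565.AC
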