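import Mathlib
import Pool.Graph.R_seed8.Y882.JR.Core5
import Pool.Graph.R_seed8.W366.DC.SFX
import Pool.Graph.R_seed8.W378.DC.MP
import Pool.Agent.H532.RM.Conc

/-! The linear sieve for intervals and arbitrary classes (one class for every prime). -/

set_option autoImplicit false

open Finset Filter
open scoped Topology

namespace Pool.Agent.H565.AC

open Pool.Agent.W23.DC Pool.Agent.Y882
open Pool.Agent.H532.RM (TT T1 primesLe mem_primesLe mem_T1)

/-- the number of the elements of an interval in a system of classes -/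
theorem cnt (T : Finset ℕ) (hT : ∀ p ∈ T, p.Prime) (c : ℕ → ℕ) (m U : ℕ) :
    |(((Ioc m (m + U)).filter (fun n => ∀ p ∈ T, n % p = c p % p)).card : ℝ) -
      U / ((∏ p ∈ T, p : ℕ) : ℝ)| ≤ 1 := by
  classical
  obtain ⟨k, hk⟩ := Nat.chineseRemainderOfFinset c (fun p => p) T
    (fun p hp => (hT p hp).ne_zero)
    (fun p hp q hq hne => (Nat.coprime_primes (hT p hp) (hT q hq)).2 hne)
  set P := ∏ p ∈ T, p with hP
  have hP0 : 0 < P := prod_pos fun p hp => (hT p hp).pos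
  have hiff : ∀ n : ℕ, (∀ p ∈ T, n % p = c p % p) ↔ n ≡ k [MOD P] := by
    intro n
    constructor
    · intro h
      rw [Nat.modEq_iff_dvd, hP]
      push_cast
      refine Finset.prod_dvd_of_coprime ?_ ?_
      · intro p hp q hq hne
        exact Nat.isCoprime_iff_coprime.2 ((Nat.coprime_primes (hT p hp) (hT q hq)).2 hne)
      · intro p hp
        rw [← Nat.modEq_iff_dvd]
        exact (show n ≡ c p [MOD p] from h p hp).trans (hk p hp).symm
    · intro h p hp
      have h1 : n ≡ k [MOD p] := h.of_dvd (dvd_prod_of_mem _ hp)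
      exact h1.trans (hk p hp)
  simp only [hiff]
  have hc := Nat.Ioc_filter_modEq_card m (m + U) hP0 k
  have hPq : (0 : ℚ) < P := by exact_mod_cast hP0
  have h1 : ⌊((m : ℚ) - k) / (P : ℚ)⌋ ≤ ⌊(((m + U : ℕ) : ℚ) - k) / (P : ℚ)⌋ := by
    apply Int.floor_le_floor
    gcongr
    exact_mod_cast Nat.le_add_right m U
  rw [max_eq_left (by linarith)] at hc
  have h2 : ((((Ioc m (m + U)).filter (fun n => n ≡ k [MOD P])).card : ℤ) : ℚ) =
      (⌊(((m + U : ℕ) : ℚ) - k) / (P : ℚ)⌋ : ℚ) - (⌊((m : ℚ) - k) / (P : ℚ)⌋ : ℚ) := by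
    rw [hc]; push_cast; ring
  have a1 := Int.floor_le ((((m + U : ℕ) : ℚ) - k) / (P : ℚ))
  have a2 := Int.lt_floor_add_one ((((m + U : ℕ) : ℚ) - k) / (P : ℚ))
  have a3 := Int.floor_le (((m : ℚ) - k) / (P : ℚ))
  have a4 := Int.lt_floor_add_one (((m : ℚ) - k) / (P : ℚ))
  have e : (((m + U : ℕ) : ℚ) - k) / (P : ℚ) = ((m : ℚ) - k) / P + (U : ℚ) / P := by
    push_cast; ring
  rw [e] at a1 a2 h2
  have h3 : |((((Ioc m (m + U)).filter (fun n => n ≡ k [MOD P])).card : ℕ) : ℚ) - (U : ℚ) / P| ≤ 1 := by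
    have h4 : ((((Ioc m (m + U)).filter (fun n => n ≡ k [MOD P])).card : ℕ) : ℚ) =
      (⌊((m : ℚ) - k) / P + (U : ℚ) / P⌋ : ℚ) - (⌊((m : ℚ) - k) / (P : ℚ)⌋ : ℚ) := by
      rw [← h2]; push_cast; rfl
    rw [h4, abs_le]
    constructor <;> linarith
  have h5 : (((|((((Ioc m (m + U)).filter (fun n => n ≡ k [MOD P])).card : ℕ) : ℚ) - (U : ℚ) / P| : ℚ)) : ℝ) ≤ ((1 : ℚ) : ℝ) :=
    Rat.cast_le.2 h3
  push_cast at h5
  exact h5

theorem tele (A M : ℕ) (hA : 2 ≤ A) (hAM : A ≤ M) :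
    ∑ n ∈ Ico A M, (1 / ((n : ℝ) - 1) - 1 / n) = 1 / ((A : ℝ) - 1) - 1 / ((M : ℝ) - 1) := by
  induction M, hAM using Nat.le_induction with
  | base => simp
  | succ n hn ih =>
    rw [sum_Ico_succ_top hn, ih]
    push_cast
    ring

/-- Mertens for the weights `1 / p` -/
theorem mer1 (ε₁ ζ η : ℝ) (hε : 0 < ε₁) (hζ : ζ ≤ 1) (hη : 0 < η) : ∃ N0 : ℕ, ∀ N : ℕ, N0 ≤ N →
    Mer (pr N ε₁ ζ) (tt N) (fun p => 1 / (p : ℝ)) ε₁ ζ η := by
  classical
  obtain ⟨N1, h1⟩ := Pool.Agent.W378.DC.MP ε₁ (η / 2) hε (by linarith)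
  have hev : ∀ᶠ N : ℕ in atTop, 2 / η + 2 ≤ (N : ℝ) ^ ε₁ :=
    ((tendsto_rpow_atTop hε).comp tendsto_natCast_atTop_atTop).eventually_ge_atTop _
  obtain ⟨N2, h2⟩ := eventually_atTop.1 hev
  refine ⟨max (max N1 N2) 2, ?_⟩
  intro N hN a b ha hab hb
  have b1 : N1 ≤ N := ((le_max_left _ _).trans (le_max_left _ _)).trans hN
  have b2 : N2 ≤ N := ((le_max_right _ _).trans (le_max_left _ _)).trans hN
  have b3 : 2 ≤ N := (le_max_right _ _).trans hN
  have hNr : (2 : ℝ) ≤ N := by exact_mod_cast b3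
  have hlN : 0 < Real.log N := Real.log_pos (by linarith)
  have e1 : (pr N ε₁ ζ).filter (fun p => a ≤ tt N p ∧ tt N p < b) = pr N a b := by
    unfold pr
    ext p
    simp only [mem_filter]
    constructor
    · rintro ⟨⟨x1, x2, _, _⟩, x3, x4⟩
      exact ⟨x1, x2, x3, x4⟩
    · rintro ⟨x1, x2, x3, x4⟩
      exact ⟨⟨x1, x2, ha.trans x3, lt_of_lt_of_le x4 hb⟩, x3, x4⟩
  rw [e1]
  have h3 := h1 N b1 a b ha hab (hb.trans hζ)
  set A : ℕ := ⌈(N : ℝ) ^ ε₁⌉₊ with hAd
  have hA1 : (N : ℝ) ^ ε₁ ≤ A := Nat.le_ceil _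
  have hη2 : 0 < 2 / η := by positivity
  have hA2r : 2 / η + 2 ≤ (A : ℝ) := (h2 N b2).trans hA1
  have hA2 : 2 ≤ A := by
    have : (2 : ℝ) ≤ A := by linarith
    exact_mod_cast this
  have hsub : pr N a b ⊆ Ico A (N + 1) := by
    intro p hp
    unfold pr at hp
    rw [mem_filter, mem_Icc] at hp
    obtain ⟨⟨_, x2⟩, x3, x4, _⟩ := hp
    rw [mem_Ico]
    refine ⟨?_, by omega⟩
    rw [hAd, Nat.ceil_le]
    have hp0 : (0 : ℝ) < p := by exact_mod_cast x3.pos
    have x5 : ε₁ * Real.log N ≤ Real.log p := by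
      have : ε₁ ≤ tt N p := ha.trans x4
      unfold tt at this
      rwa [le_div_iff₀ hlN] at this
    rw [← Real.log_le_log_iff (by positivity) hp0, Real.log_rpow (by linarith)]
    exact x5
  have hterm : ∀ n ∈ Ico A (N + 1), 0 ≤ 1 / ((n : ℝ) - 1) - 1 / n := by
    intro n hn
    have : A ≤ n := (mem_Ico.1 hn).1
    have h4 : (2 : ℝ) ≤ n := by exact_mod_cast hA2.trans this
    have : 1 / (n : ℝ) ≤ 1 / ((n : ℝ) - 1) := one_div_le_one_div_of_le (by linarith) (by linarith)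
    linarith
  have h5 : ∑ p ∈ pr N a b, (1 / ((p : ℝ) - 1) - 1 / p) ≤ η / 2 := by
    rcases Nat.lt_or_ge (N + 1) A with hc | hc
    · have : pr N a b = ∅ := by
        rw [Finset.eq_empty_iff_forall_notMem]
        intro p hp
        have := mem_Ico.1 (hsub hp)
        omega
      rw [this, sum_empty]; linarith
    · calc ∑ p ∈ pr N a b, (1 / ((p : ℝ) - 1) - 1 / p) ≤
          ∑ n ∈ Ico A (N + 1), (1 / ((n : ℝ) - 1) - 1 / n) :=
            sum_le_sum_of_subset_of_nonneg hsub fun n hn _ => hterm n hn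
        _ = 1 / ((A : ℝ) - 1) - 1 / (((N + 1 : ℕ) : ℝ) - 1) := tele A (N + 1) hA2 hc
        _ ≤ 1 / ((A : ℝ) - 1) := by
            have : 0 ≤ 1 / (((N + 1 : ℕ) : ℝ) - 1) := by
              push_cast
              have : (0 : ℝ) ≤ N + 1 - 1 := by linarith
              positivity
            linarith
        _ ≤ 1 / (2 / η) := one_div_le_one_div_of_le hη2 (by linarith)
        _ = η / 2 := by rw [one_div_div]
  have h6 : 0 ≤ ∑ p ∈ pr N a b, (1 / ((p : ℝ) - 1) - 1 / p) :=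
    sum_nonneg fun p hp => hterm p (hsub hp)
  have h7 : ∑ p ∈ pr N a b, (1 / ((p : ℝ) - 1) - 1 / p) =
      ∑ p ∈ pr N a b, 1 / ((p : ℝ) - 1) - ∑ p ∈ pr N a b, 1 / (p : ℝ) := sum_sub_distrib _ _
  rw [abs_le] at h3 ⊢
  constructor <;> linarith [h3.1, h3.2]

/-- the number of sets of primes with a small product -/
theorem cardT (z : ℝ) (hz : 0 ≤ z) (W : Finset ℕ) (hW : ∀ p ∈ W, p.Prime) :
    ((W.powerset.filter (fun T => ((∏ p ∈ T, p : ℕ) : ℝ) ≤ z)).card : ℝ) ≤ z := by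
  classical
  have h3 : (W.powerset.filter (fun T => ((∏ p ∈ T, p : ℕ) : ℝ) ≤ z)).card ≤ (Icc 1 ⌊z⌋₊).card := by
    apply card_le_card_of_injOn (fun T => ∏ p ∈ T, p)
    · intro T hT
      rw [mem_coe, mem_filter, mem_powerset] at hT
      rw [mem_coe, mem_Icc]
      exact ⟨Nat.pos_of_ne_zero (prod_ne_zero_iff.2 fun p hp => (hW p (hT.1 hp)).ne_zero), Nat.le_floor hT.2⟩
    · intro T hT T' hT' hTT
      rw [mem_coe, mem_filter, mem_powerset] at hT hT'
      have e1 : (∏ p ∈ T, p).primeFactors = T := Nat.primeFactors_prod fun p hp => hW p (hT.1 hp)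
      have e2 : (∏ p ∈ T', p).primeFactors = T' := Nat.primeFactors_prod fun p hp => hW p (hT'.1 hp)
      rw [← e1, ← e2]
      exact congrArg _ hTT
  rw [Nat.card_Icc, Nat.add_sub_cancel] at h3
  calc ((W.powerset.filter (fun T => ((∏ p ∈ T, p : ℕ) : ℝ) ≤ z)).card : ℝ) ≤ (⌊z⌋₊ : ℝ) := by exact_mod_cast h3
    _ ≤ z := Nat.floor_le hz

/-- **The linear sieve.** -/
theorem lin (β : ℝ) (hβ0 : 0 < β) (hβ : β < 1 / 2) : ∃ c : ℝ, 0 < c ∧ ∃ U0 : ℕ, ∀ U : ℕ, U0 ≤ U →
    ∀ w : ℕ, (w : ℝ) ≤ (U : ℝ) ^ β → ∀ (a : ℕ → ℕ) (m : ℕ),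
    c * (U * Pool.Agent.H532.RM.V U) ≤ (T1 a w m U : ℝ) := by
  classical
  obtain ⟨A0, F, f, hSF⟩ := Pool.Agent.W366.DC.SFX
  set ζ : ℝ := (β + 1 / 2) / 2 with hζd
  have hζ1 : 1 / 4 < ζ := by rw [hζd]; linarith
  have hζ2 : ζ < 1 / 2 := by rw [hζd]; linarith
  have hβζ : β < ζ := by rw [hζd]; linarith
  set τ : ℝ := ζ + 1 / 2 with hτ
  set τ' : ℝ := (τ + 1) / 2 with hτ'
  have hs2 : 2 < τ / ζ := by rw [lt_div_iff₀ (by linarith), hτ]; linarith
  have hs4 : τ / ζ ≤ 4 := by rw [div_le_iff₀ (by linarith), hτ]; linarith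
  have hfs : 0 < f (τ / ζ) := by
    rw [hSF.f4 _ hs2.le hs4]
    have : 0 < Real.log (τ / ζ - 1) := Real.log_pos (by linarith)
    have := hSF.pos
    positivity
  set ε : ℝ := f (τ / ζ) / 2 with hε
  have hε0 : 0 < ε := by positivity
  obtain ⟨ε₁, η, hε₁, hε₁ζ, hη, Y0, HC⟩ := Pool.Agent.Y882.JR.core5 1 A0 F f hSF τ ζ τ' ε
    (by linarith) (by linarith) (by linarith) (by rw [hτ']; linarith) hε0
  obtain ⟨Y1, hM⟩ := mer1 ε₁ ζ η hε₁ (by linarith) hη
  obtain ⟨c1, C1, hc1, _, hV⟩ := Pool.Agent.H532.RM.V_two_sided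
  have hτ'1 : τ' < 1 := by rw [hτ', hτ]; linarith
  have ev : ∀ᶠ U : ℕ in atTop, 10 / (ε * c1) * (Real.log U ^ 2) ≤ (U : ℝ) ^ (1 - τ') := by
    have h1 : (fun x : ℝ => Real.log x ^ (2 : ℝ)) =o[atTop] fun x => x ^ (1 - τ') :=
      isLittleO_log_rpow_rpow_atTop 2 (by linarith)
    have h2 := h1.bound (show (0 : ℝ) < ε * c1 / 10 by positivity)
    filter_upwards [tendsto_natCast_atTop_atTop.eventually h2, eventually_ge_atTop 1] with U hU hU1
    have hUr : (1 : ℝ) ≤ U := by exact_mod_cast hU1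
    have hl := Real.log_nonneg hUr
    rw [Real.norm_of_nonneg (by positivity), Real.norm_of_nonneg (by positivity)] at hU
    have h3 : Real.log (U : ℝ) ^ (2 : ℝ) = Real.log U ^ 2 := by
      rw [← Real.rpow_natCast]; norm_num
    rw [h3] at hU
    rw [div_mul_eq_mul_div, div_le_iff₀ (by positivity)]
    linarith
  obtain ⟨Y2, hY2⟩ := eventually_atTop.1 ev
  refine ⟨ε / 2, by positivity, max (max Y0 Y1) (max Y2 3), ?_⟩
  intro U hU w hw a m
  have u0 : Y0 ≤ U := ((le_max_left _ _).trans (le_max_left _ _)).trans hU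
  have u1 : Y1 ≤ U := ((le_max_right _ _).trans (le_max_left _ _)).trans hU
  have u2 : Y2 ≤ U := ((le_max_left _ _).trans (le_max_right _ _)).trans hU
  have u3 : 3 ≤ U := ((le_max_right _ _).trans (le_max_right _ _)).trans hU
  have hUr : (3 : ℝ) ≤ U := by exact_mod_cast u3
  have hU0 : (0 : ℝ) < U := by linarith
  have hlU : 0 < Real.log U := Real.log_pos (by linarith)
  obtain ⟨wU, wL, q1, q2, q3, q4⟩ := HC U u0
  have hPZ : ∀ p ∈ PZ U ζ, p.Prime := by
    intro p hp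
    unfold PZ at hp
    rw [mem_filter] at hp
    exact hp.2.1
  have h2p : ∀ p ∈ PZ U ζ, (2 : ℝ) ≤ p := fun p hp => by exact_mod_cast (hPZ p hp).two_le
  obtain ⟨q5, _⟩ := q4 (fun p => 1 / (p : ℝ)) (fun p hp => by positivity)
    (fun p hp => by
      have := h2p p hp
      show 1 / (p : ℝ) ≤ 1
      rw [div_le_one (by linarith)]; linarith)
    (fun p hp _ => by
      have := h2p p hp
      show 1 / (p : ℝ) ≤ ((1 : ℕ) : ℝ) / ((p : ℝ) - 1)
      push_cast
      exact one_div_le_one_div_of_le (by linarith) (by linarith))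
    (hM U u1)
  have hf2 : f (τ / ζ) - ε = ε := by rw [hε]; ring
  rw [hf2] at q5
  -- the density
  have hprod : Pool.Agent.H532.RM.V U ≤ ∏ p ∈ PZ U ζ, (1 - 1 / (p : ℝ)) := by
    unfold Pool.Agent.H532.RM.V
    have hsub : PZ U ζ ⊆ primesLe U := by
      intro p hp
      have h1 := hPZ p hp
      unfold PZ at hp
      rw [mem_filter, mem_Icc] at hp
      exact mem_primesLe.2 ⟨hp.1.2, h1⟩
    rw [← prod_sdiff hsub]
    have h3 : ∏ p ∈ primesLe U \ PZ U ζ, (1 - 1 / (p : ℝ)) ≤ 1 := by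
      refine prod_le_one (fun p hp => ?_) (fun p hp => ?_)
      · have hp2 : (2 : ℝ) ≤ p := by
          exact_mod_cast (mem_primesLe.1 (mem_sdiff.1 hp).1).2.two_le
        rw [sub_nonneg, div_le_one (by linarith)]
        linarith
      · have : (0 : ℝ) ≤ 1 / (p : ℝ) := by positivity
        linarith
    have h4 : 0 ≤ ∏ p ∈ PZ U ζ, (1 - 1 / (p : ℝ)) := by
      refine prod_nonneg fun p hp => ?_
      have := h2p p hp
      rw [sub_nonneg, div_le_one (by linarith)]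
      linarith
    nlinarith
  -- the function N
  set NN : ℕ → ℕ := fun n => ∏ p ∈ (PZ U ζ).filter (fun p => n % p = a p % p), p with hNN
  have hdvd : ∀ n : ℕ, ∀ p ∈ PZ U ζ, (p ∣ NN n ↔ n % p = a p % p) := by
    intro n p hp
    constructor
    · intro h
      rw [hNN, Prime.dvd_finset_prod_iff (hPZ p hp).prime] at h
      obtain ⟨q, hq, hpq⟩ := h
      rw [mem_filter] at hq
      have : p = q := (Nat.prime_dvd_prime_iff_eq (hPZ p hp) (hPZ q hq.1)).1 hpq
      rw [this]; exact hq.2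
    · intro h
      exact Finset.dvd_prod_of_mem _ (mem_filter.2 ⟨hp, h⟩)
  have hVV : ∀ n : ℕ, VV (PZ U ζ) wL (fun p => if p ∣ NN n then 1 else 0) =
      ∑ T ∈ (PZ U ζ).powerset, wL T * (if ∀ p ∈ T, n % p = a p % p then 1 else 0) := by
    intro n
    unfold VV
    refine sum_congr rfl fun T hT => ?_
    rw [mem_powerset] at hT
    congr 1
    by_cases h : ∀ p ∈ T, n % p = a p % p
    · rw [if_pos h]
      refine prod_eq_one fun p hp => ?_
      rw [if_pos ((hdvd n p (hT hp)).2 (h p hp))]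
    · rw [if_neg h]
      push Not at h
      obtain ⟨p, hp, hpn⟩ := h
      refine prod_eq_zero hp ?_
      rw [if_neg (fun h' => hpn ((hdvd n p (hT hp)).1 h'))]
  -- upper bound of the sum by the number of survivors
  have hup : ∑ n ∈ Ioc m (m + U), VV (PZ U ζ) wL (fun p => if p ∣ NN n then 1 else 0) ≤
      (T1 a w m U : ℝ) := by
    calc ∑ n ∈ Ioc m (m + U), VV (PZ U ζ) wL (fun p => if p ∣ NN n then 1 else 0)
        ≤ ∑ n ∈ Ioc m (m + U), (if ∀ p ∈ PZ U ζ, ¬ p ∣ NN n then (1 : ℝ) else 0) :=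
          sum_le_sum fun n _ => (q3 (NN n)).1
      _ = (((Ioc m (m + U)).filter (fun n => ∀ p ∈ PZ U ζ, ¬ p ∣ NN n)).card : ℝ) := by
          rw [card_filter]; push_cast; rfl
      _ ≤ (T1 a w m U : ℝ) := by
          unfold T1
          norm_cast
          refine card_le_card fun n hn => ?_
          rw [mem_filter] at hn
          rw [mem_T1]
          refine ⟨by have := mem_Ioc.1 hn.1; exact this, ?_⟩
          intro p hp
          have hp' := mem_primesLe.1 hp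
          have hpz : p ∈ PZ U ζ := by
            unfold PZ
            rw [mem_filter, mem_Icc]
            have hp0 : (0 : ℝ) < p := by exact_mod_cast hp'.2.pos
            have hpw : (p : ℝ) ≤ (U : ℝ) ^ β := le_trans (by exact_mod_cast hp'.1) hw
            refine ⟨⟨hp'.2.one_lt.le, ?_⟩, hp'.2, ?_⟩
            · have : (p : ℝ) ≤ U := by
                calc (p : ℝ) ≤ (U : ℝ) ^ β := hpw
                  _ ≤ (U : ℝ) ^ (1 : ℝ) := Real.rpow_le_rpow_of_exponent_le (by linarith) (by linarith)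
                  _ = U := Real.rpow_one _
              exact_mod_cast this
            · unfold tt
              rw [div_lt_iff₀ hlU]
              have h8 := Real.log_le_log hp0 hpw
              rw [Real.log_rpow hU0] at h8
              nlinarith
          have := hn.2 p hpz
          intro h9
          exact this ((hdvd n p hpz).2 (by simpa using h9))
  -- lower bound
  have hlow : (U : ℝ) * VV (PZ U ζ) wL (fun p => 1 / (p : ℝ)) - 5 * Real.log U * (U : ℝ) ^ τ' ≤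
      ∑ n ∈ Ioc m (m + U), VV (PZ U ζ) wL (fun p => if p ∣ NN n then 1 else 0) := by
    have e1 : ∑ n ∈ Ioc m (m + U), VV (PZ U ζ) wL (fun p => if p ∣ NN n then 1 else 0) =
        ∑ T ∈ (PZ U ζ).powerset, wL T *
          (((Ioc m (m + U)).filter (fun n => ∀ p ∈ T, n % p = a p % p)).card : ℝ) := by
      simp only [hVV]
      rw [sum_comm]
      refine sum_congr rfl fun T _ => ?_
      rw [← mul_sum, card_filter]
      push_cast
      rfl
    have e2 : (U : ℝ) * VV (PZ U ζ) wL (fun p => 1 / (p : ℝ)) =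
        ∑ T ∈ (PZ U ζ).powerset, wL T * (U / ((∏ p ∈ T, p : ℕ) : ℝ)) := by
      unfold VV
      rw [mul_sum]
      refine sum_congr rfl fun T _ => ?_
      rw [prod_div_distrib, prod_const_one]
      push_cast
      ring
    rw [e1, e2, sub_le_iff_le_add, ← sub_le_iff_le_add', ← sum_sub_distrib]
    calc ∑ T ∈ (PZ U ζ).powerset, (wL T * (U / ((∏ p ∈ T, p : ℕ) : ℝ)) - wL T *
          (((Ioc m (m + U)).filter (fun n => ∀ p ∈ T, n % p = a p % p)).card : ℝ))
        ≤ ∑ T ∈ (PZ U ζ).powerset, (if ((∏ p ∈ T, p : ℕ) : ℝ) ≤ (U : ℝ) ^ τ' then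
            5 * Real.log U else 0) := by
          refine sum_le_sum fun T hT => ?_
          rw [mem_powerset] at hT
          by_cases h0 : wL T = 0
          · rw [h0]; simp only [zero_mul, sub_zero]
            split_ifs <;> positivity
          · rw [if_pos (q2 T hT (Or.inr h0)), ← mul_sub]
            refine (le_abs_self _).trans ?_
            rw [abs_mul, abs_sub_comm]
            calc |wL T| * |(((Ioc m (m + U)).filter (fun n => ∀ p ∈ T, n % p = a p % p)).card : ℝ) -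
                  U / ((∏ p ∈ T, p : ℕ) : ℝ)| ≤ (5 * Real.log U) * 1 := by
                  gcongr
                  · exact (q1 T).2
                  · exact cnt T (fun p hp => hPZ p (hT hp)) a m U
              _ = 5 * Real.log U := mul_one _
      _ = 5 * Real.log U * (((PZ U ζ).powerset.filter (fun T => ((∏ p ∈ T, p : ℕ) : ℝ) ≤ (U : ℝ) ^ τ')).card : ℝ) := by
          rw [← sum_filter, sum_const, nsmul_eq_mul, mul_comm]
      _ ≤ 5 * Real.log U * (U : ℝ) ^ τ' := by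
          gcongr
          exact cardT _ (by positivity) _ hPZ
  have hVU := (hV U (by omega)).1
  have hVpos := Pool.Agent.H532.RM.V_pos U
  have h10 := hY2 U u2
  -- 5 log U * U^τ' ≤ (ε/2) U V U
  have h11 : 5 * Real.log U * (U : ℝ) ^ τ' ≤ ε / 2 * (U * Pool.Agent.H532.RM.V U) := by
    have h12 : c1 / Real.log U ≤ Pool.Agent.H532.RM.V U := by
      rw [div_le_iff₀ hlU]; exact hVU
    have h13 : (U : ℝ) = (U : ℝ) ^ τ' * (U : ℝ) ^ (1 - τ') := by
      rw [← Real.rpow_add hU0]; norm_num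
    have h14 : 10 * Real.log U ^ 2 ≤ ε * c1 * (U : ℝ) ^ (1 - τ') := by
      rw [div_mul_eq_mul_div, div_le_iff₀ (by positivity)] at h10
      linarith
    have h15 : 0 < (U : ℝ) ^ τ' := by positivity
    calc 5 * Real.log U * (U : ℝ) ^ τ' = (U : ℝ) ^ τ' * (10 * Real.log U ^ 2) / (2 * Real.log U) := by
          field_simp; ring
      _ ≤ (U : ℝ) ^ τ' * (ε * c1 * (U : ℝ) ^ (1 - τ')) / (2 * Real.log U) := by gcongr
      _ = ε / 2 * (((U : ℝ) ^ τ' * (U : ℝ) ^ (1 - τ')) * (c1 / Real.log U)) := by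
          field_simp
      _ = ε / 2 * (U * (c1 / Real.log U)) := by rw [← h13]
      _ ≤ ε / 2 * (U * Pool.Agent.H532.RM.V U) := by gcongr
  have h16 : ε * (U * Pool.Agent.H532.RM.V U) ≤ (U : ℝ) * VV (PZ U ζ) wL (fun p => 1 / (p : ℝ)) := by
    calc ε * (U * Pool.Agent.H532.RM.V U) = U * (ε * Pool.Agent.H532.RM.V U) := by ring
      _ ≤ U * (ε * ∏ p ∈ PZ U ζ, (1 - 1 / (p : ℝ))) := by gcongr
      _ ≤ U * VV (PZ U ζ) wL (fun p => 1 / (p : ℝ)) := by gcongr
  linarith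

end Pool.Agent.H565.AC
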