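import Mathlib
import Pool.Agent.H565.AC.Lin
import Pool.Agent.H565.AC.Gf

/-! One interval, one set of changed classes. -/

set_option autoImplicit false

open Finset MeasureTheory Function ProbabilityTheory Filter
open scoped ENNReal Topology

namespace Pool.Agent.H565.AC

open Pool.Agent.H532.RM

/-- the level of the linear sieve -/
noncomputable def wU (α : ℝ) (U : ℕ) : ℕ := ⌊(U : ℝ) ^ ((α + 1 / 2) / 2)⌋₊

/-- the primes above the level -/
noncomputable def PW (α : ℝ) (U Z : ℕ) : Finset ℕ := (primesLe Z).filter (fun p => wU α U < p)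

theorem growth (α : ℝ) (hα0 : 0 < α) (hα : α < 1 / 2) (B : ℝ) (hB : 0 < B) (R : ℝ) :
    ∀ᶠ U : ℕ in atTop, 3 ≤ U ∧ B * ((U : ℝ) ^ α * Real.log U ^ 2) ≤ (U : ℝ) ^ ((α + 1 / 2) / 2) ∧
      B * (((U : ℝ) ^ α) ^ 2 * Real.log U) ≤ U ∧ R ≤ (U : ℝ) ^ ((α + 1 / 2) / 2) ∧
      2 ≤ (U : ℝ) ^ ((α + 1 / 2) / 2 / 2) := by
  have h1 : (fun x : ℝ => Real.log x ^ (2 : ℝ)) =o[atTop] fun x => x ^ ((α + 1 / 2) / 2 - α) :=
    isLittleO_log_rpow_rpow_atTop 2 (by linarith)
  have h2 := h1.bound (show (0 : ℝ) < 1 / B by positivity)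
  have h3 := (isLittleO_log_rpow_atTop (show 0 < 1 - 2 * α by linarith)).bound
    (show (0 : ℝ) < 1 / B by positivity)
  have h4 : ∀ᶠ U : ℕ in atTop, R ≤ (U : ℝ) ^ ((α + 1 / 2) / 2) :=
    ((tendsto_rpow_atTop (by linarith)).comp tendsto_natCast_atTop_atTop).eventually_ge_atTop _
  have h5 : ∀ᶠ U : ℕ in atTop, 2 ≤ (U : ℝ) ^ ((α + 1 / 2) / 2 / 2) :=
    ((tendsto_rpow_atTop (by linarith)).comp tendsto_natCast_atTop_atTop).eventually_ge_atTop _
  filter_upwards [tendsto_natCast_atTop_atTop.eventually h2,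
    tendsto_natCast_atTop_atTop.eventually h3, h4, h5, eventually_ge_atTop 3] with U g2 g3 g4 g5 g6
  have hUr : (3 : ℝ) ≤ U := by exact_mod_cast g6
  have hU0 : (0 : ℝ) < U := by linarith
  have hl := Real.log_nonneg (show (1 : ℝ) ≤ U by linarith)
  rw [Real.norm_of_nonneg (by positivity), Real.norm_of_nonneg (by positivity)] at g2 g3
  have e1 : Real.log (U : ℝ) ^ (2 : ℝ) = Real.log U ^ 2 := by
    rw [← Real.rpow_natCast]; norm_num
  rw [e1] at g2
  refine ⟨g6, ?_, ?_, g4, g5⟩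
  · have e2 : (U : ℝ) ^ ((α + 1 / 2) / 2) = (U : ℝ) ^ α * (U : ℝ) ^ ((α + 1 / 2) / 2 - α) := by
      rw [← Real.rpow_add hU0]; congr 1; ring
    rw [e2]
    calc B * ((U : ℝ) ^ α * Real.log U ^ 2) = (U : ℝ) ^ α * (B * Real.log U ^ 2) := by ring
      _ ≤ (U : ℝ) ^ α * (B * (1 / B * (U : ℝ) ^ ((α + 1 / 2) / 2 - α))) := by gcongr
      _ = _ := by field_simp
  · have e2 : (U : ℝ) = ((U : ℝ) ^ α) ^ 2 * (U : ℝ) ^ (1 - 2 * α) := by
      rw [← Real.rpow_natCast, ← Real.rpow_mul hU0.le, ← Real.rpow_add hU0]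
      have : α * ((2 : ℕ) : ℝ) + (1 - 2 * α) = 1 := by push_cast; ring
      rw [this, Real.rpow_one]
    calc B * (((U : ℝ) ^ α) ^ 2 * Real.log U) = ((U : ℝ) ^ α) ^ 2 * (B * Real.log U) := by ring
      _ ≤ ((U : ℝ) ^ α) ^ 2 * (B * (1 / B * (U : ℝ) ^ (1 - 2 * α))) := by gcongr
      _ = ((U : ℝ) ^ α) ^ 2 * (U : ℝ) ^ (1 - 2 * α) := by field_simp
      _ = U := e2.symm

theorem one (α : ℝ) (hα0 : 0 < α) (hα : α < 1 / 2) : ∃ c3 : ℝ, 0 < c3 ∧ ∃ U1 : ℕ,
    ∀ {Ω : Type} [MeasurableSpace Ω] (μ : Measure Ω) [IsProbabilityMeasure μ] (A : ℕ → Ω → ℕ),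
    RandomClasses μ A → ∀ (j Z : ℕ), 16 ≤ j → 1 ≤ V Z * j → ∀ m U K : ℕ, U1 ≤ U → wU α U ≤ Z →
    (K : ℝ) ≤ (U : ℝ) ^ α → (j : ℝ) ≤ 2 * (U : ℝ) ^ α → ∀ D : Finset ℕ, (∀ p ∈ D, p.Prime) →
    D.card ≤ K → ∀ b : ℕ → ℕ,
    μ {ω | ((surv (OmD {0}) (PW α U Z) (fun p => A p ω)
      (SD D b (wU α U) m U (fun p => A p ω))).card : ℝ) < c3 * (U * V Z)} ≤
      ENNReal.ofReal (2 * Real.exp (-(2 * K * Real.log (U + 1) + 6 * (j + 4)))) ∧
    (16 * (U : ℝ) ^ α ≤ c3 * (U * V Z)) := by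
  classical
  set β : ℝ := (α + 1 / 2) / 2 with hβ
  have hβ0 : 0 < β := by rw [hβ]; linarith
  have hβ2 : β < 1 / 2 := by rw [hβ]; linarith
  obtain ⟨c0, hc0, U0, hlin⟩ := lin β hβ0 hβ2
  obtain ⟨cV, CV, hcV, hCV, hV⟩ := V_two_sided
  obtain ⟨C', hC', hKb⟩ := Kb
  obtain ⟨C0, hC0, ζ0, hup⟩ := upper
  set C : ℝ := max C0 1 with hC
  have hC1 : 1 ≤ C := le_max_right _ _
  set c2 : ℝ := c0 * (cV * β / (2 * CV)) with hc2
  have hc20 : 0 < c2 := by positivity
  set δ : ℝ := min (c2 / 4) 1 with hδ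
  have hδ0 : 0 < δ := lt_min (by positivity) one_pos
  have hδ1 : δ ≤ 1 := min_le_right _ _
  have hδ2 : δ ≤ c2 / 4 := min_le_left _ _
  set B : ℝ := 8 / (c2 * cV) + 5120 * C * C' / (3 / 2 * δ ^ 2) + 2560 * C / (3 / 4 * δ ^ 2) +
    128 / c2 + 1 with hB
  have hB0 : 0 < B := by positivity
  have hBa : 8 / (c2 * cV) ≤ B := by
    have : 0 ≤ 5120 * C * C' / (3 / 2 * δ ^ 2) + 2560 * C / (3 / 4 * δ ^ 2) + 128 / c2 + 1 := by
      positivity
    rw [hB]; linarith
  have hBb : 5120 * C * C' / (3 / 2 * δ ^ 2) ≤ B := by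
    have : 0 ≤ 8 / (c2 * cV) := by positivity
    have : 0 ≤ 2560 * C / (3 / 4 * δ ^ 2) + 128 / c2 + 1 := by positivity
    rw [hB]; linarith
  have hBc : 2560 * C / (3 / 4 * δ ^ 2) ≤ B := by
    have : 0 ≤ 8 / (c2 * cV) + 5120 * C * C' / (3 / 2 * δ ^ 2) := by positivity
    have : 0 ≤ 128 / c2 + 1 := by positivity
    rw [hB]; linarith
  have hBd : 128 / c2 ≤ B := by
    have : 0 ≤ 8 / (c2 * cV) + 5120 * C * C' / (3 / 2 * δ ^ 2) + 2560 * C / (3 / 4 * δ ^ 2) := by
      positivity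
    rw [hB]; linarith
  obtain ⟨U2, hU2⟩ := eventually_atTop.1 (growth α hα0 hα B hB0 (2 * max 4 (ζ0 : ℝ)))
  refine ⟨c2 / 4, by positivity, max U0 U2, ?_⟩
  intro Ω _ μ _ A hA j Z hj hVj m U K hU hwZ hK hjU D hD hDK b
  have hUU0 : U0 ≤ U := (le_max_left _ _).trans hU
  obtain ⟨u3, g1, g2, g3, g4⟩ := hU2 U ((le_max_right _ _).trans hU)
  have hUr : (3 : ℝ) ≤ U := by exact_mod_cast u3
  have hUpos : (0 : ℝ) < U := by linarith
  set L : ℝ := Real.log U with hL
  set X : ℝ := (U : ℝ) ^ α with hX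
  set Y : ℝ := (U : ℝ) ^ β with hY
  have hL1 : 1 ≤ L := by
    rw [hL, Real.le_log_iff_exp_le hUpos]
    have := Real.exp_one_lt_d9
    linarith
  have hX1 : 1 ≤ X := Real.one_le_rpow (by linarith) hα0.le
  have hY0 : 0 < Y := by positivity
  have hζr : (ζ0 : ℝ) ≤ max 4 (ζ0 : ℝ) := le_max_right _ _
  have h4r : (4 : ℝ) ≤ max 4 (ζ0 : ℝ) := le_max_left _ _
  set w : ℕ := wU α U with hw
  have hwY : (w : ℝ) ≤ Y := Nat.floor_le hY0.le
  have hYw : Y / 2 ≤ w := by
    have h1 : Y < w + 1 := Nat.lt_floor_add_one _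
    linarith
  have hw4 : 4 ≤ w := by
    have : (4 : ℝ) ≤ w := by linarith
    exact_mod_cast this
  have hwζ : ζ0 ≤ w := by
    have : (ζ0 : ℝ) ≤ w := by linarith
    exact_mod_cast this
  have hwr : (4 : ℝ) ≤ w := by exact_mod_cast hw4
  have hYU : Y ≤ U := by
    calc Y ≤ (U : ℝ) ^ (1 : ℝ) := Real.rpow_le_rpow_of_exponent_le (by linarith) (by linarith)
      _ = U := Real.rpow_one _
  have hwU : w ≤ U := by
    have : (w : ℝ) ≤ U := hwY.trans hYU
    exact_mod_cast this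
  have hlw : 0 < Real.log w := Real.log_pos (by linarith)
  have hlwL : Real.log w ≤ L := Real.log_le_log (by linarith) (hwY.trans hYU)
  have hlwβ : β / 2 * L ≤ Real.log w := by
    have h1 : (U : ℝ) ^ (β / 2) ≤ w := by
      refine le_trans ?_ hYw
      rw [le_div_iff₀ (by norm_num)]
      have e : Y = (U : ℝ) ^ (β / 2) * (U : ℝ) ^ (β / 2) := by
        rw [hY, ← Real.rpow_add hUpos]; congr 1; ring
      rw [e]
      gcongr
    have h2 := Real.log_le_log (by positivity) h1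
    rwa [Real.log_rpow hUpos] at h2
  have hVU := V_pos U
  have hVw := V_pos w
  have hVZ := V_pos Z
  have v1 : cV / L ≤ V U := by
    rw [div_le_iff₀ (by linarith)]; exact (hV U (by omega)).1
  have hL0' : 0 < L := by linarith
  have v2 : cV / L ≤ V w := by
    rw [div_le_iff₀ hL0']
    exact ((hV w (by omega)).1).trans (mul_le_mul_of_nonneg_left hlwL hVw.le)
  have v3 : V w ≤ 2 * CV / (β * L) := by
    rw [le_div_iff₀ (by positivity)]
    have h2 := (hV w (by omega)).2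
    have h3 : V w * (β / 2 * L) ≤ V w * Real.log w := mul_le_mul_of_nonneg_left hlwβ hVw.le
    have e : V w * (β * L) = 2 * (V w * (β / 2 * L)) := by ring
    rw [e]
    linarith only [h2, h3]
  have v4 : cV * β / (2 * CV) * V w ≤ V U := by
    refine le_trans ?_ v1
    calc cV * β / (2 * CV) * V w ≤ cV * β / (2 * CV) * (2 * CV / (β * L)) := by gcongr
      _ = cV / L := by field_simp
  have hT : ∀ c : ℕ → ℕ, c2 * (U * V w) ≤ (T1 c w m U : ℝ) := by
    intro c
    have h1 := hlin U hUU0 w hwY c m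
    refine le_trans ?_ h1
    calc c2 * (U * V w) = c0 * (U * (cV * β / (2 * CV) * V w)) := by rw [hc2]; ring
      _ ≤ c0 * (U * V U) := by gcongr
  have hTu : ∀ c : ℕ → ℕ, (T1 c w m U : ℝ) ≤ C * (U * V w) := by
    intro c
    have h1 := hup w hwζ U (hwU.trans (Nat.le_self_pow (by norm_num) U)) c m
    refine h1.trans ?_
    have : C0 ≤ C := le_max_left _ _
    gcongr
  have hSDlow : ∀ a : ℕ → ℕ, c2 / 2 * (U * V w) ≤ ((SD D b w m U a).card : ℝ) := by
    intro a
    have h1 := SD_ge D hD b w m U (by omega) a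
    have h2 := hT (fun p => if p ∈ D then b p else a p)
    have h3 : (D.card : ℝ) * ((U : ℝ) / w + 1) ≤ c2 / 2 * (U * V w) := by
      have h4 : (D.card : ℝ) ≤ X := le_trans (by exact_mod_cast hDK) hK
      have h5 : (U : ℝ) / w + 1 ≤ 4 * U / Y := by
        have a1 : (U : ℝ) / w ≤ 2 * U / Y := by
          rw [div_le_div_iff₀ (by linarith) hY0]
          have a3 : Y ≤ 2 * w := by linarith only [hYw]
          calc (U : ℝ) * Y ≤ U * (2 * w) := mul_le_mul_of_nonneg_left a3 hUpos.le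
            _ = 2 * U * w := by ring
        have a2 : 1 ≤ 2 * (U : ℝ) / Y := by
          rw [le_div_iff₀ hY0]; linarith
        have e : 4 * (U : ℝ) / Y = 2 * U / Y + 2 * U / Y := by ring
        rw [e]; linarith
      have h6 : 8 * X * L ≤ c2 * cV * Y := by
        have h7 : 8 / (c2 * cV) * (X * L ^ 2) ≤ Y := by
          refine le_trans ?_ g1
          gcongr
        rw [div_mul_eq_mul_div, div_le_iff₀ (by positivity)] at h7
        have h8 : L ≤ L ^ 2 := le_self_pow₀ hL1 (by norm_num)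
        have h9 : 8 * X * L ≤ 8 * (X * L ^ 2) := by
          have : X * L ≤ X * L ^ 2 := mul_le_mul_of_nonneg_left h8 (by linarith only [hX1])
          linarith only [this]
        linarith only [h7, h9]
      calc (D.card : ℝ) * ((U : ℝ) / w + 1) ≤ X * (4 * U / Y) := by gcongr
        _ = (8 * X * L) * (U / (2 * Y * L)) := by field_simp; ring
        _ ≤ (c2 * cV * Y) * (U / (2 * Y * L)) := by gcongr
        _ = c2 / 2 * (U * (cV / L)) := by field_simp
        _ ≤ c2 / 2 * (U * V w) := by gcongr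
    linarith
  have hSDup : ∀ a : ℕ → ℕ, V Z / V w * ((SD D b w m U a).card : ℝ) ≤ C * (U * V Z) := by
    intro a
    have h1 : ((SD D b w m U a).card : ℝ) ≤ C * (U * V w) := by
      have := SD_le D b w m U a
      exact le_trans (by exact_mod_cast this) (hTu _)
    calc V Z / V w * ((SD D b w m U a).card : ℝ) ≤ V Z / V w * (C * (U * V w)) := by gcongr
      _ = C * (U * V Z) := by field_simp
  -- size of `V Z`
  have hjr : (16 : ℝ) ≤ j := by exact_mod_cast hj
  have hVZj : 1 / (2 * X) ≤ V Z := by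
    rw [div_le_iff₀ (by linarith)]
    calc (1 : ℝ) ≤ V Z * j := hVj
      _ ≤ V Z * (2 * X) := by gcongr
  have hUVZ : U / (2 * X) ≤ U * V Z := by
    calc (U : ℝ) / (2 * X) = U * (1 / (2 * X)) := by ring
      _ ≤ U * V Z := by gcongr
  obtain ⟨k1, k2⟩ := hKb w Z U hw4
  set a0 : ℝ := C' * (U * V Z * (Real.log w / w)) with ha0
  have ha00 : 0 ≤ a0 := by positivity
  set Kh : ℝ := 1 + a0 with hKh
  have hKhpos : 0 < Kh := by rw [hKh]; linarith
  set θ : ℝ := δ / (16 * C * Kh) with hθ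
  have hθ0 : 0 ≤ θ := by positivity
  have hθK : 4 * θ * Kh = δ / (4 * C) := by
    rw [hθ]; field_simp; ring
  have h4θ : 4 * θ * Kh ≤ 1 := by
    rw [hθK, div_le_one (by positivity)]; linarith
  have htail := tailD hA w Z hw4 hwZ m U D b Kh k1 k2 θ hθ0 h4θ (δ * (U * V Z)) (C * (U * V Z)) hSDup
  refine ⟨?_, ?_⟩
  · refine le_trans (measure_mono ?_) (htail.trans (ENNReal.ofReal_le_ofReal ?_))
    · intro ω hω
      simp only [Set.mem_ofPred_eq] at hω ⊢
      have h1 := hSDlow (fun p => A p ω)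
      have h2 : c2 / 2 * (U * V Z) ≤ V Z / V w * ((SD D b w m U (fun p => A p ω)).card : ℝ) := by
        calc c2 / 2 * (U * V Z) = V Z / V w * (c2 / 2 * (U * V w)) := by field_simp
          _ ≤ _ := by gcongr
      have h3 : δ * (U * V Z) ≤ c2 / 4 * (U * V Z) := by gcongr
      rw [le_abs]
      right
      have e : c2 / 2 * (U * V Z) = c2 / 4 * (U * V Z) + c2 / 4 * (U * V Z) := by ring
      have hω' : ((surv (OmD {0}) ((primesLe Z).filter (fun p => w < p)) (fun p => A p ω)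
        (SD D b w m U (fun p => A p ω))).card : ℝ) < c2 / 4 * (U * V Z) := hω
      linarith
    · have hexp : 2 * K * Real.log (U + 1) + 6 * ((j : ℝ) + 4) ≤
          θ * (δ * (U * V Z) - 4 * θ * Kh * (C * (U * V Z))) := by
        have e1 : δ * (U * V Z) - 4 * θ * Kh * (C * (U * V Z)) = 3 / 4 * δ * (U * V Z) := by
          rw [hθK]; field_simp; ring
        rw [e1]
        have e2 : θ * (3 / 4 * δ * (U * V Z)) = 3 * δ ^ 2 * (U * V Z) / (64 * C * Kh) := by
          rw [hθ]; field_simp; ring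
        rw [e2, le_div_iff₀ (by positivity)]
        -- E ≤ 40 X L
        have hE : 2 * K * Real.log (U + 1) + 6 * ((j : ℝ) + 4) ≤ 40 * (X * L) := by
          have h1 : Real.log ((U : ℝ) + 1) ≤ 2 * L := by
            have : (U : ℝ) + 1 ≤ (U : ℝ) ^ 2 := by
              rw [sq]
              calc (U : ℝ) + 1 ≤ 3 * U := by linarith only [hUr]
                _ ≤ U * U := mul_le_mul_of_nonneg_right hUr hUpos.le
            have h2 := Real.log_le_log (by linarith) this
            rw [Real.log_pow] at h2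
            push_cast at h2
            exact h2
          have h0 : 0 ≤ Real.log ((U : ℝ) + 1) := Real.log_nonneg (by linarith)
          have h3 : 2 * (K : ℝ) * Real.log (U + 1) ≤ 2 * X * (2 * L) := by gcongr
          have h4 : 6 * ((j : ℝ) + 4) ≤ 6 * (2 * X + 4) := by gcongr
          have hX0' : 0 ≤ X := by linarith only [hX1]
          have h5 : X ≤ X * L := le_mul_of_one_le_right hX0' hL1
          have h6 : 1 ≤ X * L := hX1.trans h5
          linarith only [h3, h4, h5, h6]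
        have hX0 : 0 < X := by linarith
        have hL0 : 0 < L := by linarith
        have m1 : 40 * (X * L) * (64 * C) ≤ 3 / 2 * δ ^ 2 * (U * V Z) := by
          have h7 : 2560 * C / (3 / 4 * δ ^ 2) * (X ^ 2 * L) ≤ U := by
            refine le_trans ?_ g2
            gcongr
          rw [div_mul_eq_mul_div, div_le_iff₀ (by positivity)] at h7
          calc 40 * (X * L) * (64 * C) = (2560 * C * (X ^ 2 * L)) / X := by field_simp; ring
            _ ≤ (U * (3 / 4 * δ ^ 2)) / X := by gcongr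
            _ = 3 / 2 * δ ^ 2 * (U / (2 * X)) := by field_simp; ring
            _ ≤ 3 / 2 * δ ^ 2 * (U * V Z) := by gcongr
        have m2 : 40 * (X * L) * (64 * C) * a0 ≤ 3 / 2 * δ ^ 2 * (U * V Z) := by
          have h7 : 5120 * C * C' / (3 / 2 * δ ^ 2) * (X * L ^ 2) ≤ Y := by
            refine le_trans ?_ g1
            gcongr
          rw [div_mul_eq_mul_div, div_le_iff₀ (by positivity)] at h7
          have h8 : Real.log w / w ≤ 2 * L / Y := by
            rw [div_le_div_iff₀ (by linarith) hY0]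
            have a3 : Y ≤ 2 * w := by linarith only [hYw]
            calc Real.log w * Y ≤ L * Y := mul_le_mul_of_nonneg_right hlwL hY0.le
              _ ≤ L * (2 * w) := mul_le_mul_of_nonneg_left a3 hL0'.le
              _ = 2 * L * w := by ring
          calc 40 * (X * L) * (64 * C) * a0 ≤
              40 * (X * L) * (64 * C) * (C' * (U * V Z * (2 * L / Y))) := by
                rw [ha0]; gcongr
            _ = (5120 * C * C' * (X * L ^ 2)) / Y * (U * V Z) := by field_simp; ring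
            _ ≤ (Y * (3 / 2 * δ ^ 2)) / Y * (U * V Z) := by gcongr
            _ = 3 / 2 * δ ^ 2 * (U * V Z) := by field_simp
        calc (2 * K * Real.log (U + 1) + 6 * ((j : ℝ) + 4)) * (64 * C * Kh) ≤
            40 * (X * L) * (64 * C * Kh) := by gcongr
          _ = 40 * (X * L) * (64 * C) + 40 * (X * L) * (64 * C) * a0 := by rw [hKh]; ring
          _ ≤ 3 / 2 * δ ^ 2 * (U * V Z) + 3 / 2 * δ ^ 2 * (U * V Z) := add_le_add m1 m2
          _ = 3 * δ ^ 2 * (U * V Z) := by ring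
      gcongr
  · have h7 : 128 / c2 * (X ^ 2 * L) ≤ U := by
      refine le_trans ?_ g2
      gcongr
    rw [div_mul_eq_mul_div, div_le_iff₀ hc20] at h7
    have hX0 : 0 < X := by linarith
    calc 16 * X = (128 * (X ^ 2 * 1)) / (8 * X) := by field_simp; ring
      _ ≤ (128 * (X ^ 2 * L)) / (8 * X) := by gcongr
      _ ≤ (U * c2) / (8 * X) := by gcongr
      _ = c2 / 4 * (U / (2 * X)) := by field_simp; ring
      _ ≤ c2 / 4 * (U * V Z) := by gcongr

end Pool.Agent.H565.AC
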