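import Mathlib
import Pool.Agent.H565.AC.One

/-! All intervals, all sets of changed classes (Borel-Cantelli). -/

set_option autoImplicit false

open Finset MeasureTheory Function ProbabilityTheory Filter
open scoped ENNReal Topology

namespace Pool.Agent.H565.AC

open Pool.Agent.H532.RM

theorem num (j : ℕ) : ((2 : ℝ) ^ (j + 3)) ^ 3 * (2 * Real.exp (-(6 * ((j : ℝ) + 4)))) ≤
    (1 / 2 : ℝ) ^ j := by
  have h1 : Real.exp (-(6 * ((j : ℝ) + 4))) ≤ (1 / 2 : ℝ) ^ (6 * (j + 4)) := by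
    have h4 : Real.exp (-1) ≤ 1 / 2 := by
      rw [Real.exp_neg, ← one_div]
      refine one_div_le_one_div_of_le (by norm_num) ?_
      have h5 := Real.exp_one_gt_d9
      linarith
    calc Real.exp (-(6 * ((j : ℝ) + 4))) = Real.exp (-1) ^ (6 * (j + 4)) := by
          rw [← Real.exp_nat_mul]; congr 1; push_cast; ring
      _ ≤ (1 / 2 : ℝ) ^ (6 * (j + 4)) := by gcongr
  have e1 : (1 / 2 : ℝ) ^ (6 * (j + 4)) = ((1 / 2 : ℝ) ^ (j + 3)) ^ 3 * ((1 / 2) ^ (2 * j + 15) * (1 / 2) ^ j) := by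
    rw [← pow_mul, ← pow_add, ← pow_add]; congr 1; ring
  have e2 : ((2 : ℝ) ^ (j + 3)) ^ 3 * ((1 / 2 : ℝ) ^ (j + 3)) ^ 3 = 1 := by
    rw [← mul_pow, ← mul_pow]; norm_num
  calc ((2 : ℝ) ^ (j + 3)) ^ 3 * (2 * Real.exp (-(6 * ((j : ℝ) + 4))))
      ≤ ((2 : ℝ) ^ (j + 3)) ^ 3 * (2 * (((1 / 2 : ℝ) ^ (j + 3)) ^ 3 * ((1 / 2) ^ (2 * j + 15) * (1 / 2) ^ j))) := by
        rw [← e1]; gcongr
    _ = (((2 : ℝ) ^ (j + 3)) ^ 3 * ((1 / 2 : ℝ) ^ (j + 3)) ^ 3) * ((2 * (1 / 2) ^ (2 * j + 15)) * (1 / 2) ^ j) := by ring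
    _ = (2 * (1 / 2) ^ (2 * j + 15)) * (1 / 2) ^ j := by rw [e2, one_mul]
    _ ≤ 1 * (1 / 2 : ℝ) ^ j := by
        gcongr
        have h2 : (1 / 2 : ℝ) ^ (2 * j + 15) ≤ (1 / 2) ^ 1 :=
          pow_le_pow_of_le_one (by norm_num) (by norm_num) (by omega)
        linarith
    _ = (1 / 2 : ℝ) ^ j := one_mul _

theorem natmul (n : ℕ) (y : ℝ) : ENNReal.ofReal ((n : ℝ) * y) = (n : ℝ≥0∞) * ENNReal.ofReal y := by
  rw [ENNReal.ofReal_mul (by positivity), ENNReal.ofReal_natCast]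

theorem code_sum (U K : ℕ) (x : ℝ) : ((((U + 1) * (U + 1)) ^ K : ℕ) : ℝ) *
    (2 * Real.exp (-(2 * K * Real.log (U + 1) + x))) = 2 * Real.exp (-x) := by
  have h0 : (0 : ℝ) < (U : ℝ) + 1 := by positivity
  have e1 : Real.exp (-(2 * K * Real.log (U + 1) + x)) =
      Real.exp (-(2 * K * Real.log ((U : ℝ) + 1))) * Real.exp (-x) := by
    rw [← Real.exp_add]; congr 1; ring
  have e2 : ((((U + 1) * (U + 1)) ^ K : ℕ) : ℝ) = Real.exp (2 * K * Real.log ((U : ℝ) + 1)) := by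
    have : 2 * (K : ℝ) * Real.log ((U : ℝ) + 1) = ((2 * K : ℕ) : ℝ) * Real.log ((U : ℝ) + 1) := by
      push_cast; ring
    rw [this, Real.exp_nat_mul, Real.exp_log h0]
    push_cast
    rw [pow_mul, sq]
  rw [e1, e2, Real.exp_neg (2 * (K : ℝ) * Real.log ((U : ℝ) + 1))]
  have := Real.exp_pos (2 * (K : ℝ) * Real.log ((U : ℝ) + 1))
  field_simp

/-- the level is below the sieving limit -/
theorem wU_le (α : ℝ) (hα0 : 0 < α) (hα : α < 1 / 2) (Z : ℕ → ℕ)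
    (hZ : Tendsto (fun j : ℕ => V (Z j) * (j * Real.log 2)) atTop (𝓝 1)) :
    ∀ᶠ j : ℕ in atTop, ∀ U < 2 ^ (j + 3), wU α U ≤ Z j := by
  have hL : Tendsto (fun j : ℕ => (j : ℝ) * Real.log 2) atTop atTop :=
    tendsto_natCast_atTop_atTop.atTop_mul_const (Real.log_pos (by norm_num))
  obtain ⟨hZ1, hZ2⟩ := Zbig Z _ hL hZ
  set β : ℝ := (α + 1 / 2) / 2 with hβ
  have hβ0 : 0 < β := by rw [hβ]; linarith
  have hβ2 : β < 1 / 2 := by rw [hβ]; linarith
  obtain ⟨j0, hj0⟩ := exists_nat_ge (3 * β / (1 / 2 - β))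
  filter_upwards [hZ2, hZ1.eventually_ge_atTop 1, eventually_ge_atTop j0] with j h1 h2 h3 U hU
  have hZr : (1 : ℝ) ≤ Z j := by exact_mod_cast h2
  have h4 : (wU α U : ℝ) ≤ (Z j : ℝ) := by
    have h5 : (wU α U : ℝ) ≤ (U : ℝ) ^ β := Nat.floor_le (by positivity)
    refine h5.trans ?_
    have h6 : (U : ℝ) ≤ (2 : ℝ) ^ ((j : ℝ) + 3) := by
      have : (U : ℝ) ≤ (2 : ℝ) ^ (j + 3) := by exact_mod_cast hU.le
      refine this.trans (le_of_eq ?_)
      rw [← Real.rpow_natCast]; push_cast; rfl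
    have h7 : (U : ℝ) ^ β ≤ (2 : ℝ) ^ (((j : ℝ) + 3) * β) := by
      rw [Real.rpow_mul (by norm_num)]
      exact Real.rpow_le_rpow (by positivity) h6 hβ0.le
    refine h7.trans ?_
    have hlog2 : (0 : ℝ) < Real.log 2 := Real.log_pos (by norm_num)
    rw [← Real.log_le_log_iff (by positivity) (by linarith), Real.log_rpow (by norm_num)]
    have h8 : ((j : ℝ) + 3) * β ≤ j / 2 := by
      have h9 : 3 * β / (1 / 2 - β) ≤ j := hj0.trans (by exact_mod_cast h3)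
      rw [div_le_iff₀ (by linarith)] at h9
      linarith
    calc ((j : ℝ) + 3) * β * Real.log 2 ≤ j / 2 * Real.log 2 := by gcongr
      _ = j * Real.log 2 / 2 := by ring
      _ ≤ Real.log (Z j) := h1
  exact_mod_cast h4

theorem blockc (α : ℝ) (hα0 : 0 < α) (hα : α < 1 / 2) : ∃ c : ℝ, 0 < c ∧ ∀ {Ω : Type}
    [MeasurableSpace Ω] (μ : Measure Ω) [IsProbabilityMeasure μ] (A : ℕ → Ω → ℕ),
    RandomClasses μ A → ∀ Z : ℕ → ℕ,
    Tendsto (fun j : ℕ => V (Z j) * (j * Real.log 2)) atTop (𝓝 1) →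
    ∀ᵐ ω ∂μ, ∀ᶠ j : ℕ in atTop, ∀ m : ℕ, m < 2 ^ (j + 3) → ∀ U : ℕ, U < 2 ^ (j + 3) →
      (j : ℝ) ≤ 2 * (U : ℝ) ^ α → ∀ D : Finset ℕ, (∀ p ∈ D, p.Prime) →
      (D.card : ℝ) ≤ (U : ℝ) ^ α → ∀ b : ℕ → ℕ,
      c * (U * V (Z j)) ≤ ((CS D b (fun p => A p ω) (Z j) m U).card : ℝ) := by
  classical
  obtain ⟨c3, hc3, U1, hone⟩ := one α hα0 hα
  refine ⟨c3 / 2, by positivity, ?_⟩
  intro Ω _ μ _ A hA Z hZ
  set N : ℕ → ℕ := fun j => 2 ^ (j + 3) with hN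
  set I : ℕ → Finset (ℕ × ℕ × ℕ) := fun j =>
    (range (N j) ×ˢ range (N j) ×ˢ range (N j)).filter
      (fun q => (q.2.2 : ℝ) ≤ (q.2.1 : ℝ) ^ α ∧ (j : ℝ) ≤ 2 * (q.2.1 : ℝ) ^ α) with hI
  set E : ℕ → (ℕ × ℕ × ℕ) → Set Ω := fun j q =>
    ⋃ g : Fin q.2.2 → Fin (q.2.1 + 1) × Fin (q.2.1 + 1),
      if (Dg q.2.1 g).card ≤ q.2.2 then
      {ω | ((surv (OmD {0}) (PW α q.2.1 (Z j)) (fun p => A p ω)
      (SD (Dg q.2.1 g) (bg g) (wU α q.2.1) q.1 q.2.1 (fun p => A p ω))).card : ℝ) <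
        c3 * (q.2.1 * V (Z j))} else ∅ with hE
  have evU : ∀ᶠ j : ℕ in atTop, ∀ U : ℕ, (j : ℝ) ≤ 2 * (U : ℝ) ^ α → U1 ≤ U := by
    obtain ⟨j1, hj1⟩ := exists_nat_gt (2 * (U1 : ℝ) ^ α)
    filter_upwards [eventually_ge_atTop j1] with j hj U hU
    by_contra hc
    have h1 : (U : ℝ) ^ α ≤ (U1 : ℝ) ^ α :=
      Real.rpow_le_rpow (by positivity) (by exact_mod_cast (not_le.1 hc).le) hα0.le
    have h2 : (j1 : ℝ) ≤ j := by exact_mod_cast hj
    linarith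
  have evV : ∀ᶠ j : ℕ in atTop, 1 ≤ V (Z j) * j := by
    filter_upwards [hZ.eventually (lt_mem_nhds (by norm_num : (0.7 : ℝ) < 1))] with j hj
    have h1 := Real.log_two_lt_d9
    have h2 := (V_pos (Z j)).le
    have h3 : 0 ≤ V (Z j) * j := by positivity
    nlinarith
  have evW := wU_le α hα0 hα Z hZ
  have hmeas : ∀ᶠ j : ℕ in atTop,
      μ (⋃ q ∈ I j, E j q) ≤ ENNReal.ofReal ((1 / 2 : ℝ) ^ j) := by
    filter_upwards [evU, evV, evW, eventually_ge_atTop 16] with j h1 h2 h3 h4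
    have hq : ∀ q ∈ I j, μ (E j q) ≤ ENNReal.ofReal (2 * Real.exp (-(6 * ((j : ℝ) + 4)))) := by
      rintro ⟨m, U, K⟩ hq
      rw [hI, mem_filter, mem_product, mem_product, mem_range, mem_range, mem_range] at hq
      obtain ⟨⟨_, q2, _⟩, q4, q5⟩ := hq
      simp only at q2 q4 q5
      have hg : ∀ g : Fin K → Fin (U + 1) × Fin (U + 1),
          μ (if (Dg U g).card ≤ K then
            {ω | ((surv (OmD {0}) (PW α U (Z j)) (fun p => A p ω)
            (SD (Dg U g) (bg g) (wU α U) m U (fun p => A p ω))).card : ℝ) <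
              c3 * (U * V (Z j))} else ∅) ≤
          ENNReal.ofReal (2 * Real.exp (-(2 * K * Real.log (U + 1) + 6 * ((j : ℝ) + 4)))) := by
        intro g
        split_ifs with hc
        · exact (hone μ A hA j (Z j) h4 h2 m U K (h1 U q5) (h3 U q2) q4 q5 (Dg U g)
            (fun p hp => (mem_primesLe.1 (mem_filter.1 hp).1).2) hc (bg g)).1
        · simp
      calc μ (E j (m, U, K)) ≤ ∑ g : Fin K → Fin (U + 1) × Fin (U + 1),
            μ (if (Dg U g).card ≤ K then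
            {ω | ((surv (OmD {0}) (PW α U (Z j)) (fun p => A p ω)
            (SD (Dg U g) (bg g) (wU α U) m U (fun p => A p ω))).card : ℝ) <
              c3 * (U * V (Z j))} else ∅) := measure_iUnion_fintype_le μ _
        _ ≤ ∑ _g : Fin K → Fin (U + 1) × Fin (U + 1),
            ENNReal.ofReal (2 * Real.exp (-(2 * K * Real.log (U + 1) + 6 * ((j : ℝ) + 4)))) :=
            sum_le_sum fun g _ => hg g
        _ = ENNReal.ofReal (2 * Real.exp (-(6 * ((j : ℝ) + 4)))) := by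
            rw [sum_const, card_univ, Fintype.card_fun, Fintype.card_prod, Fintype.card_fin,
              Fintype.card_fin, nsmul_eq_mul, ← code_sum U K (6 * ((j : ℝ) + 4)), natmul]
    calc μ (⋃ q ∈ I j, E j q) ≤ ∑ q ∈ I j, μ (E j q) := measure_biUnion_finset_le _ _
      _ ≤ ∑ q ∈ I j, ENNReal.ofReal (2 * Real.exp (-(6 * ((j : ℝ) + 4)))) := sum_le_sum hq
      _ ≤ ∑ q ∈ range (N j) ×ˢ range (N j) ×ˢ range (N j),
          ENNReal.ofReal (2 * Real.exp (-(6 * ((j : ℝ) + 4)))) := by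
          gcongr
          exact filter_subset _ _
      _ = ENNReal.ofReal (((2 : ℝ) ^ (j + 3)) ^ 3 * (2 * Real.exp (-(6 * ((j : ℝ) + 4))))) := by
          have e : ((2 : ℝ) ^ (j + 3)) ^ 3 = ((N j * (N j * N j) : ℕ) : ℝ) := by
            rw [hN]; push_cast; ring
          rw [e, natmul, sum_const, card_product, card_product, card_range, nsmul_eq_mul]
      _ ≤ ENNReal.ofReal ((1 / 2 : ℝ) ^ j) := ENNReal.ofReal_le_ofReal (num j)
  have hbc := borel_cantelli_nat μ _ hmeas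
  filter_upwards [hbc, ae_lt hA] with ω hω hlt
  filter_upwards [hω, evU, evV, evW, eventually_ge_atTop 16] with j hj h1 h2 h3 h4
  intro m hm U hU hjU D hD hDK b
  set D' := D.filter (fun p => p ≤ U) with hD'
  have hD'c : (D'.card : ℝ) ≤ (U : ℝ) ^ α := by
    refine le_trans ?_ hDK
    exact_mod_cast card_le_card (filter_subset _ _)
  have hU1 := h1 U hjU
  have hoth := (hone μ A hA j (Z j) h4 h2 m U D'.card hU1 (h3 U hU) hD'c hjU D'
    (fun p hp => hD p (mem_filter.1 hp).1) le_rfl b).2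
  by_cases hU0 : U = 0
  · subst hU0
    simp
  have hUr : (1 : ℝ) ≤ U := by exact_mod_cast Nat.one_le_iff_ne_zero.2 hU0
  have hKN : D'.card < 2 ^ (j + 3) := by
    have h5 : (D'.card : ℝ) ≤ U := by
      refine hD'c.trans ?_
      calc (U : ℝ) ^ α ≤ (U : ℝ) ^ (1 : ℝ) := Real.rpow_le_rpow_of_exponent_le hUr (by linarith)
        _ = U := Real.rpow_one _
    have h6 : D'.card ≤ U := by exact_mod_cast h5
    omega
  obtain ⟨g, hg1, hg2⟩ := exg U D'.card D' (fun p hp =>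
    ⟨hD p (mem_filter.1 hp).1, (mem_filter.1 hp).2⟩) le_rfl b
  have hnot : ¬ ((surv (OmD {0}) (PW α U (Z j)) (fun p => A p ω)
      (SD (Dg U g) (bg g) (wU α U) m U (fun p => A p ω))).card : ℝ) < c3 * (U * V (Z j)) := by
    intro hlt'
    refine hj ?_
    refine Set.mem_biUnion (x := (m, U, D'.card)) ?_ ?_
    · rw [mem_coe, hI, mem_filter, mem_product, mem_product, mem_range, mem_range, mem_range]
      exact ⟨⟨hm, hU, hKN⟩, hD'c, hjU⟩
    · rw [hE, Set.mem_iUnion]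
      refine ⟨g, ?_⟩
      rw [if_pos (by rw [hg1])]
      exact hlt'
  have h5 := CS_ge D hD b (fun p => A p ω) (wU α U) (Z j) m U hlt
  rw [← hD'] at h5
  rw [hg1, SD_congr D' (bg g) b (wU α U) m U (fun p => A p ω) hg2] at hnot
  have h6 : c3 * (U * V (Z j)) ≤ ((surv (OmD {0}) ((primesLe (Z j)).filter (fun p => wU α U < p))
      (fun p => A p ω) (SD D' b (wU α U) m U (fun p => A p ω))).card : ℝ) := not_lt.1 hnot
  have h7 : 0 < V (Z j) := V_pos _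
  linarith

end Pool.Agent.H565.AC
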