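import Mathlib
import Pool.Agent.H565.AC.Gf

/-! Few changed classes suffice to empty some interval. -/

set_option autoImplicit false

open Finset Filter
open scoped Topology

namespace Pool.Agent.H565.AC

open Pool.Agent.H532.RM

/-- the logarithm of the sieving limit -/
theorem Zup (Z : ℕ → ℕ) (L : ℕ → ℝ) (hL : Tendsto L atTop atTop)
    (h : Tendsto (fun j => V (Z j) * L j) atTop (𝓝 1)) :
    ∀ᶠ j in atTop, Real.log (Z j) ≤ L j := by
  have hZ := (Zbig Z L hL h).1
  have h1 := V_log.comp hZ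
  have h2 := h1.div h one_ne_zero
  rw [div_one] at h2
  have hγ : Real.exp (-Real.eulerMascheroniConstant) < 1 := by
    rw [Real.exp_lt_one_iff]
    have := Real.one_half_lt_eulerMascheroniConstant
    linarith
  have h3 := h2.eventually (gt_mem_nhds hγ)
  filter_upwards [h3, hL.eventually_gt_atTop 0] with j h4 h5
  have h6 := V_pos (Z j)
  simp only [Pi.div_apply, Function.comp] at h4
  rw [mul_div_mul_left _ _ h6.ne', div_lt_iff₀ h5] at h4
  linarith

/-- `∏ (1 - x_p) ≥ 1 - ∑ x_p` for the primes in `(B, Z]`. -/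
theorem primes_many (B Z : ℕ) (hB : 1 ≤ B) (hBZ : B ≤ Z) (h : V Z ≤ 1 / 2 * V B) :
    (B : ℝ) / 2 ≤ (((primesLe Z).filter (fun p => B < p)).card : ℝ) := by
  have h1 := V_split hBZ
  have hB0 : (0 : ℝ) < B := by exact_mod_cast hB
  have hV := V_pos B
  set P := (primesLe Z).filter (fun p => B < p) with hP
  have h2 : 1 - ∑ p ∈ P, 1 / (p : ℝ) ≤ ∏ p ∈ P, (1 - 1 / (p : ℝ)) := by
    have := Pool.Agent.H532.RM.V_pos B
    have key : ∀ Q : Finset ℕ, (∀ p ∈ Q, (1 : ℝ) ≤ p) →
        1 - ∑ p ∈ Q, 1 / (p : ℝ) ≤ ∏ p ∈ Q, (1 - 1 / (p : ℝ)) ∧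
        0 ≤ ∏ p ∈ Q, (1 - 1 / (p : ℝ)) ∧ ∏ p ∈ Q, (1 - 1 / (p : ℝ)) ≤ 1 := by
      classical
      intro Q
      induction Q using Finset.induction_on with
      | empty => intro _; simp
      | insert q Q hq ih =>
        intro hQ
        obtain ⟨i1, i2, i3⟩ := ih fun p hp => hQ p (mem_insert_of_mem hp)
        have hq1 := hQ q (mem_insert_self q Q)
        have e1 : 0 ≤ 1 / (q : ℝ) := by positivity
        have e2 : 1 / (q : ℝ) ≤ 1 := by rw [div_le_one (by linarith)]; exact hq1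
        rw [sum_insert hq, prod_insert hq]
        refine ⟨?_, by nlinarith, by nlinarith⟩
        nlinarith
    refine (key P fun p hp => ?_).1
    have := (mem_filter.1 hp).2
    exact_mod_cast (by omega : 1 ≤ p)
  have h3 : ∑ p ∈ P, 1 / (p : ℝ) ≤ P.card / B := by
    calc ∑ p ∈ P, 1 / (p : ℝ) ≤ ∑ _p ∈ P, 1 / (B : ℝ) := by
          refine sum_le_sum fun p hp => ?_
          have := (mem_filter.1 hp).2
          have h4 : (B : ℝ) ≤ p := by exact_mod_cast this.le
          exact one_div_le_one_div_of_le hB0 h4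
      _ = P.card / B := by rw [sum_const, nsmul_eq_mul]; ring
  have h5 : ∏ p ∈ P, (1 - 1 / (p : ℝ)) ≤ 1 / 2 := by
    rw [h1] at h
    nlinarith
  have h6 : (1 : ℝ) / 2 ≤ P.card / B := by linarith
  rw [le_div_iff₀ hB0] at h6
  linarith

theorem T1_add' (c : ℕ → ℕ) (Z m U U' : ℕ) :
    T1 c Z m (U + U') = T1 c Z m U + T1 c Z (m + U) U' := by
  unfold T1
  rw [← card_union_of_disjoint]
  · congr 1
    ext n
    rw [mem_union, mem_T1, mem_T1, mem_T1]
    constructor
    · rintro ⟨⟨h1, h2⟩, h3⟩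
      rcases le_or_gt n (m + U) with h | h
      · exact Or.inl ⟨⟨h1, h⟩, h3⟩
      · exact Or.inr ⟨⟨h, by omega⟩, h3⟩
    · rintro (⟨⟨h1, h2⟩, h3⟩ | ⟨⟨h1, h2⟩, h3⟩)
      · exact ⟨⟨h1, by omega⟩, h3⟩
      · exact ⟨⟨by omega, by omega⟩, h3⟩
  · rw [Finset.disjoint_left]
    intro n h1 h2
    have a1 := (mem_T1.1 h1).1
    have a2 := (mem_T1.1 h2).1
    omega

theorem T1_mul_eq' (c : ℕ → ℕ) (Z m U k : ℕ) :
    T1 c Z m (k * U) = ∑ i ∈ range k, T1 c Z (m + i * U) U := by
  induction k with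
  | zero =>
    have := T1_le c Z m 0
    simp
    omega
  | succ k ih => rw [Nat.succ_mul, T1_add', ih, sum_range_succ]

theorem cheap : ∃ C : ℝ, 0 < C ∧ ∀ z : ℕ → ℕ, Monotone z →
    Tendsto (fun n : ℕ => V (z n) * Real.log n) atTop (𝓝 1) → ∀ᶠ x : ℕ in atTop,
    ∀ a : ℕ → ℕ, ∀ H : ℕ, 1 ≤ H → (H : ℝ) ^ 8 ≤ x →
    ∃ y : ℕ, x ≤ y ∧ y + H ≤ 2 * x ∧ ∃ D : Finset ℕ, (∀ p ∈ D, p.Prime ∧ x < p ^ 8) ∧
      (D.card : ℝ) ≤ C * (H / Real.log x) ∧ ∃ b : ℕ → ℕ, ∀ n, y < n → n ≤ y + H →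
      ∃ p : ℕ, p.Prime ∧ p ≤ z n ∧ n % p = (if p ∈ D then b p else a p) % p := by
  classical
  obtain ⟨C0, hC0, ζ0, hup⟩ := upper
  refine ⟨16 * C0, by positivity, ?_⟩
  intro z hz hlim
  have hLt : Tendsto (fun n : ℕ => Real.log n) atTop atTop :=
    Real.tendsto_log_atTop.comp tendsto_natCast_atTop_atTop
  obtain ⟨hZ1, hZ2⟩ := Zbig z _ hLt hlim
  have hZ3 := Zup z _ hLt hlim
  set r : ℕ → ℕ := fun x => ⌊(x : ℝ) ^ (1 / 8 : ℝ)⌋₊ + 1 with hr
  have hrt : Tendsto (fun x => 16 * r x) atTop atTop := by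
    have h1 : Tendsto (fun x : ℕ => ⌊(x : ℝ) ^ (1 / 8 : ℝ)⌋₊) atTop atTop :=
      tendsto_nat_floor_atTop.comp ((tendsto_rpow_atTop (by norm_num)).comp
        tendsto_natCast_atTop_atTop)
    refine tendsto_atTop_mono (fun x => ?_) h1
    show ⌊(x : ℝ) ^ (1 / 8 : ℝ)⌋₊ ≤ 16 * (⌊(x : ℝ) ^ (1 / 8 : ℝ)⌋₊ + 1)
    omega
  have evB : ∀ᶠ x : ℕ in atTop, 1 / 2 < V (16 * r x) * Real.log ((16 * r x : ℕ) : ℝ) := by
    exact (V_log.comp hrt).eventually (lt_mem_nhds gamma_half)
  have evr : ∀ᶠ x : ℕ in atTop, Real.log ((16 * r x : ℕ) : ℝ) ≤ Real.log x / 5 := by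
    have h1 : ∀ᶠ x : ℕ in atTop, (32 : ℝ) ≤ (x : ℝ) ^ (1 / 5 - 1 / 8 : ℝ) :=
      ((tendsto_rpow_atTop (by norm_num)).comp tendsto_natCast_atTop_atTop).eventually_ge_atTop _
    filter_upwards [h1, eventually_ge_atTop 1] with x hx hx1
    have hxr : (1 : ℝ) ≤ x := by exact_mod_cast hx1
    have hx0 : (0 : ℝ) < x := by linarith
    have h2 : ((16 * r x : ℕ) : ℝ) ≤ (x : ℝ) ^ (1 / 5 : ℝ) := by
      have h3 : (⌊(x : ℝ) ^ (1 / 8 : ℝ)⌋₊ : ℝ) ≤ (x : ℝ) ^ (1 / 8 : ℝ) := Nat.floor_le (by positivity)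
      have h4 : (1 : ℝ) ≤ (x : ℝ) ^ (1 / 8 : ℝ) := Real.one_le_rpow hxr (by norm_num)
      have e : (x : ℝ) ^ (1 / 5 : ℝ) = (x : ℝ) ^ (1 / 8 : ℝ) * (x : ℝ) ^ (1 / 5 - 1 / 8 : ℝ) := by
        rw [← Real.rpow_add hx0]; congr 1; ring
      rw [e, hr]
      push_cast
      nlinarith
    have h5 := Real.log_le_log (by rw [hr]; positivity) h2
    rw [Real.log_rpow hx0] at h5
    linarith
  have evV : ∀ᶠ x : ℕ in atTop, V (z x) * Real.log x ≤ 5 / 4 := by
    filter_upwards [hlim.eventually (gt_mem_nhds (by norm_num : (1 : ℝ) < 5 / 4))] with x hx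
    exact hx.le
  have evx : ∀ᶠ x : ℕ in atTop, (10 : ℝ) ≤ (x : ℝ) ^ (7 / 8 : ℝ) :=
    ((tendsto_rpow_atTop (by norm_num)).comp tendsto_natCast_atTop_atTop).eventually_ge_atTop _
  filter_upwards [hZ1.eventually_ge_atTop (max ζ0 1), hZ2, hZ3, evB, evr, evV, evx,
    hLt.eventually_gt_atTop 0, eventually_ge_atTop 3] with x h1 h2 h3 h4 h5 h6 h7 h8 h9
  intro a H hH1 hH8
  have hxr : (3 : ℝ) ≤ x := by exact_mod_cast h9
  have hx0 : (0 : ℝ) < x := by linarith
  have hHr : (1 : ℝ) ≤ H := by exact_mod_cast hH1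
  set Z := z x with hZ
  have hζZ : ζ0 ≤ Z := (le_max_left _ _).trans h1
  have hZ1' : 1 ≤ Z := (le_max_right _ _).trans h1
  have hZr : (1 : ℝ) ≤ Z := by exact_mod_cast hZ1'
  -- `H ≤ r`
  have hHrx : (H : ℝ) ≤ (x : ℝ) ^ (1 / 8 : ℝ) := by
    have e : (H : ℝ) = ((H : ℝ) ^ 8) ^ (1 / 8 : ℝ) := by
      rw [← Real.rpow_natCast, ← Real.rpow_mul (by positivity)]; norm_num
    rw [e]
    exact Real.rpow_le_rpow (by positivity) hH8 (by norm_num)
  have hHr' : H ≤ r x := by
    have : H ≤ ⌊(x : ℝ) ^ (1 / 8 : ℝ)⌋₊ := Nat.le_floor hHrx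
    show H ≤ ⌊(x : ℝ) ^ (1 / 8 : ℝ)⌋₊ + 1
    omega
  set B := 16 * r x with hB
  have hB16 : 16 * H ≤ B := by rw [hB]; omega
  have hBZ : B ≤ Z := by
    have h10 : Real.log (B : ℝ) ≤ Real.log Z := by
      calc Real.log (B : ℝ) ≤ Real.log x / 5 := h5
        _ ≤ Real.log x / 2 := by linarith
        _ ≤ Real.log Z := h2
    have hB0 : (0 : ℝ) < B := by exact_mod_cast (by omega : 0 < B)
    have := (Real.log_le_log_iff hB0 (by linarith)).1 h10
    exact_mod_cast this
  have hZx : Z ≤ x ^ 2 := by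
    have h10 : (Z : ℝ) ≤ x := (Real.log_le_log_iff (by linarith) hx0).1 h3
    have h11 : Z ≤ x := by exact_mod_cast h10
    nlinarith
  have hBr : (0 : ℝ) < B := by exact_mod_cast (by omega : 0 < B)
  have hVB := V_pos B
  have hVZ := V_pos Z
  have hhalf : V Z ≤ 1 / 2 * V B := by
    have h10 : V Z * Real.log x ≤ 5 / 4 := h6
    have h11 : 1 / 2 < V B * Real.log (B : ℝ) := h4
    have h12 : V B * Real.log (B : ℝ) ≤ V B * (Real.log x / 5) := by gcongr
    have h13 : V Z * Real.log x ≤ 1 / 2 * V B * Real.log x := by nlinarith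
    exact le_of_mul_le_mul_right h13 h8
  have hmany := primes_many B Z (by omega) hBZ hhalf
  set P' := (primesLe Z).filter (fun p => B < p) with hP'
  have hP'pos : (0 : ℝ) < (P'.card : ℝ) := by linarith
  -- the intervals
  set N := x / H with hN
  have hNr : (x : ℝ) / H - 1 < N := by
    rw [hN]
    have h10 : x < H * (x / H + 1) := by
      have h11 := Nat.lt_div_mul_add (a := x) (b := H) (by omega)
      calc x < x / H * H + H := h11
        _ = H * (x / H + 1) := by ring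
    have h11 : (x : ℝ) < H * (((x / H : ℕ) : ℝ) + 1) := by exact_mod_cast h10
    rw [sub_lt_iff_lt_add, div_lt_iff₀ (by linarith)]
    linarith
  have hNx : N * H ≤ x := Nat.div_mul_le_self x H
  set s : ℕ → ℕ := fun k => T1 a Z (x + k * H) H with hs
  set hit : ℕ → Finset ℕ := fun k => P'.filter
    (fun p => ∃ n ∈ Ioc (x + k * H) (x + k * H + H), n % p = a p % p) with hhit
  have hs_sum : ∑ k ∈ range N, (s k : ℝ) ≤ C0 * (x * V Z) := by
    have e1 : T1 a Z x (N * H) = ∑ k ∈ range N, T1 a Z (x + k * H) H := T1_mul_eq' a Z x H N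
    have e2 : T1 a Z x (N * H) ≤ T1 a Z x x := by
      unfold T1 TT
      refine card_le_card (filter_subset_filter _ ?_)
      exact Ioc_subset_Ioc_right (by omega)
    have e3 := hup Z hζZ x hZx a x
    have e4 : ((∑ k ∈ range N, s k : ℕ) : ℝ) ≤ (T1 a Z x x : ℝ) := by
      rw [hs, ← e1]
      exact_mod_cast e2
    push_cast at e4
    exact e4.trans e3
  have hhit_sum : ∑ k ∈ range N, ((hit k).card : ℝ) ≤ P'.card * ((x : ℝ) / B + 1) := by
    have e1 : ∑ k ∈ range N, ((hit k).card : ℝ) =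
        ∑ p ∈ P', (((range N).filter (fun k => ∃ n ∈ Ioc (x + k * H) (x + k * H + H),
          n % p = a p % p)).card : ℝ) := by
      simp only [hhit, card_filter]
      push_cast
      rw [sum_comm]
    rw [e1]
    calc ∑ p ∈ P', (((range N).filter (fun k => ∃ n ∈ Ioc (x + k * H) (x + k * H + H),
          n % p = a p % p)).card : ℝ) ≤ ∑ p ∈ P', ((x : ℝ) / B + 1) := by
          refine sum_le_sum fun p hp => ?_
          obtain ⟨hp1, hp2⟩ := mem_filter.1 hp
          have hpp := (mem_primesLe.1 hp1).2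
          have e2 : ((range N).filter (fun k => ∃ n ∈ Ioc (x + k * H) (x + k * H + H),
              n % p = a p % p)) ⊆ ((Ioc x (x + x)).filter (fun n => (n + 0) % p = a p % p)).image
                (fun n => (n - x - 1) / H) := by
            intro k hk
            obtain ⟨hk1, n, hn, hnp⟩ := mem_filter.1 hk
            have hn' := mem_Ioc.1 hn
            have hk2 := mem_range.1 hk1
            refine mem_image.2 ⟨n, mem_filter.2 ⟨mem_Ioc.2 ⟨by omega, ?_⟩, by simpa using hnp⟩, ?_⟩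
            · have : (k + 1) * H ≤ N * H := Nat.mul_le_mul_right H (by omega)
              have e : (k + 1) * H = k * H + H := by ring
              omega
            · have e : n - x - 1 = k * H + (n - x - 1 - k * H) := by omega
              rw [e, mul_comm k H, Nat.mul_add_div (by omega)]
              have : (n - x - 1 - H * k) / H = 0 := by
                apply Nat.div_eq_of_lt
                have : k * H = H * k := mul_comm _ _
                omega
              omega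
          have e3 := (card_le_card e2).trans card_image_le
          have e4 := card_class_le x x 0 p (a p % p) hpp.pos
          have e5 : (x : ℝ) / p ≤ x / B := by
            have : (B : ℝ) ≤ p := by exact_mod_cast hp2.le
            gcongr
          have e6 : (((range N).filter (fun k => ∃ n ∈ Ioc (x + k * H) (x + k * H + H),
              n % p = a p % p)).card : ℝ) ≤
              (((Ioc x (x + x)).filter (fun n => (n + 0) % p = a p % p)).card : ℝ) := by
            exact_mod_cast e3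
          linarith
      _ = P'.card * ((x : ℝ) / B + 1) := by rw [sum_const, nsmul_eq_mul]
  set S : ℝ := 16 * C0 * (H / Real.log x) with hS
  have hS0 : 0 < S := by positivity
  have hex : ∃ k ∈ range N, (s k : ℝ) / S + 2 * ((hit k).card : ℝ) / P'.card < 1 := by
    refine exists_lt_of_sum_lt ?_
    rw [sum_const, card_range, nsmul_eq_mul, mul_one, sum_add_distrib]
    have e1 : ∑ k ∈ range N, (s k : ℝ) / S ≤ x / (8 * H) := by
      rw [← sum_div, div_le_iff₀ hS0]
      refine hs_sum.trans ?_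
      have e2 : V Z ≤ (5 / 4) / Real.log x := by
        rw [le_div_iff₀ h8]; exact h6
      calc C0 * (x * V Z) ≤ C0 * (x * ((5 / 4) / Real.log x)) := by gcongr
        _ ≤ C0 * (x * (2 / Real.log x)) := by gcongr; norm_num
        _ = x / (8 * H) * S := by rw [hS]; field_simp; ring
    have e3 : ∑ k ∈ range N, 2 * ((hit k).card : ℝ) / P'.card ≤ x / (8 * H) + 2 := by
      rw [← sum_div, ← mul_sum, div_le_iff₀ hP'pos]
      have e4 : (x : ℝ) / B ≤ x / (16 * H) := by
        have : (16 * (H : ℝ)) ≤ B := by exact_mod_cast hB16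
        gcongr
      calc 2 * ∑ k ∈ range N, ((hit k).card : ℝ) ≤ 2 * (P'.card * ((x : ℝ) / B + 1)) := by gcongr
        _ ≤ 2 * (P'.card * ((x : ℝ) / (16 * H) + 1)) := by gcongr
        _ = (x / (8 * H) + 2) * P'.card := by field_simp; ring
    have e5 : (10 : ℝ) ≤ x / H := by
      rw [le_div_iff₀ (by linarith)]
      calc 10 * (H : ℝ) ≤ (x : ℝ) ^ (7 / 8 : ℝ) * (x : ℝ) ^ (1 / 8 : ℝ) := by gcongr
        _ = x := by rw [← Real.rpow_add hx0]; norm_num
    have e6 : (x : ℝ) / (8 * H) = (x / H) / 8 := by field_simp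
    rw [e6] at e1 e3
    linarith
  obtain ⟨k, hk, hklt⟩ := hex
  have hk' := mem_range.1 hk
  have q1 : (s k : ℝ) / S < 1 := by
    have : 0 ≤ 2 * ((hit k).card : ℝ) / P'.card := by positivity
    linarith
  have q2 : 2 * ((hit k).card : ℝ) / P'.card < 1 := by
    have : 0 ≤ (s k : ℝ) / S := by positivity
    linarith
  rw [div_lt_one hS0] at q1
  rw [div_lt_one hP'pos] at q2
  set y := x + k * H with hy
  set Sk := TT {0} a (primesLe Z) y H with hSk
  have hSkc : Sk.card = s k := rfl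
  have hSkH : Sk.card ≤ H := T1_le a Z y H
  have hG : Sk.card ≤ (P' \ hit k).card := by
    have e1 : (hit k) ⊆ P' := filter_subset _ _
    rw [card_sdiff_of_subset e1]
    have e2 : 2 * (hit k).card < P'.card := by exact_mod_cast q2
    have e3 : 8 * H ≤ P'.card := by
      have : (8 : ℝ) * H ≤ P'.card := by
        have e4 : (16 * (H : ℝ)) ≤ B := by exact_mod_cast hB16
        linarith
      exact_mod_cast this
    omega
  obtain ⟨D, hDsub, hDcard⟩ := exists_subset_card_eq hG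
  have e := Finset.equivOfCardEq hDcard
  refine ⟨y, by omega, ?_, D, ?_, ?_, fun p => if h : p ∈ D then (e ⟨p, h⟩ : ℕ) else 0, ?_⟩
  · have : (k + 1) * H ≤ N * H := Nat.mul_le_mul_right H (by omega)
    have e2 : (k + 1) * H = k * H + H := by ring
    omega
  · intro p hp
    have hp' := mem_filter.1 (Finset.mem_sdiff.1 (hDsub hp)).1
    refine ⟨(mem_primesLe.1 hp'.1).2, ?_⟩
    have h10 : r x ≤ p := by
      have := hp'.2
      omega
    have h11 : (x : ℝ) ^ (1 / 8 : ℝ) < p := by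
      have h12 : (x : ℝ) ^ (1 / 8 : ℝ) < ⌊(x : ℝ) ^ (1 / 8 : ℝ)⌋₊ + 1 := Nat.lt_floor_add_one _
      have h13 : ((⌊(x : ℝ) ^ (1 / 8 : ℝ)⌋₊ + 1 : ℕ) : ℝ) ≤ p := by exact_mod_cast h10
      push_cast at h13
      linarith
    have h14 : (x : ℝ) < (p : ℝ) ^ 8 := by
      calc (x : ℝ) = ((x : ℝ) ^ (1 / 8 : ℝ)) ^ 8 := by
            rw [← Real.rpow_natCast, ← Real.rpow_mul (by positivity)]; norm_num
        _ < (p : ℝ) ^ 8 := pow_lt_pow_left₀ h11 (by positivity) (by norm_num)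
    exact_mod_cast h14
  · rw [hDcard, hSkc]
    exact q1.le
  · intro n hn1 hn2
    have hzn : Z ≤ z n := hz (by omega)
    by_cases hn : n ∈ Sk
    · set p := (e.symm ⟨n, hn⟩ : ℕ) with hp
      have hpD : p ∈ D := (e.symm ⟨n, hn⟩).2
      have hpp := mem_primesLe.1 (mem_filter.1 (Finset.mem_sdiff.1 (hDsub hpD)).1).1
      refine ⟨p, hpp.2, hpp.1.trans hzn, ?_⟩
      rw [if_pos hpD]
      simp only [dif_pos hpD]
      have : (⟨p, hpD⟩ : D) = e.symm ⟨n, hn⟩ := by
        apply Subtype.ext; rfl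
      rw [this, Equiv.apply_symm_apply]
    · have h10 : ¬ ∀ p ∈ primesLe Z, n % p ≠ a p % p := by
        intro h11
        exact hn (mem_T1.2 ⟨⟨hn1, hn2⟩, h11⟩)
      push Not at h10
      obtain ⟨p, hp, hpn⟩ := h10
      have hpp := mem_primesLe.1 hp
      refine ⟨p, hpp.2, hpp.1.trans hzn, ?_⟩
      have hpD : p ∉ D := by
        intro hpD
        obtain ⟨h12, h13⟩ := Finset.mem_sdiff.1 (hDsub hpD)
        exact h13 (mem_filter.2 ⟨h12, n, mem_Ioc.2 ⟨hn1, hn2⟩, hpn⟩)
      rw [if_neg hpD]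
      exact hpn

end Pool.Agent.H565.AC
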