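import Mathlib
import Pool.Agent.H565.AC.Bc
import Pool.Agent.H565.AC.Cheap

/-! The main theorems. -/

set_option autoImplicit false

open Finset MeasureTheory Function ProbabilityTheory Filter
open scoped ENNReal Topology

namespace Pool.Agent.H565.AC

open Pool.Agent.H532.RM

/-- The sieve with changed classes. -/
def sv (z : ℕ → ℕ) (D : Finset ℕ) (b a : ℕ → ℕ) : Set ℕ :=
  {n | ∀ p : ℕ, p.Prime → p ≤ z n → ¬ n ≡ (if p ∈ D then b p else a p) [MOD p]}

theorem Zj_lim (z : ℕ → ℕ) (hz : Tendsto (fun n : ℕ => V (z n) * Real.log n) atTop (𝓝 1)) :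
    Tendsto (fun j : ℕ => V (z (2 ^ (j + 2))) * (j * Real.log 2)) atTop (𝓝 1) := by
  have h1 : Tendsto (fun j : ℕ => 2 ^ (j + 2)) atTop atTop := by
    have h2 : Tendsto (fun k : ℕ => 2 ^ k) atTop atTop := tendsto_pow_atTop_atTop_of_one_lt (by norm_num)
    exact h2.comp (tendsto_add_atTop_nat 2)
  have h2 := hz.comp h1
  have h3 : Tendsto (fun j : ℕ => (j : ℝ) / ((j : ℝ) + 2)) atTop (𝓝 1) := by
    have h4 : Tendsto (fun j : ℕ => 1 - 2 / ((j : ℝ) + 2)) atTop (𝓝 (1 - 0)) := by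
      refine tendsto_const_nhds.sub ?_
      refine tendsto_const_nhds.div_atTop ?_
      exact tendsto_atTop_add_const_right _ _ tendsto_natCast_atTop_atTop
    rw [sub_zero] at h4
    refine h4.congr fun j => ?_
    field_simp
    ring
  have h5 := h2.mul h3
  rw [mul_one] at h5
  refine h5.congr fun j => ?_
  simp only [Function.comp]
  have e : Real.log (((2 ^ (j + 2) : ℕ) : ℝ)) = ((j : ℝ) + 2) * Real.log 2 := by
    push_cast
    rw [Real.log_pow]; push_cast; ring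
  rw [e]
  field_simp

theorem fin1 (ε : ℝ) (hε : 0 < ε) : ∃ c : ℝ, 0 < c ∧ ∀ {Ω : Type} [MeasurableSpace Ω]
    (μ : Measure Ω) [IsProbabilityMeasure μ] (A : ℕ → Ω → ℕ), RandomClasses μ A →
    ∀ z : ℕ → ℕ, Monotone z → Tendsto (fun n : ℕ => V (z n) * Real.log n) atTop (𝓝 1) →
    ∀ᵐ ω ∂μ, ∀ᶠ x : ℕ in atTop, ∀ H : ℕ, H ≤ x → ∀ (D : Finset ℕ) (b : ℕ → ℕ),
      ((D.card : ℝ) + Real.log x) ^ (2 + ε) ≤ H →
      c * H / Real.log x ≤
        ({n | n ∈ sv z D b (fun p => A p ω) ∧ x < n ∧ n ≤ x + H}.ncard : ℝ) := by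
  classical
  set α : ℝ := 1 / (2 + ε) with hα
  have hα0 : 0 < α := by positivity
  have hα2 : α < 1 / 2 := one_div_lt_one_div_of_lt (by norm_num) (by linarith)
  obtain ⟨c, hc, hb⟩ := blockc α hα0 hα2
  refine ⟨c / 2, by positivity, ?_⟩
  intro Ω _ μ _ A hA z hz hlim
  have hZ := Zj_lim z hlim
  filter_upwards [hb μ A hA (fun j => z (2 ^ (j + 2))) hZ] with ω hω
  have hV : ∀ᶠ j : ℕ in atTop, 1 / 2 ≤ V (z (2 ^ (j + 2))) * (j * Real.log 2) := by
    filter_upwards [hZ.eventually (lt_mem_nhds (by norm_num : (1 / 2 : ℝ) < 1))] with j hj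
    exact hj.le
  filter_upwards [nlog_tendsto.eventually hω, nlog_tendsto.eventually hV, eventually_ge_atTop 3]
    with x h1 h2 h3
  intro H hH D b hD
  set j := Nat.log 2 x with hj
  have hx1 : 2 ^ j ≤ x := Nat.pow_log_le_self 2 (by omega)
  have hx2 : x < 2 ^ (j + 1) := Nat.lt_pow_succ_log_self (by norm_num) x
  have hxr : (3 : ℝ) ≤ x := by exact_mod_cast h3
  have hlx : 0 < Real.log x := Real.log_pos (by linarith)
  have hlog2 : (0 : ℝ) < Real.log 2 := Real.log_pos (by norm_num)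
  have hjlog : (j : ℝ) * Real.log 2 ≤ Real.log x := by
    rw [← Real.log_pow]
    refine Real.log_le_log (by positivity) ?_
    exact_mod_cast hx1
  have e3 : 2 ^ (j + 3) = 2 * (2 * 2 ^ (j + 1)) := by ring
  have e2 : 2 ^ (j + 2) = 2 * 2 ^ (j + 1) := by ring
  have hsum : (D.card : ℝ) + Real.log x ≤ (H : ℝ) ^ α := by
    have h4 : 0 ≤ (D.card : ℝ) + Real.log x := by positivity
    have e : (((D.card : ℝ) + Real.log x) ^ (2 + ε)) ^ α = (D.card : ℝ) + Real.log x := by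
      have h2ε : (2 + ε) ≠ 0 := by linarith
      rw [← Real.rpow_mul h4, hα, mul_one_div_cancel h2ε, Real.rpow_one]
    have h5 : 0 ≤ ((D.card : ℝ) + Real.log x) ^ (2 + ε) := Real.rpow_nonneg h4 _
    have h6 := Real.rpow_le_rpow h5 hD hα0.le
    rwa [e] at h6
  have hj2 : (j : ℝ) ≤ 2 * (H : ℝ) ^ α := by
    have h4 := Real.log_two_gt_d9
    have h5 : (0 : ℝ) ≤ j := by positivity
    have h6 : (0 : ℝ) ≤ D.card := by positivity
    nlinarith
  have hDc : ((D.filter Nat.Prime).card : ℝ) ≤ (H : ℝ) ^ α := by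
    have h4 : ((D.filter Nat.Prime).card : ℝ) ≤ D.card := by
      exact_mod_cast card_le_card (filter_subset _ _)
    linarith
  have key := h1 x (by omega) H (by omega) hj2 (D.filter Nat.Prime)
    (fun p hp => (mem_filter.1 hp).2) hDc b
  have hsub : ((CS (D.filter Nat.Prime) b (fun p => A p ω) (z (2 ^ (j + 2))) x H : Finset ℕ) : Set ℕ) ⊆
      {n | n ∈ sv z D b (fun p => A p ω) ∧ x < n ∧ n ≤ x + H} := by
    intro n hn
    have hn' := mem_T1.1 (mem_coe.1 hn)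
    refine ⟨?_, hn'.1.1, hn'.1.2⟩
    intro p hp hpz hmod
    have h4 : z n ≤ z (2 ^ (j + 2)) := hz (by omega)
    have h5 := hn'.2 p (mem_primesLe.2 ⟨hpz.trans h4, hp⟩)
    refine h5 ?_
    by_cases hpD : p ∈ D
    · rw [if_pos (mem_filter.2 ⟨hpD, hp⟩)]
      rw [if_pos hpD] at hmod
      exact hmod
    · rw [if_neg (fun h => hpD (mem_filter.1 h).1)]
      rw [if_neg hpD] at hmod
      exact hmod
  have hfin : {n | n ∈ sv z D b (fun p => A p ω) ∧ x < n ∧ n ≤ x + H}.Finite :=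
    (Set.finite_Iic (x + H)).subset fun n hn => hn.2.2
  have hcard : ((CS (D.filter Nat.Prime) b (fun p => A p ω) (z (2 ^ (j + 2))) x H).card : ℝ) ≤
      ({n | n ∈ sv z D b (fun p => A p ω) ∧ x < n ∧ n ≤ x + H}.ncard : ℝ) := by
    have := Set.ncard_le_ncard hsub hfin
    rw [Set.ncard_coe_finset] at this
    exact_mod_cast this
  refine le_trans ?_ (key.trans hcard)
  have hVlow : 1 / (2 * Real.log x) ≤ V (z (2 ^ (j + 2))) := by
    rw [div_le_iff₀ (by positivity)]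
    have h4 := (V_pos (z (2 ^ (j + 2)))).le
    have h5 : V (z (2 ^ (j + 2))) * (j * Real.log 2) ≤ V (z (2 ^ (j + 2))) * Real.log x := by gcongr
    linarith
  calc c / 2 * H / Real.log x = c * (H * (1 / (2 * Real.log x))) := by field_simp
    _ ≤ c * (H * V (z (2 ^ (j + 2)))) := by gcongr

theorem fin2 : ∃ C : ℝ, 0 < C ∧ ∀ z : ℕ → ℕ, Monotone z →
    Tendsto (fun n : ℕ => V (z n) * Real.log n) atTop (𝓝 1) → ∀ᶠ x : ℕ in atTop,
    ∀ (a : ℕ → ℕ) (H : ℕ), 1 ≤ H → (H : ℝ) ^ 8 ≤ x →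
    ∃ y : ℕ, x ≤ y ∧ y + H ≤ 2 * x ∧ ∃ (D : Finset ℕ) (b : ℕ → ℕ),
      (∀ p ∈ D, p.Prime ∧ x < p ^ 8) ∧
      (D.card : ℝ) ≤ C * H / Real.log x ∧ ∀ n, y < n → n ≤ y + H → n ∉ sv z D b a := by
  obtain ⟨C, hC, h⟩ := cheap
  refine ⟨C, hC, fun z hz hlim => ?_⟩
  filter_upwards [h z hz hlim] with x hx a H h1 h2
  obtain ⟨y, y1, y2, D, d1, d2, b, hb⟩ := hx a H h1 h2
  refine ⟨y, y1, y2, D, b, d1, by rw [mul_div_assoc]; exact d2, ?_⟩
  intro n n1 n2 hn
  obtain ⟨p, hp, hpz, hmod⟩ := hb n n1 n2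
  exact hn p hp hpz hmod

end Pool.Agent.H565.AC
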