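import Mathlib
import Pool.Agent.H565.AC.Fin1

/-! The exponent of the largest gap. -/

set_option autoImplicit false

open Finset MeasureTheory Function ProbabilityTheory Filter
open scoped ENNReal Topology

namespace Pool.Agent.H565.AC

open Pool.Agent.H532.RM

theorem logt : Tendsto (fun x : ℕ => Real.log x) atTop atTop :=
  Real.tendsto_log_atTop.comp tendsto_natCast_atTop_atTop

theorem fin3 {Ω : Type} [MeasurableSpace Ω] (μ : Measure Ω) [IsProbabilityMeasure μ]
    (A : ℕ → Ω → ℕ) (hA : RandomClasses μ A) (z : ℕ → ℕ) (hz : Monotone z)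
    (hlim : Tendsto (fun n : ℕ => V (z n) * Real.log n) atTop (𝓝 1)) (k : ℕ → ℕ)
    (hk : Monotone k) :
    (∀ᵐ ω ∂μ, ∀ η : ℝ, 0 < η → ∀ᶠ x : ℕ in atTop, ∀ (D : Finset ℕ) (b : ℕ → ℕ), D.card ≤ k x →
      ∀ H : ℕ, H ≤ x → Real.log x ^ (2 + η) ≤ H →
      ∃ n, x < n ∧ n ≤ x + H ∧ n ∈ sv z D b (fun p => A p ω)) ↔
    ∀ η : ℝ, 0 < η → ∀ᶠ x : ℕ in atTop, (k x : ℝ) ≤ Real.log x ^ (1 + η) := by
  constructor
  · intro h
    by_contra hcon
    push Not at hcon
    obtain ⟨η, hη, hfr⟩ := hcon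
    obtain ⟨ω, hω⟩ := h.exists
    have h2 := hω (η / 2) (by positivity)
    obtain ⟨C, hC, hch⟩ := fin2
    have hch' := hch z hz hlim
    obtain ⟨X0, hX0⟩ := eventually_atTop.1 h2
    set M : ℝ := 2 * 2 ^ (2 + η / 2) with hM
    have hM0 : 0 < M := by positivity
    have ev1 : ∀ᶠ x : ℕ in atTop, (M * Real.log x ^ (2 + η / 2)) ^ 8 ≤ x := by
      have h1 : (fun x : ℝ => Real.log x ^ (8 * (2 + η / 2))) =o[atTop] fun x => x ^ (1 : ℝ) :=
        isLittleO_log_rpow_rpow_atTop _ (by norm_num)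
      have h3 := h1.bound (show (0 : ℝ) < 1 / M ^ 8 by positivity)
      filter_upwards [tendsto_natCast_atTop_atTop.eventually h3, eventually_ge_atTop 1] with x hx hx1
      have hxr : (1 : ℝ) ≤ x := by exact_mod_cast hx1
      have hl := Real.log_nonneg hxr
      rw [Real.norm_of_nonneg (by positivity), Real.norm_of_nonneg (by positivity),
        Real.rpow_one] at hx
      have e : (Real.log (x : ℝ) ^ (2 + η / 2)) ^ 8 = Real.log x ^ (8 * (2 + η / 2)) := by
        rw [← Real.rpow_natCast, ← Real.rpow_mul hl]; congr 1; push_cast; ring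
      rw [mul_pow, e]
      calc M ^ 8 * Real.log (x : ℝ) ^ (8 * (2 + η / 2)) ≤ M ^ 8 * (1 / M ^ 8 * (x : ℝ)) := by gcongr
        _ = (x : ℝ) := by field_simp
    have ev2 : ∀ᶠ x : ℕ in atTop, C * M ≤ Real.log x ^ (η / 2) :=
      ((tendsto_rpow_atTop (by positivity)).comp logt).eventually_ge_atTop _
    obtain ⟨x, hx, hx1, hx2, hx3, hx4, hx5, hx6⟩ := (hfr.and_eventually (hch'.and (ev1.and (ev2.and
      ((logt.eventually_ge_atTop 1).and ((eventually_ge_atTop X0).and
        (eventually_ge_atTop 3))))))).exists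
    have hxr : (3 : ℝ) ≤ x := by exact_mod_cast hx6
    have hl0 : 0 < Real.log x := by linarith
    set H : ℕ := ⌈Real.log (2 * x) ^ (2 + η / 2)⌉₊ with hH
    have hlog2 : Real.log (2 * (x : ℝ)) ≤ 2 * Real.log x := by
      have : 2 * (x : ℝ) ≤ (x : ℝ) ^ 2 := by nlinarith
      have h3 := Real.log_le_log (by linarith) this
      rw [Real.log_pow] at h3
      push_cast at h3
      exact h3
    have hlog0 : 0 ≤ Real.log (2 * (x : ℝ)) := Real.log_nonneg (by linarith)
    have hHup : (H : ℝ) ≤ M * Real.log x ^ (2 + η / 2) := by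
      have h3 : (H : ℝ) < Real.log (2 * x) ^ (2 + η / 2) + 1 := Nat.ceil_lt_add_one (by positivity)
      have h4 : Real.log (2 * (x : ℝ)) ^ (2 + η / 2) ≤ (2 * Real.log x) ^ (2 + η / 2) :=
        Real.rpow_le_rpow hlog0 hlog2 (by positivity)
      have h5 : (1 : ℝ) ≤ (2 * Real.log x) ^ (2 + η / 2) := Real.one_le_rpow (by linarith) (by positivity)
      have h6 : (2 * Real.log (x : ℝ)) ^ (2 + η / 2) = 2 ^ (2 + η / 2) * Real.log x ^ (2 + η / 2) :=
        Real.mul_rpow (by norm_num) hl0.le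
      rw [hM]
      rw [h6] at h4 h5
      linarith
    have hH1 : 1 ≤ H := by
      rw [hH, Nat.one_le_ceil_iff]
      have : 0 < Real.log (2 * (x : ℝ)) := Real.log_pos (by linarith)
      positivity
    have hHr : (1 : ℝ) ≤ H := by exact_mod_cast hH1
    have hH8 : (H : ℝ) ^ 8 ≤ x := by
      refine le_trans ?_ hx2
      gcongr
    obtain ⟨y, y1, y2, D, b, _, d2, hb⟩ := hx1 (fun p => A p ω) H hH1 hH8
    have hHx : H ≤ x := by
      have : (H : ℝ) ≤ x := by
        refine le_trans ?_ hH8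
        calc (H : ℝ) = H ^ 1 := (pow_one _).symm
          _ ≤ (H : ℝ) ^ 8 := pow_le_pow_right₀ hHr (by norm_num)
      exact_mod_cast this
    have hDk : D.card ≤ k y := by
      have h3 : (D.card : ℝ) ≤ Real.log x ^ (1 + η) := by
        refine d2.trans ?_
        calc C * H / Real.log x ≤ C * (M * Real.log x ^ (2 + η / 2)) / Real.log x := by gcongr
          _ = (C * M) * Real.log x ^ (1 + η / 2) := by
              have : Real.log (x : ℝ) ^ (2 + η / 2) = Real.log x ^ (1 + η / 2) * Real.log x := by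
                rw [← Real.rpow_add_one hl0.ne']; congr 1; ring
              rw [this]; field_simp
          _ ≤ Real.log x ^ (η / 2) * Real.log x ^ (1 + η / 2) := by gcongr
          _ = Real.log x ^ (1 + η) := by rw [← Real.rpow_add hl0]; congr 1; ring
      have h4 : (D.card : ℝ) < k x := lt_of_le_of_lt h3 hx
      have h5 : D.card < k x := by exact_mod_cast h4
      exact h5.le.trans (hk y1)
    have hyr : (x : ℝ) ≤ y := by exact_mod_cast y1
    have hy2 : (y : ℝ) ≤ 2 * x := by exact_mod_cast (by omega : y ≤ 2 * x)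
    obtain ⟨n, n1, n2, n3⟩ := hX0 y (by omega) D b hDk H (by omega) (by
      refine le_trans ?_ (Nat.le_ceil _)
      refine Real.rpow_le_rpow (Real.log_nonneg (by linarith)) ?_ (by positivity)
      exact Real.log_le_log (by linarith) hy2)
    exact hb n n1 n2 n3
  · intro hk'
    have hall : ∀ n : ℕ, ∀ᵐ ω ∂μ, ∃ c : ℝ, 0 < c ∧ ∀ᶠ x : ℕ in atTop, ∀ H : ℕ, H ≤ x →
        ∀ (D : Finset ℕ) (b : ℕ → ℕ), ((D.card : ℝ) + Real.log x) ^ (2 + 1 / ((n : ℝ) + 1)) ≤ H →
        c * H / Real.log x ≤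
        ({m | m ∈ sv z D b (fun p => A p ω) ∧ x < m ∧ m ≤ x + H}.ncard : ℝ) := by
      intro n
      obtain ⟨c, hc, h⟩ := fin1 (1 / ((n : ℝ) + 1)) (by positivity)
      filter_upwards [h μ A hA z hz hlim] with ω hω
      exact ⟨c, hc, hω⟩
    filter_upwards [ae_all_iff.2 hall] with ω hω
    intro η hη
    obtain ⟨n, hn⟩ := exists_nat_one_div_lt (show 0 < min (η / 4) 1 by positivity)
    obtain ⟨c, hc, hev⟩ := hω n
    set ε : ℝ := 1 / ((n : ℝ) + 1) with hε
    have hε0 : 0 < ε := by positivity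
    have hε1 : ε ≤ η / 4 := (hn.trans_le (min_le_left _ _)).le
    have hε2 : ε ≤ 1 := (hn.trans_le (min_le_right _ _)).le
    have ev1 : ∀ᶠ x : ℕ in atTop, 8 ≤ Real.log x ^ (3 * η / 8) :=
      ((tendsto_rpow_atTop (by positivity)).comp logt).eventually_ge_atTop _
    filter_upwards [hev, hk' (η / 8) (by positivity), ev1, logt.eventually_ge_atTop 1]
      with x h1 h2 h3 h4 D b hD H hHx hH
    have hl0 : 0 < Real.log x := by linarith
    have hDr : (D.card : ℝ) ≤ Real.log x ^ (1 + η / 8) := le_trans (by exact_mod_cast hD) h2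
    have h5 : Real.log (x : ℝ) ≤ Real.log x ^ (1 + η / 8) := by
      calc Real.log (x : ℝ) = Real.log x ^ (1 : ℝ) := (Real.rpow_one _).symm
        _ ≤ Real.log x ^ (1 + η / 8) := Real.rpow_le_rpow_of_exponent_le h4 (by linarith)
    have h6 : ((D.card : ℝ) + Real.log x) ^ (2 + ε) ≤ H := by
      refine le_trans ?_ hH
      calc ((D.card : ℝ) + Real.log x) ^ (2 + ε) ≤ (2 * Real.log x ^ (1 + η / 8)) ^ (2 + ε) := by
            refine Real.rpow_le_rpow (by positivity) (by linarith) (by positivity)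
        _ = 2 ^ (2 + ε) * Real.log x ^ ((1 + η / 8) * (2 + ε)) := by
            rw [Real.mul_rpow (by norm_num) (by positivity), ← Real.rpow_mul hl0.le]
        _ ≤ 8 * Real.log x ^ (2 + 5 * η / 8) := by
            have h7 : (2 : ℝ) ^ (2 + ε) ≤ 8 := by
              calc (2 : ℝ) ^ (2 + ε) ≤ 2 ^ (3 : ℝ) :=
                    Real.rpow_le_rpow_of_exponent_le (by norm_num) (by linarith)
                _ = 8 := by norm_num
            have h8 : Real.log (x : ℝ) ^ ((1 + η / 8) * (2 + ε)) ≤ Real.log x ^ (2 + 5 * η / 8) := by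
              refine Real.rpow_le_rpow_of_exponent_le h4 ?_
              nlinarith
            gcongr
        _ ≤ Real.log x ^ (3 * η / 8) * Real.log x ^ (2 + 5 * η / 8) := by gcongr
        _ = Real.log x ^ (2 + η) := by rw [← Real.rpow_add hl0]; congr 1; ring
    have h7 := h1 H hHx D b h6
    have hH0 : (0 : ℝ) < H := lt_of_lt_of_le (by positivity) hH
    have h8 : (0 : ℝ) < ({m | m ∈ sv z D b (fun p => A p ω) ∧ x < m ∧ m ≤ x + H}.ncard : ℝ) :=
      lt_of_lt_of_le (by positivity) h7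
    have h9 : {m | m ∈ sv z D b (fun p => A p ω) ∧ x < m ∧ m ≤ x + H}.ncard ≠ 0 := by
      intro h
      rw [h] at h8
      simp at h8
    obtain ⟨m, m1, m2, m3⟩ := Set.nonempty_of_ncard_ne_zero h9
    exact ⟨m, m2, m3, m1⟩

end Pool.Agent.H565.AC
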