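import Mathlib
import Pool.Agent.H565.AC.Bc
import Pool.Agent.H565.AC.Cheap

/-! The probability that many elements of a given set survive. -/

set_option autoImplicit false

open Finset MeasureTheory Function ProbabilityTheory Filter
open scoped ENNReal Topology

namespace Pool.Agent.H565.AC

open Pool.Agent.H532.RM

variable {Ω : Type} [MeasurableSpace Ω] {μ : Measure Ω} [IsProbabilityMeasure μ] {A : ℕ → Ω → ℕ}

theorem prob_one (hA : RandomClasses μ A) (p : ℕ) (hp : p.Prime) (m U : ℕ) (hU : U < p)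
    (F : Finset ℕ) (hF : ∀ n ∈ F, m < n ∧ n ≤ m + U) :
    μ (A p ⁻¹' {r | ∀ n ∈ F, n % p ≠ r}) ≤ ENNReal.ofReal ((1 - 1 / (p : ℝ)) ^ F.card) := by
  classical
  have hp0 : (0 : ℝ) < p := by exact_mod_cast hp.pos
  have hp1 : (1 : ℝ) ≤ p := by exact_mod_cast hp.one_le
  set s : Set Ω := A p ⁻¹' {r | ∀ n ∈ F, n % p ≠ r} with hs
  have hms : MeasurableSet s := hA.meas p (MeasurableSet.of_discrete)
  set R := F.image (fun n => n % p) with hR
  have hRc : R.card = F.card := by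
    refine card_image_of_injOn ?_
    intro x hx y hy hxy
    have h1 := hF x hx
    have h2 := hF y hy
    simp only at hxy
    have h3 : x ≡ y [MOD p] := hxy
    rcases le_total x y with h | h
    · have h4 := (Nat.modEq_iff_dvd' h).1 h3
      have h5 := Nat.eq_zero_of_dvd_of_lt h4 (by omega)
      omega
    · have h4 := (Nat.modEq_iff_dvd' h).1 h3.symm
      have h5 := Nat.eq_zero_of_dvd_of_lt h4 (by omega)
      omega
  have hcompl : sᶜ = ⋃ r ∈ R, {ω | A p ω = r} := by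
    ext ω
    rw [hs, Set.mem_compl_iff, Set.mem_preimage, Set.mem_iUnion₂]
    constructor
    · intro h
      have h' : ¬ ∀ n ∈ F, n % p ≠ A p ω := h
      push Not at h'
      obtain ⟨n, hn, hnp⟩ := h'
      exact ⟨n % p, mem_image_of_mem _ hn, hnp.symm⟩
    · rintro ⟨r, hr, hω⟩ h
      obtain ⟨n, hn, hnr⟩ := mem_image.1 hr
      exact h n hn (by rw [hnr]; exact hω.symm)
  have hμc : μ sᶜ = (F.card : ℝ≥0∞) * (p : ℝ≥0∞)⁻¹ := by
    rw [hcompl, measure_biUnion_finset]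
    · rw [sum_congr rfl fun r hr => hA.unif p hp r ?_, sum_const, hRc, nsmul_eq_mul]
      obtain ⟨n, _, hnr⟩ := mem_image.1 hr
      rw [← hnr]
      exact Nat.mod_lt _ hp.pos
    · intro r _ r' _ hrr
      refine Set.disjoint_left.2 fun ω h1 h2 => hrr ?_
      have h1' : A p ω = r := h1
      have h2' : A p ω = r' := h2
      rw [← h1', ← h2']
    · intro r _
      exact hA.meas p (MeasurableSet.singleton r)
  have hsum := prob_add_prob_compl (μ := μ) hms
  have hreal : (μ s).toReal = 1 - F.card / p := by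
    have h1 := congrArg ENNReal.toReal hsum
    rw [ENNReal.toReal_add (measure_ne_top _ _) (measure_ne_top _ _), ENNReal.toReal_one, hμc,
      ENNReal.toReal_mul, ENNReal.toReal_inv, ENNReal.toReal_natCast, ENNReal.toReal_natCast] at h1
    rw [div_eq_mul_inv]
    linarith
  rw [← ENNReal.ofReal_toReal (measure_ne_top μ s), hreal]
  refine ENNReal.ofReal_le_ofReal ?_
  have h2 := one_add_mul_le_pow (a := -(1 / (p : ℝ))) (by
    have : 1 / (p : ℝ) ≤ 1 := by rw [div_le_one hp0]; exact hp1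
    linarith) F.card
  calc 1 - (F.card : ℝ) / p = 1 + F.card * -(1 / (p : ℝ)) := by ring
    _ ≤ (1 + -(1 / (p : ℝ))) ^ F.card := h2
    _ = (1 - 1 / (p : ℝ)) ^ F.card := by ring

theorem prob_all (hA : RandomClasses μ A) (P : Finset ℕ) (m U : ℕ)
    (hP : ∀ p ∈ P, p.Prime ∧ U < p) (F : Finset ℕ) (hF : ∀ n ∈ F, m < n ∧ n ≤ m + U) :
    μ {ω | ∀ n ∈ F, ∀ p ∈ P, n % p ≠ A p ω} ≤
      ENNReal.ofReal ((∏ p ∈ P, (1 - 1 / (p : ℝ))) ^ F.card) := by
  classical
  have hinj : Injective (fun i : P => (⟨i.1, (hP i.1 i.2).1⟩ : Nat.Primes)) := by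
    intro i j hij
    have h := congrArg (fun q : Nat.Primes => (q : ℕ)) hij
    exact Subtype.ext h
  have hind : iIndepFun (fun i : P => A i) μ := hA.indep.precomp hinj
  have heq : {ω | ∀ n ∈ F, ∀ p ∈ P, n % p ≠ A p ω} =
      ⋂ i ∈ (univ : Finset P), (A i) ⁻¹' {r | ∀ n ∈ F, n % (i : ℕ) ≠ r} := by
    ext ω
    simp only [Set.mem_iInter]
    constructor
    · intro h i _ n hn
      exact h n hn i i.2
    · intro h n hn p hp
      exact h ⟨p, hp⟩ (mem_univ _) n hn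
  rw [heq, hind.measure_inter_preimage_eq_mul univ (fun i _ => MeasurableSet.of_discrete)]
  calc ∏ i ∈ (univ : Finset P), μ ((A i) ⁻¹' {r | ∀ n ∈ F, n % (i : ℕ) ≠ r})
      ≤ ∏ i ∈ (univ : Finset P), ENNReal.ofReal ((1 - 1 / ((i : ℕ) : ℝ)) ^ F.card) := by
        refine prod_le_prod' fun i _ => ?_
        exact prob_one hA i (hP i i.2).1 m U (hP i i.2).2 F hF
    _ = ∏ p ∈ P, ENNReal.ofReal ((1 - 1 / (p : ℝ)) ^ F.card) := by
        exact prod_coe_sort P (fun p : ℕ => ENNReal.ofReal ((1 - 1 / (p : ℝ)) ^ F.card))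
    _ = ENNReal.ofReal ((∏ p ∈ P, (1 - 1 / (p : ℝ))) ^ F.card) := by
        rw [← ENNReal.ofReal_prod_of_nonneg, prod_pow]
        intro p hp
        have hp1 : (1 : ℝ) ≤ p := by exact_mod_cast (hP p hp).1.one_le
        have : 1 / (p : ℝ) ≤ 1 := by rw [div_le_one (by linarith)]; exact hp1
        have h2 : 0 ≤ 1 - 1 / (p : ℝ) := by linarith
        positivity

theorem prob_many (hA : RandomClasses μ A) (P : Finset ℕ) (m U : ℕ)
    (hP : ∀ p ∈ P, p.Prime ∧ U < p) (T : Finset ℕ) (hT : ∀ n ∈ T, m < n ∧ n ≤ m + U) (t : ℕ) :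
    μ {ω | t ≤ (T.filter (fun n => ∀ p ∈ P, n % p ≠ A p ω)).card} ≤
      ENNReal.ofReal ((T.card.choose t : ℝ) * (∏ p ∈ P, (1 - 1 / (p : ℝ))) ^ t) := by
  classical
  have hsub : {ω | t ≤ (T.filter (fun n => ∀ p ∈ P, n % p ≠ A p ω)).card} ⊆
      ⋃ F ∈ T.powersetCard t, {ω | ∀ n ∈ F, ∀ p ∈ P, n % p ≠ A p ω} := by
    intro ω hω
    have hω' : t ≤ (T.filter (fun n => ∀ p ∈ P, n % p ≠ A p ω)).card := hω
    obtain ⟨F, hF, hFc⟩ := exists_subset_card_eq hω'
    refine Set.mem_biUnion (x := F) ?_ ?_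
    · rw [mem_coe, mem_powersetCard]
      exact ⟨hF.trans (filter_subset _ _), hFc⟩
    · intro n hn
      exact (mem_filter.1 (hF hn)).2
  calc μ {ω | t ≤ (T.filter (fun n => ∀ p ∈ P, n % p ≠ A p ω)).card}
      ≤ μ (⋃ F ∈ T.powersetCard t, {ω | ∀ n ∈ F, ∀ p ∈ P, n % p ≠ A p ω}) := measure_mono hsub
    _ ≤ ∑ F ∈ T.powersetCard t, μ {ω | ∀ n ∈ F, ∀ p ∈ P, n % p ≠ A p ω} :=
        measure_biUnion_finset_le _ _
    _ ≤ ∑ _F ∈ T.powersetCard t, ENNReal.ofReal ((∏ p ∈ P, (1 - 1 / (p : ℝ))) ^ t) := by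
        refine sum_le_sum fun F hF => ?_
        obtain ⟨h1, h2⟩ := mem_powersetCard.1 hF
        have := prob_all hA P m U hP F fun n hn => hT n (h1 hn)
        rwa [h2] at this
    _ = ENNReal.ofReal ((T.card.choose t : ℝ) * (∏ p ∈ P, (1 - 1 / (p : ℝ))) ^ t) := by
        rw [sum_const, card_powersetCard, nsmul_eq_mul, natmul]

theorem choose_bd (n t : ℕ) (v ρ : ℝ) (hv : 0 ≤ v) (ht : 1 ≤ t)
    (h : Real.exp 1 * n * v ≤ ρ * t) : (n.choose t : ℝ) * v ^ t ≤ ρ ^ t := by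
  have htr : (1 : ℝ) ≤ t := by exact_mod_cast ht
  have ht0 : (0 : ℝ) < t := by linarith
  have h1 : (n.choose t : ℝ) ≤ (n : ℝ) ^ t / (t.factorial : ℝ) := Nat.choose_le_pow_div t n
  have h2 := Real.pow_div_factorial_le_exp (t : ℝ) ht0.le t
  have hf : (0 : ℝ) < (t.factorial : ℝ) := by exact_mod_cast Nat.factorial_pos t
  have h3 : 1 / (t.factorial : ℝ) ≤ (Real.exp 1 / t) ^ t := by
    rw [div_pow, ← Real.exp_nat_mul, mul_one, div_le_div_iff₀ hf (by positivity)]
    rw [div_le_iff₀ hf] at h2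
    linarith
  calc (n.choose t : ℝ) * v ^ t ≤ ((n : ℝ) ^ t / (t.factorial : ℝ)) * v ^ t := by gcongr
    _ = (n : ℝ) ^ t * (1 / (t.factorial : ℝ)) * v ^ t := by ring
    _ ≤ (n : ℝ) ^ t * (Real.exp 1 / t) ^ t * v ^ t := by gcongr
    _ = (Real.exp 1 * n * v / t) ^ t := by rw [← mul_pow, ← mul_pow]; congr 1; ring
    _ ≤ ρ ^ t := by
        refine pow_le_pow_left₀ (by positivity) ?_ t
        rw [div_le_iff₀ ht0]
        exact h

/-- the elements removed by the classes of `D` -/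
def TD (D : Finset ℕ) (b : ℕ → ℕ) (m U : ℕ) : Finset ℕ :=
  (Ioc m (m + U)).filter (fun n => ∃ p ∈ D, n % p = b p % p)

theorem TD_card (D : Finset ℕ) (b : ℕ → ℕ) (m U w : ℕ) (hw : 0 < w)
    (hD : ∀ p ∈ D, p.Prime ∧ w ≤ p) :
    ((TD D b m U).card : ℝ) ≤ D.card * ((U : ℝ) / w + 1) := by
  classical
  have hwr : (0 : ℝ) < w := by exact_mod_cast hw
  have hsub : TD D b m U ⊆ D.biUnion
      (fun p => (Ioc m (m + U)).filter (fun n => (n + 0) % p = b p % p)) := by
    intro n hn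
    obtain ⟨h1, p, hp, h2⟩ := mem_filter.1 hn
    exact mem_biUnion.2 ⟨p, hp, mem_filter.2 ⟨h1, by simpa using h2⟩⟩
  calc ((TD D b m U).card : ℝ) ≤ ((D.biUnion
        (fun p => (Ioc m (m + U)).filter (fun n => (n + 0) % p = b p % p))).card : ℝ) := by
        exact_mod_cast card_le_card hsub
    _ ≤ ∑ p ∈ D, (((Ioc m (m + U)).filter (fun n => (n + 0) % p = b p % p)).card : ℝ) := by
        exact_mod_cast card_biUnion_le
    _ ≤ ∑ _p ∈ D, ((U : ℝ) / w + 1) := by
        refine sum_le_sum fun p hp => ?_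
        have h1 := card_class_le m U 0 p (b p % p) (hD p hp).1.pos
        have h2 : (w : ℝ) ≤ p := by exact_mod_cast (hD p hp).2
        have h3 : (U : ℝ) / p ≤ U / w := by gcongr
        linarith
    _ = D.card * ((U : ℝ) / w + 1) := by rw [sum_const, nsmul_eq_mul]

end Pool.Agent.H565.AC
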