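import Mathlib
import Pool.Agent.H565.AC.Sh1

/-! Many changed classes at large primes: one interval, one set of changed classes. -/

set_option autoImplicit false

open Finset MeasureTheory Function ProbabilityTheory Filter
open scoped ENNReal Topology

namespace Pool.Agent.H565.AC

open Pool.Agent.H532.RM

theorem growth3 (δ : ℝ) (hδ : 0 < δ) (B : ℝ) (hB : 0 < B) :
    ∀ᶠ n : ℕ in atTop, 16 ≤ n ∧ B * Real.log n ≤ (n : ℝ) ^ (δ / 2) ∧ 2 ≤ (n : ℝ) ^ δ := by
  have h2 := (isLittleO_log_rpow_atTop (show (0 : ℝ) < δ / 2 by positivity)).bound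
    (show (0 : ℝ) < 1 / B by positivity)
  have h5 : ∀ᶠ n : ℕ in atTop, 2 ≤ (n : ℝ) ^ δ :=
    ((tendsto_rpow_atTop hδ).comp tendsto_natCast_atTop_atTop).eventually_ge_atTop _
  filter_upwards [tendsto_natCast_atTop_atTop.eventually h2, h5, eventually_ge_atTop 16]
    with n g2 g5 g6
  have hnr : (16 : ℝ) ≤ n := by exact_mod_cast g6
  have hl := Real.log_nonneg (show (1 : ℝ) ≤ n by linarith)
  rw [Real.norm_of_nonneg hl, Real.norm_of_nonneg (by positivity)] at g2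
  refine ⟨g6, ?_, g5⟩
  calc B * Real.log (n : ℝ) ≤ B * (1 / B * (n : ℝ) ^ (δ / 2)) := by gcongr
    _ = (n : ℝ) ^ (δ / 2) := by field_simp

/-- the level above which many classes may be changed -/
noncomputable def wN (δ : ℝ) (n : ℕ) : ℕ := ⌊(n : ℝ) ^ (1 + δ)⌋₊

/-- the probability that an integer survives the primes in `(U, Z]` -/
noncomputable def vv (U Z : ℕ) : ℝ :=
  ∏ p ∈ (primesLe Z).filter (fun p => U < p), (1 - 1 / (p : ℝ))

theorem vv_nonneg (U Z : ℕ) : 0 ≤ vv U Z := by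
  refine prod_nonneg fun p hp => ?_
  have hp1 : (1 : ℝ) ≤ p := by exact_mod_cast (mem_primesLe.1 (mem_filter.1 hp).1).2.one_le
  have : 1 / (p : ℝ) ≤ 1 := by rw [div_le_one (by linarith)]; exact hp1
  linarith

/-- arithmetic of the exponents -/
theorem ar1 (η δ C e' U X Y L j v T t K : ℝ) (hη : 0 < η) (hC : 0 < C) (he : 0 < e')
    (hU : 0 < U) (hX : 0 < X) (hY : 0 < Y) (hj : 0 < j) (hv : 0 ≤ v) (hXY : X = Y * Y)
    (h1 : 12 * e' * C / η * L ≤ Y) (h2 : v * j ≤ C * (3 * L)) (h3 : T ≤ 4 * U / X)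
    (h4 : η * (U / j) ≤ t) : e' * T * v ≤ 1 / Y * t := by
  have h5 : v ≤ C * (3 * L) / j := by rw [le_div_iff₀ hj]; exact h2
  have h6 : 12 * e' * C * L ≤ η * Y := by
    have := mul_le_mul_of_nonneg_left h1 hη.le
    calc 12 * e' * C * L = η * (12 * e' * C / η * L) := by field_simp
      _ ≤ η * Y := this
  calc e' * T * v ≤ e' * (4 * U / X) * (C * (3 * L) / j) := by gcongr
    _ = (12 * e' * C * L) * (U / (X * j)) := by field_simp; ring
    _ ≤ (η * Y) * (U / (X * j)) := by gcongr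
    _ = 1 / Y * (η * (U / j)) := by rw [hXY]; field_simp
    _ ≤ 1 / Y * t := by gcongr

theorem sharp1 (η δ C : ℝ) (hη : 0 < η) (hδ : 0 < δ) (hδ1 : δ ≤ 1) (hC : 0 < C) :
    ∃ κ : ℝ, 0 < κ ∧ κ ≤ η / 8 ∧ ∃ M : ℝ, 0 < M ∧ ∃ N1 : ℕ,
    ∀ {Ω : Type} [MeasurableSpace Ω] (μ : Measure Ω) [IsProbabilityMeasure μ] (A : ℕ → Ω → ℕ),
    RandomClasses μ A → ∀ (j Z m U K : ℕ), 1 ≤ j → N1 ≤ K + j → U ≤ (K + j) ^ 3 →
    vv U Z * j ≤ C * Real.log U → (K : ℝ) ≤ κ * (U / j) → M * j ≤ (U : ℝ) / j →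
    ∀ D : Finset ℕ, (∀ p ∈ D, p.Prime ∧ wN δ (K + j) < p) → D.card ≤ K → ∀ b : ℕ → ℕ,
    μ {ω | η * ((U : ℝ) / j) ≤ (((TD D b m U).filter (fun n =>
      ∀ p ∈ (primesLe Z).filter (fun p => U < p), n % p ≠ A p ω)).card : ℝ)} ≤
      ENNReal.ofReal (Real.exp (-(2 * K * Real.log (U + 1) + 6 * ((j : ℝ) + 4)))) := by
  classical
  set κ : ℝ := min (η / 8) (δ * η / 32) with hκ
  have hκ0 : 0 < κ := lt_min (by positivity) (by positivity)
  have hκ1 : κ ≤ η / 8 := min_le_left _ _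
  have hκ2 : κ ≤ δ * η / 32 := min_le_right _ _
  set M : ℝ := 120 / (δ * η) with hM
  have hM0 : 0 < M := by positivity
  obtain ⟨N2, hN2⟩ := eventually_atTop.1 (growth3 δ hδ (12 * Real.exp 1 * C / η) (by positivity))
  refine ⟨κ, hκ0, hκ1, M, hM0, N2, ?_⟩
  intro Ω _ μ _ A hA j Z m U K hj hN hUn hv hKU hMU D hD hDK b
  obtain ⟨n16, g1, g3⟩ := hN2 (K + j) hN
  set n : ℕ := K + j with hn
  set w : ℕ := wN δ n with hw
  have hnr : (16 : ℝ) ≤ n := by exact_mod_cast n16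
  have hn0 : (0 : ℝ) < n := by linarith only [hnr]
  set L : ℝ := Real.log n with hL
  have hL1 : 1 ≤ L := by
    rw [hL, Real.le_log_iff_exp_le hn0]
    have := Real.exp_one_lt_d9
    linarith only [this, hnr]
  have hL0 : 0 < L := by linarith only [hL1]
  set X : ℝ := (n : ℝ) ^ δ with hX
  set Y : ℝ := (n : ℝ) ^ (δ / 2) with hY
  have hX0 : 0 < X := by positivity
  have hY0 : 0 < Y := by positivity
  have hXY : X = Y * Y := by
    rw [hX, hY, ← Real.rpow_add hn0]; congr 1; ring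
  have hW : (n : ℝ) ^ (1 + δ) = n * X := by rw [Real.rpow_add hn0, Real.rpow_one]
  have hnX0 : 0 < (n : ℝ) * X := by positivity
  have hYw : n * X / 2 ≤ w := by
    have h1 : (n : ℝ) ^ (1 + δ) < w + 1 := Nat.lt_floor_add_one _
    rw [hW] at h1
    have h2 : 2 ≤ (n : ℝ) * X := by
      calc (2 : ℝ) = 1 * 2 := by norm_num
        _ ≤ n * X := by
          apply mul_le_mul _ g3 (by norm_num) hn0.le
          linarith only [hnr]
    linarith only [h1, h2]
  have hw0 : (0 : ℝ) < w := by linarith only [hYw, hnX0]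
  have hw0' : 0 < w := by exact_mod_cast hw0
  have hjr : (1 : ℝ) ≤ j := by exact_mod_cast hj
  have hj0 : (0 : ℝ) < j := by linarith only [hjr]
  have hUj0 : 0 < (U : ℝ) / j := lt_of_lt_of_le (by positivity) hMU
  have hUpos : (0 : ℝ) < U := by
    by_contra h
    have : (U : ℝ) = 0 := le_antisymm (not_lt.1 h) (Nat.cast_nonneg _)
    rw [this, zero_div] at hUj0
    exact lt_irrefl _ hUj0
  have hU1 : (1 : ℝ) ≤ U := by exact_mod_cast Nat.one_le_iff_ne_zero.2 (by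
    intro h; rw [h] at hUpos; simp at hUpos)
  have hU3 : (U : ℝ) ≤ (n : ℝ) ^ 3 := by exact_mod_cast hUn
  have hlU : Real.log U ≤ 3 * L := by
    have h1 := Real.log_le_log hUpos hU3
    rw [Real.log_pow] at h1
    exact_mod_cast h1
  have hlU1 : Real.log ((U : ℝ) + 1) ≤ 4 * L := by
    have h2 : (U : ℝ) + 1 ≤ (n : ℝ) ^ 4 := by
      have h4 : (1 : ℝ) ≤ (n : ℝ) ^ 3 := one_le_pow₀ (by linarith only [hnr])
      calc (U : ℝ) + 1 ≤ 2 * (n : ℝ) ^ 3 := by linarith only [hU3, h4]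
        _ ≤ n * (n : ℝ) ^ 3 := mul_le_mul_of_nonneg_right (by linarith only [hnr]) (by positivity)
        _ = (n : ℝ) ^ 4 := by ring
    have h5 := Real.log_le_log (by positivity) h2
    rw [Real.log_pow] at h5
    exact_mod_cast h5
  set t : ℕ := ⌈η * ((U : ℝ) / j)⌉₊ with ht
  have htr : η * ((U : ℝ) / j) ≤ t := Nat.le_ceil _
  have ht1 : 1 ≤ t := Nat.one_le_iff_ne_zero.2 (by
    have : 0 < t := Nat.ceil_pos.2 (by positivity)
    omega)
  set T := TD D b m U with hT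
  set P := (primesLe Z).filter (fun p => U < p) with hP
  have hmono : μ {ω | η * ((U : ℝ) / j) ≤ ((T.filter (fun n => ∀ p ∈ P, n % p ≠ A p ω)).card : ℝ)} ≤
      μ {ω | t ≤ (T.filter (fun n => ∀ p ∈ P, n % p ≠ A p ω)).card} := by
    refine measure_mono fun ω hω => ?_
    exact Nat.ceil_le.2 hω
  refine hmono.trans ?_
  refine (prob_many hA P m U (fun p hp => ⟨(mem_primesLe.1 (mem_filter.1 hp).1).2,
    (mem_filter.1 hp).2⟩) T (fun n hn => mem_Ioc.1 (mem_filter.1 hn).1) t).trans ?_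
  refine ENNReal.ofReal_le_ofReal ?_
  rcases lt_or_ge T.card t with hTt | hTt
  · rw [Nat.choose_eq_zero_of_lt hTt, Nat.cast_zero, zero_mul]
    exact (Real.exp_pos _).le
  have hTc := TD_card D b m U w hw0' (fun p hp => ⟨(hD p hp).1, (hD p hp).2.le⟩)
  rw [← hT] at hTc
  have hDKr : (D.card : ℝ) ≤ K := by exact_mod_cast hDK
  have hKn : (K : ℝ) ≤ n := by exact_mod_cast (by omega : K ≤ n)
  have hTt' : (t : ℝ) ≤ T.card := by exact_mod_cast hTt
  have hKt : 8 * (K : ℝ) ≤ t := by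
    have h1 : κ * ((U : ℝ) / j) ≤ η / 8 * (U / j) := by gcongr
    linarith only [h1, hKU, htr]
  have hTU : (T.card : ℝ) ≤ 4 * U / X := by
    have h1 : (T.card : ℝ) ≤ K * ((U : ℝ) / w) + K := by
      calc (T.card : ℝ) ≤ D.card * ((U : ℝ) / w + 1) := hTc
        _ ≤ K * ((U : ℝ) / w + 1) := by gcongr
        _ = K * ((U : ℝ) / w) + K := by ring
    have h2 : (K : ℝ) * ((U : ℝ) / w) ≤ 2 * U / X := by
      have h3 : (U : ℝ) / w ≤ 2 * U / (n * X) := by
        rw [div_le_div_iff₀ hw0 hnX0]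
        have : (n : ℝ) * X ≤ 2 * w := by linarith only [hYw]
        calc (U : ℝ) * (n * X) ≤ U * (2 * w) := mul_le_mul_of_nonneg_left this hUpos.le
          _ = 2 * U * w := by ring
      calc (K : ℝ) * ((U : ℝ) / w) ≤ n * (2 * U / (n * X)) := by gcongr
        _ = 2 * U / X := by field_simp
    have h3 : 4 * (U : ℝ) / X = 2 * (2 * U / X) := by ring
    rw [h3]
    linarith only [h1, h2, hKt, hTt']
  have har := ar1 η δ C (Real.exp 1) U X Y L j (vv U Z) T.card t K hη hC (Real.exp_pos 1) hUpos hX0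
    hY0 hj0 (vv_nonneg U Z) hXY g1 (hv.trans (by gcongr)) hTU htr
  have hch := choose_bd T.card t (vv U Z) (1 / Y) (vv_nonneg U Z) ht1 har
  refine hch.trans ?_
  have hYexp : 1 / Y = Real.exp (-(δ / 2 * L)) := by
    rw [hY, Real.rpow_def_of_pos hn0, Real.exp_neg, one_div]
    congr 2
    ring
  rw [hYexp, ← Real.exp_nat_mul]
  refine Real.exp_le_exp.2 ?_
  have hK2 : 2 * (K : ℝ) * Real.log (U + 1) ≤ δ * η / 4 * (U / j) * L := by
    calc 2 * (K : ℝ) * Real.log (U + 1) ≤ 2 * K * (4 * L) := by gcongr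
      _ = 8 * K * L := by ring
      _ ≤ 8 * (δ * η / 32 * (U / j)) * L := by
          have : (K : ℝ) ≤ δ * η / 32 * (U / j) := by
            refine hKU.trans ?_
            gcongr
          gcongr
      _ = δ * η / 4 * (U / j) * L := by ring
  have hj4 : 6 * ((j : ℝ) + 4) ≤ δ * η / 4 * (U / j) * L := by
    calc 6 * ((j : ℝ) + 4) ≤ 30 * j := by linarith only [hjr]
      _ = δ * η / 4 * (M * j) := by rw [hM]; field_simp; norm_num
      _ ≤ δ * η / 4 * (U / j) := by gcongr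
      _ ≤ δ * η / 4 * (U / j) * L := by
          have : 0 ≤ δ * η / 4 * ((U : ℝ) / j) := by positivity
          calc δ * η / 4 * ((U : ℝ) / j) = δ * η / 4 * (U / j) * 1 := by ring
            _ ≤ δ * η / 4 * (U / j) * L := by gcongr
  have htL : δ / 2 * L * (η * (U / j)) ≤ δ / 2 * L * t := by gcongr
  have e1 : δ / 2 * L * (η * (U / j)) = δ * η / 4 * (U / j) * L + δ * η / 4 * (U / j) * L := by ring
  have e2 : (t : ℝ) * -(δ / 2 * L) = -(δ / 2 * L * t) := by ring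
  rw [e2]
  linarith only [hK2, hj4, htL, e1]

end Pool.Agent.H565.AC
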