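import Mathlib
import Pool.Agent.H565.AC.Sh2

/-! Few changed classes at small primes, many at large ones: all intervals, all sets of changed
classes. -/

set_option autoImplicit false

open Finset MeasureTheory Function ProbabilityTheory Filter
open scoped ENNReal Topology

namespace Pool.Agent.H565.AC

open Pool.Agent.H532.RM

theorem growU (α : ℝ) (hα0 : 0 < α) (hα : α < 1 / 2) (M : ℝ) (hM : 0 < M) :
    ∀ᶠ j : ℕ in atTop, ∀ U : ℕ, (j : ℝ) ≤ 2 * (U : ℝ) ^ α → M * j ≤ (U : ℝ) / j := by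
  set γ : ℝ := 1 / α - 2 with hγ
  have hγ0 : 0 < γ := by
    have : 2 < 1 / α := by
      rw [lt_div_iff₀ hα0]; linarith
    linarith
  have h1 : Tendsto (fun j : ℕ => (j : ℝ) / 2) atTop atTop :=
    tendsto_natCast_atTop_atTop.atTop_div_const (by norm_num)
  filter_upwards [((tendsto_rpow_atTop hγ0).comp h1).eventually_ge_atTop (4 * M),
    eventually_ge_atTop 1] with j g1 g2 U hU
  have hjr : (1 : ℝ) ≤ j := by exact_mod_cast g2
  have hj0 : (0 : ℝ) < j := by linarith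
  simp only [Function.comp] at g1
  rw [le_div_iff₀ hj0]
  have h2 : ((j : ℝ) / 2) ^ (1 / α) ≤ U := by
    have h3 : (j : ℝ) / 2 ≤ (U : ℝ) ^ α := by linarith
    have h4 := Real.rpow_le_rpow (by positivity) h3 (show 0 ≤ 1 / α by positivity)
    rwa [← Real.rpow_mul (by positivity), mul_one_div_cancel hα0.ne', Real.rpow_one] at h4
  have e1 : ((j : ℝ) / 2) ^ (1 / α) = ((j : ℝ) / 2) ^ γ * ((j : ℝ) / 2) ^ 2 := by
    rw [← Real.rpow_two, ← Real.rpow_add (by positivity)]; congr 1; rw [hγ]; ring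
  rw [e1] at h2
  calc M * j * j = (4 * M) * ((j : ℝ) / 2) ^ 2 := by ring
    _ ≤ ((j : ℝ) / 2) ^ γ * ((j : ℝ) / 2) ^ 2 := by gcongr
    _ ≤ U := h2

theorem vv_le : ∃ C : ℝ, 0 < C ∧ ∀ Z : ℕ → ℕ,
    Tendsto (fun j : ℕ => V (Z j) * (j * Real.log 2)) atTop (𝓝 1) →
    ∀ᶠ j : ℕ in atTop, ∀ U : ℕ, 2 ≤ U → vv U (Z j) * j ≤ C * Real.log U := by
  obtain ⟨cV, CV, hcV, hCV, hV⟩ := V_two_sided
  refine ⟨4 / cV + 4, by positivity, fun Z hZ => ?_⟩
  have hL : Tendsto (fun j : ℕ => (j : ℝ) * Real.log 2) atTop atTop :=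
    tendsto_natCast_atTop_atTop.atTop_mul_const (Real.log_pos (by norm_num))
  obtain ⟨hZt, hZb⟩ := Zbig Z _ hL hZ
  filter_upwards [hZ.eventually (gt_mem_nhds (by norm_num : (1 : ℝ) < 2)), hZb,
    hZt.eventually_ge_atTop 1] with j g1 g2 g3 U hU
  have hlog2 : (1 / 2 : ℝ) ≤ Real.log 2 := by
    have := Real.log_two_gt_d9
    linarith
  have hUr : (2 : ℝ) ≤ U := by exact_mod_cast hU
  have hlU : 0 < Real.log U := Real.log_pos (by linarith)
  have hj0 : (0 : ℝ) ≤ j := Nat.cast_nonneg _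
  have hVZ := V_pos (Z j)
  rcases le_or_gt U (Z j) with h | h
  · have hs := V_split h
    have hVU := V_pos U
    have h1 : V (Z j) * j ≤ 4 := by
      have : V (Z j) * j * (1 / 2) ≤ V (Z j) * (j * Real.log 2) := by
        calc V (Z j) * j * (1 / 2) = V (Z j) * (j * (1 / 2)) := by ring
          _ ≤ V (Z j) * (j * Real.log 2) := by gcongr
      linarith
    have h2 : V U * (vv U (Z j) * j) ≤ 4 := by
      have e1 : V U * (vv U (Z j) * j) = V (Z j) * j := by rw [hs]; unfold vv; ring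
      rw [e1]; exact h1
    have h3 := (hV U hU).1
    have h4 : 0 ≤ vv U (Z j) * j := mul_nonneg (vv_nonneg _ _) hj0
    have h5 : vv U (Z j) * j * cV ≤ 4 * Real.log U := by
      calc vv U (Z j) * j * cV ≤ vv U (Z j) * j * (V U * Real.log U) := by gcongr
        _ = (V U * (vv U (Z j) * j)) * Real.log U := by ring
        _ ≤ 4 * Real.log U := by gcongr
    have h6 : vv U (Z j) * j ≤ 4 / cV * Real.log U := by
      rw [div_mul_eq_mul_div, le_div_iff₀ hcV]; exact h5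
    linarith
  · have hempty : (primesLe (Z j)).filter (fun p => U < p) = ∅ := by
      refine filter_eq_empty_iff.2 fun p hp => ?_
      have := (mem_primesLe.1 hp).1
      omega
    have h1 : vv U (Z j) = 1 := by unfold vv; rw [hempty, prod_empty]
    have hZr : (1 : ℝ) ≤ Z j := by exact_mod_cast g3
    have h2 : Real.log (Z j) ≤ Real.log U :=
      Real.log_le_log (by linarith) (by exact_mod_cast h.le)
    have h3 : (j : ℝ) * (1 / 2) ≤ j * Real.log 2 := by gcongr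
    have h4 : 0 ≤ 4 / cV * Real.log U := by positivity
    rw [h1, one_mul]
    linarith

theorem TD_congr (D : Finset ℕ) (b b' : ℕ → ℕ) (m U : ℕ) (h : ∀ p ∈ D, b p % p = b' p % p) :
    TD D b m U = TD D b' m U := by
  unfold TD
  refine filter_congr fun n _ => ?_
  constructor
  · rintro ⟨p, hp, h1⟩
    exact ⟨p, hp, by rw [h1, h p hp]⟩
  · rintro ⟨p, hp, h1⟩
    exact ⟨p, hp, by rw [h1, h p hp]⟩

theorem blocks (α δ : ℝ) (hα0 : 0 < α) (hα2 : α < 1 / 2) (hδ : 0 < δ) (hδ1 : δ ≤ 1) :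
    ∃ κ : ℝ, 0 < κ ∧ ∃ c : ℝ, 0 < c ∧
    ∀ {Ω : Type} [MeasurableSpace Ω] (μ : Measure Ω) [IsProbabilityMeasure μ] (A : ℕ → Ω → ℕ),
    RandomClasses μ A → ∀ Z : ℕ → ℕ,
    Tendsto (fun j : ℕ => V (Z j) * (j * Real.log 2)) atTop (𝓝 1) →
    ∀ᵐ ω ∂μ, ∀ᶠ j : ℕ in atTop, ∀ m : ℕ, m < 2 ^ (j + 3) → ∀ U : ℕ, U < 2 ^ (j + 3) →
      (j : ℝ) ≤ 2 * (U : ℝ) ^ α → ∀ K : ℕ, K < 2 ^ (j + 3) →
      (K : ℝ) ≤ κ * (U / j) → U ≤ (K + j) ^ 3 →
      ∀ D : Finset ℕ, (∀ p ∈ D, p.Prime) → D.card ≤ K →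
      ((D.filter (fun p => p ≤ wN δ (K + j))).card : ℝ) ≤ (U : ℝ) ^ α →
      ∀ b : ℕ → ℕ, c * (U * V (Z j)) ≤ ((CS D b (fun p => A p ω) (Z j) m U).card : ℝ) := by
  classical
  obtain ⟨cb, hcb, hblock⟩ := blockc α hα0 hα2
  obtain ⟨C, hC, hvv'⟩ := vv_le
  set η : ℝ := cb / 4 with hη
  have hη0 : 0 < η := by positivity
  obtain ⟨κ, hκ0, hκ1, M, hM0, N1, hsh⟩ := sharp1 η δ C hη0 hδ hδ1 hC
  refine ⟨κ, hκ0, cb / 2, by positivity, ?_⟩
  intro Ω _ μ _ A hA Z hZ
  have hvv := hvv' Z hZ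
  set N : ℕ → ℕ := fun j => 2 ^ (j + 3) with hN
  set I : ℕ → Finset (ℕ × ℕ × ℕ) := fun j =>
    (range (N j) ×ˢ range (N j) ×ˢ range (N j)).filter
      (fun q => (j : ℝ) ≤ 2 * (q.2.1 : ℝ) ^ α ∧ (q.2.2 : ℝ) ≤ κ * (q.2.1 / j) ∧
        q.2.1 ≤ (q.2.2 + j) ^ 3) with hI
  set E : ℕ → (ℕ × ℕ × ℕ) → Set Ω := fun j q =>
    ⋃ g : Fin q.2.2 → Fin (q.2.1 + 1) × Fin (q.2.1 + 1),
      if (∀ p ∈ Dg q.2.1 g, p.Prime ∧ wN δ (q.2.2 + j) < p) ∧ (Dg q.2.1 g).card ≤ q.2.2 then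
      {ω | η * ((q.2.1 : ℝ) / j) ≤ (((TD (Dg q.2.1 g) (bg g) q.1 q.2.1).filter (fun n =>
        ∀ p ∈ (primesLe (Z j)).filter (fun p => q.2.1 < p), n % p ≠ A p ω)).card : ℝ)}
      else ∅ with hE
  have evV : ∀ᶠ j : ℕ in atTop, 1 ≤ V (Z j) * j := by
    filter_upwards [hZ.eventually (lt_mem_nhds (by norm_num : (0.7 : ℝ) < 1))] with j hj
    have h1 := Real.log_two_lt_d9
    have h2 := (V_pos (Z j)).le
    have h3 : 0 ≤ V (Z j) * j := by positivity
    nlinarith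
  have evU := growU α hα0 hα2 M hM0
  have evU2 := growU α hα0 hα2 2 (by norm_num)
  have hU2 : ∀ j U : ℕ, 1 ≤ j → 2 * (j : ℝ) ≤ (U : ℝ) / j → 2 ≤ U := by
    intro j U hj h
    have hjr : (1 : ℝ) ≤ j := by exact_mod_cast hj
    rw [le_div_iff₀ (by linarith)] at h
    have : (2 : ℝ) ≤ U := by nlinarith
    exact_mod_cast this
  have hmeas : ∀ᶠ j : ℕ in atTop,
      μ (⋃ q ∈ I j, E j q) ≤ ENNReal.ofReal ((1 / 2 : ℝ) ^ j) := by
    filter_upwards [evU, evU2, hvv, eventually_ge_atTop 1, eventually_ge_atTop N1]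
      with j h1 h2 h3 h4 h5
    have hq : ∀ q ∈ I j, μ (E j q) ≤ ENNReal.ofReal (2 * Real.exp (-(6 * ((j : ℝ) + 4)))) := by
      rintro ⟨m, U, K⟩ hq
      rw [hI, mem_filter] at hq
      obtain ⟨_, q3, q4, q5⟩ := hq
      simp only at q3 q4 q5
      have hUU := hU2 j U h4 (h2 U q3)
      have hg : ∀ g : Fin K → Fin (U + 1) × Fin (U + 1),
          μ (if (∀ p ∈ Dg U g, p.Prime ∧ wN δ (K + j) < p) ∧ (Dg U g).card ≤ K then
            {ω | η * ((U : ℝ) / j) ≤ (((TD (Dg U g) (bg g) m U).filter (fun n =>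
              ∀ p ∈ (primesLe (Z j)).filter (fun p => U < p), n % p ≠ A p ω)).card : ℝ)}
            else ∅) ≤
          ENNReal.ofReal (2 * Real.exp (-(2 * K * Real.log (U + 1) + 6 * ((j : ℝ) + 4)))) := by
        intro g
        split_ifs with hc
        · refine (hsh μ A hA j (Z j) m U K h4 (by omega) q5 (h3 U hUU) q4 (h1 U q3) (Dg U g)
            hc.1 hc.2 (bg g)).trans (ENNReal.ofReal_le_ofReal ?_)
          have := Real.exp_pos (-(2 * K * Real.log (U + 1) + 6 * ((j : ℝ) + 4)))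
          linarith only [this]
        · simp
      calc μ (E j (m, U, K)) ≤ ∑ g : Fin K → Fin (U + 1) × Fin (U + 1),
            μ (if (∀ p ∈ Dg U g, p.Prime ∧ wN δ (K + j) < p) ∧ (Dg U g).card ≤ K then
            {ω | η * ((U : ℝ) / j) ≤ (((TD (Dg U g) (bg g) m U).filter (fun n =>
              ∀ p ∈ (primesLe (Z j)).filter (fun p => U < p), n % p ≠ A p ω)).card : ℝ)}
            else ∅) := measure_iUnion_fintype_le μ _
        _ ≤ ∑ _g : Fin K → Fin (U + 1) × Fin (U + 1),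
            ENNReal.ofReal (2 * Real.exp (-(2 * K * Real.log (U + 1) + 6 * ((j : ℝ) + 4)))) :=
            sum_le_sum fun g _ => hg g
        _ = ENNReal.ofReal (2 * Real.exp (-(6 * ((j : ℝ) + 4)))) := by
            rw [sum_const, card_univ, Fintype.card_fun, Fintype.card_prod, Fintype.card_fin,
              Fintype.card_fin, nsmul_eq_mul, ← code_sum U K (6 * ((j : ℝ) + 4)), natmul]
    calc μ (⋃ q ∈ I j, E j q) ≤ ∑ q ∈ I j, μ (E j q) := measure_biUnion_finset_le _ _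
      _ ≤ ∑ q ∈ I j, ENNReal.ofReal (2 * Real.exp (-(6 * ((j : ℝ) + 4)))) := sum_le_sum hq
      _ ≤ ∑ q ∈ range (N j) ×ˢ range (N j) ×ˢ range (N j),
          ENNReal.ofReal (2 * Real.exp (-(6 * ((j : ℝ) + 4)))) := by
          gcongr
          exact filter_subset _ _
      _ = ENNReal.ofReal (((2 : ℝ) ^ (j + 3)) ^ 3 * (2 * Real.exp (-(6 * ((j : ℝ) + 4))))) := by
          have e : ((2 : ℝ) ^ (j + 3)) ^ 3 = ((N j * (N j * N j) : ℕ) : ℝ) := by
            rw [hN]; push_cast; ring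
          rw [e, natmul, sum_const, card_product, card_product, card_range, nsmul_eq_mul]
      _ ≤ ENNReal.ofReal ((1 / 2 : ℝ) ^ j) := ENNReal.ofReal_le_ofReal (num j)
  have hbc := borel_cantelli_nat μ _ hmeas
  filter_upwards [hbc, ae_lt hA, hblock μ A hA Z hZ] with ω hω hlt hlv
  filter_upwards [hω, evV, hlv, eventually_ge_atTop 1] with j hj h2 hl h4
  clear hω hlv hbc hmeas evU evU2 hvv hsh hblock
  intro m hm U hU hjU K hK hKU hUn D hD hDK hDs b
  have hjr : (1 : ℝ) ≤ j := by exact_mod_cast h4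
  have hj0 : (0 : ℝ) < j := by linarith only [hjr]
  have hVZ := V_pos (Z j)
  have hU0 : (0 : ℝ) ≤ U := Nat.cast_nonneg _
  set w := wN δ (K + j) with hw
  set D0 := D.filter (fun p => p ≤ w) with hD0
  set D1 := D.filter (fun p => w < p ∧ p ≤ U) with hD1
  set D2 := D.filter (fun p => U < p) with hD2
  have hlow := hl m hm U hU hjU D0 (fun p hp => hD p (mem_filter.1 hp).1) hDs b
  have hD1K : D1.card ≤ K := (card_le_card (filter_subset _ _)).trans hDK
  have hD2K : (D2.card : ℝ) ≤ K := by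
    exact_mod_cast (card_le_card (filter_subset _ _)).trans hDK
  obtain ⟨g, hg1, hg2⟩ := exg U K D1 (fun p hp =>
    ⟨hD p (mem_filter.1 hp).1, (mem_filter.1 hp).2.2⟩) hD1K b
  have hnot : ¬ η * ((U : ℝ) / j) ≤ (((TD D1 b m U).filter (fun n =>
      ∀ p ∈ (primesLe (Z j)).filter (fun p => U < p), n % p ≠ A p ω)).card : ℝ) := by
    intro hle
    refine hj ?_
    refine Set.mem_biUnion (x := (m, U, K)) ?_ ?_
    · rw [mem_coe, hI, mem_filter, mem_product, mem_product, mem_range, mem_range, mem_range]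
      exact ⟨⟨hm, hU, hK⟩, hjU, hKU, hUn⟩
    · rw [hE, Set.mem_iUnion]
      refine ⟨g, ?_⟩
      rw [if_pos (by
        rw [hg1]
        exact ⟨fun p hp => ⟨hD p (mem_filter.1 hp).1, (mem_filter.1 hp).2.1⟩, hD1K⟩)]
      show η * ((U : ℝ) / j) ≤ (((TD (Dg U g) (bg g) m U).filter (fun n =>
        ∀ p ∈ (primesLe (Z j)).filter (fun p => U < p), n % p ≠ A p ω)).card : ℝ)
      rw [hg1, TD_congr D1 (bg g) b m U hg2]
      exact hle
  have hsub : CS D0 b (fun p => A p ω) (Z j) m U ⊆ (CS D b (fun p => A p ω) (Z j) m U ∪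
      (TD D1 b m U).filter (fun n =>
        ∀ p ∈ (primesLe (Z j)).filter (fun p => U < p), n % p ≠ A p ω)) ∪ TD D2 b m U := by
    intro n hn
    have hn' := mem_T1.1 hn
    by_cases hnD : n ∈ CS D b (fun p => A p ω) (Z j) m U
    · exact mem_union_left _ (mem_union_left _ hnD)
    have h5 : ¬ ∀ p ∈ primesLe (Z j), n % p ≠ (if p ∈ D then b p else A p ω) % p := by
      intro h6
      exact hnD (mem_T1.2 ⟨hn'.1, h6⟩)
    push Not at h5
    obtain ⟨p, hp, hpn⟩ := h5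
    have h6 := hn'.2 p hp
    have hpD : p ∈ D := by
      by_contra hpD
      rw [if_neg hpD] at hpn
      rw [if_neg (fun h => hpD (mem_filter.1 h).1)] at h6
      exact h6 hpn
    rw [if_pos hpD] at hpn
    have hwp : w < p := by
      by_contra hwp
      rw [if_pos (mem_filter.2 ⟨hpD, by omega⟩ : p ∈ D0)] at h6
      exact h6 hpn
    rcases le_or_gt p U with hpU | hpU
    · refine mem_union_left _ (mem_union_right _ (mem_filter.2 ⟨?_, ?_⟩))
      · exact mem_filter.2 ⟨mem_Ioc.2 hn'.1, p, mem_filter.2 ⟨hpD, hwp, hpU⟩, hpn⟩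
      · intro q hq
        obtain ⟨hq1, hq2⟩ := mem_filter.1 hq
        have h7 := hn'.2 q hq1
        rw [if_neg (fun h => by have := (mem_filter.1 h).2; omega : ¬ q ∈ D0),
          Nat.mod_eq_of_lt (hlt q (mem_primesLe.1 hq1).2)] at h7
        exact h7
    · refine mem_union_right _ ?_
      exact mem_filter.2 ⟨mem_Ioc.2 hn'.1, p, mem_filter.2 ⟨hpD, hpU⟩, hpn⟩
  have hcard : ((CS D0 b (fun p => A p ω) (Z j) m U).card : ℝ) ≤
      (CS D b (fun p => A p ω) (Z j) m U).card + ((TD D1 b m U).filter (fun n =>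
        ∀ p ∈ (primesLe (Z j)).filter (fun p => U < p), n % p ≠ A p ω)).card +
      (TD D2 b m U).card := by
    have h5 := card_le_card hsub
    have h6 := card_union_le (CS D b (fun p => A p ω) (Z j) m U ∪
      (TD D1 b m U).filter (fun n =>
        ∀ p ∈ (primesLe (Z j)).filter (fun p => U < p), n % p ≠ A p ω)) (TD D2 b m U)
    have h7 := card_union_le (CS D b (fun p => A p ω) (Z j) m U)
      ((TD D1 b m U).filter (fun n =>
        ∀ p ∈ (primesLe (Z j)).filter (fun p => U < p), n % p ≠ A p ω))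
    exact_mod_cast h5.trans (h6.trans (Nat.add_le_add_right h7 _))
  have hT2 : ((TD D2 b m U).card : ℝ) ≤ 2 * K := by
    have h5 := TD_card D2 b m U (U + 1) (by omega)
      (fun p hp => ⟨hD p (mem_filter.1 hp).1, (mem_filter.1 hp).2⟩)
    have h6 : (U : ℝ) / ((U + 1 : ℕ) : ℝ) ≤ 1 := by
      rw [div_le_one (by positivity)]
      push_cast
      linarith only [hU0]
    calc ((TD D2 b m U).card : ℝ) ≤ D2.card * ((U : ℝ) / ((U + 1 : ℕ) : ℝ) + 1) := h5
      _ ≤ K * (1 + 1) := by gcongr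
      _ = 2 * K := by ring
  have hUV : (U : ℝ) / j ≤ U * V (Z j) := by
    rw [div_le_iff₀ hj0]
    calc (U : ℝ) = U * 1 := (mul_one _).symm
      _ ≤ U * (V (Z j) * j) := by gcongr
      _ = U * V (Z j) * j := by ring
  have hK2 : 2 * (K : ℝ) ≤ cb / 16 * (U * V (Z j)) := by
    calc 2 * (K : ℝ) ≤ 2 * (κ * (U / j)) := by gcongr
      _ ≤ 2 * (η / 8 * (U * V (Z j))) := by gcongr
      _ = cb / 16 * (U * V (Z j)) := by rw [hη]; ring
  have hη2 : η * ((U : ℝ) / j) ≤ cb / 4 * (U * V (Z j)) := by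
    rw [hη]; gcongr
  have h7 := not_le.1 hnot
  have h8 : 0 ≤ cb * (U * V (Z j)) := by positivity
  linarith only [hlow, hcard, hT2, hK2, hη2, h7, h8]

end Pool.Agent.H565.AC
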