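import Mathlib
import Pool.Agent.H565.AC.Sh3
import Pool.Agent.H565.AC.Fin2

/-! Few changed classes at small primes, many at large ones: the final statement. -/

set_option autoImplicit false

open Finset MeasureTheory Function ProbabilityTheory Filter
open scoped ENNReal Topology

namespace Pool.Agent.H565.AC

open Pool.Agent.H532.RM

theorem few (ε L a t H : ℝ) (hε : 0 < ε) (hL : 1 ≤ L) (ha : 0 ≤ a) (ht0 : 0 ≤ t)
    (ht : t ≤ 2 * a) (hg : (2 : ℝ) ^ (2 + ε / 2) ≤ L ^ (ε / 2)) (hH : (a + L) ^ (2 + ε) ≤ H) :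
    (t + L) ^ (2 + ε / 2) ≤ H := by
  have hR0 : 0 < a + L := by linarith
  calc (t + L) ^ (2 + ε / 2) ≤ (2 * (a + L)) ^ (2 + ε / 2) :=
        Real.rpow_le_rpow (by positivity) (by linarith) (by positivity)
    _ = 2 ^ (2 + ε / 2) * (a + L) ^ (2 + ε / 2) := Real.mul_rpow (by norm_num) hR0.le
    _ ≤ (a + L) ^ (ε / 2) * (a + L) ^ (2 + ε / 2) := by
        have : (2 : ℝ) ^ (2 + ε / 2) ≤ (a + L) ^ (ε / 2) :=
          hg.trans (Real.rpow_le_rpow (by linarith) (by linarith) (by positivity))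
        gcongr
    _ = (a + L) ^ (2 + ε) := by rw [← Real.rpow_add hR0]; congr 1; ring
    _ ≤ H := hH

theorem lvl (d δ L k N : ℝ) (hd0 : 0 < d) (hd1 : d ≤ 1) (hdδ : 2 * d ≤ δ) (hL : 1 ≤ L)
    (hk : 0 ≤ k) (hN0 : 0 ≤ N) (hN : N ≤ 2 * (k + L)) (hg : 4 ≤ L ^ d) :
    N ^ (1 + d) ≤ (k + L) ^ (1 + δ) := by
  have hR0 : 0 < k + L := by linarith
  calc N ^ (1 + d) ≤ (2 * (k + L)) ^ (1 + d) := Real.rpow_le_rpow hN0 hN (by linarith)
    _ = 2 ^ (1 + d) * (k + L) ^ (1 + d) := Real.mul_rpow (by norm_num) hR0.le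
    _ ≤ 4 * (k + L) ^ (1 + d) := by
        have : (2 : ℝ) ^ (1 + d) ≤ 4 := by
          calc (2 : ℝ) ^ (1 + d) ≤ 2 ^ (2 : ℝ) :=
                Real.rpow_le_rpow_of_exponent_le (by norm_num) (by linarith)
            _ = 4 := by norm_num
        gcongr
    _ ≤ (k + L) ^ d * (k + L) ^ (1 + d) := by
        have : 4 ≤ (k + L) ^ d := hg.trans (Real.rpow_le_rpow (by linarith) (by linarith) hd0.le)
        gcongr
    _ = (k + L) ^ (1 + 2 * d) := by rw [← Real.rpow_add hR0]; congr 1; ring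
    _ ≤ (k + L) ^ (1 + δ) := Real.rpow_le_rpow_of_exponent_le (by linarith) (by linarith)

theorem pw3 (α N : ℝ) (hα : 1 / 3 ≤ α) (hN : 1 ≤ N) : N ≤ (N ^ 3) ^ α := by
  calc N = (N ^ 3) ^ (1 / 3 : ℝ) := by
        rw [← Real.rpow_natCast, ← Real.rpow_mul (by positivity)]; norm_num
    _ ≤ (N ^ 3) ^ α := Real.rpow_le_rpow_of_exponent_le (one_le_pow₀ hN) hα

theorem invp (e R H : ℝ) (he : 0 < e) (hR : 0 < R) (h : R ^ (2 + e) ≤ H) :
    R ≤ H ^ (1 / (2 + e)) := by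
  have e1 : (R ^ (2 + e)) ^ (1 / (2 + e)) = R := by
    rw [← Real.rpow_mul hR.le, mul_one_div_cancel (by linarith), Real.rpow_one]
  calc R = (R ^ (2 + e)) ^ (1 / (2 + e)) := e1.symm
    _ ≤ H ^ (1 / (2 + e)) := Real.rpow_le_rpow (by positivity) h (by positivity)

theorem arS (κ c' L : ℝ) (H K j : ℕ) (hκ : 0 < κ) (hj2 : 2 ≤ j) (hL : 0 < L)
    (hjL : (j : ℝ) ≤ 2 * L) (hc0 : 0 ≤ c') (hKc : (K : ℝ) * L ≤ 2 * c' * H) (hc : 4 * c' ≤ κ)
    (hN : 1 ≤ κ * ((K + j : ℕ) : ℝ)) :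
    (K : ℝ) ≤ κ * (((min H ((K + j) ^ 3) : ℕ) : ℝ) / j) := by
  have hjr : (2 : ℝ) ≤ j := by exact_mod_cast hj2
  have hj0 : (0 : ℝ) < j := by linarith
  rcases le_total H ((K + j) ^ 3) with h | h
  · rw [min_eq_left h, ← mul_div_assoc, le_div_iff₀ hj0]
    calc (K : ℝ) * j ≤ K * (2 * L) := by gcongr
      _ = 2 * (K * L) := by ring
      _ ≤ 2 * (2 * c' * H) := by gcongr
      _ = 4 * c' * H := by ring
      _ ≤ κ * H := by gcongr
  · rw [min_eq_right h, ← mul_div_assoc, le_div_iff₀ hj0]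
    set N : ℝ := ((K + j : ℕ) : ℝ) with hNd
    have e1 : (((K + j) ^ 3 : ℕ) : ℝ) = N ^ 3 := by rw [hNd]; push_cast; ring
    have hKN : (K : ℝ) ≤ N := by rw [hNd]; exact_mod_cast (by omega : K ≤ K + j)
    have hjN : (j : ℝ) ≤ N := by rw [hNd]; exact_mod_cast (by omega : j ≤ K + j)
    rw [e1]
    calc (K : ℝ) * j ≤ N * N := by gcongr
      _ = 1 * (N * N) := (one_mul _).symm
      _ ≤ (κ * N) * (N * N) := by gcongr
      _ = κ * N ^ 3 := by ring

/-- the events which are used, for one `x` -/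
theorem cut (c : ℝ) (hc : 0 < c) (Z : ℕ) (cc : ℕ → ℕ) (x H U : ℕ) (hU0 : 0 < U) (hUH : U ≤ H)
    (key : ∀ i : ℕ, i * U + U ≤ H → c * (U * V Z) ≤ (T1 cc Z (x + i * U) U : ℝ)) :
    c * ((H : ℝ) / 2 * V Z) ≤ (T1 cc Z x (H / U * U) : ℝ) := by
  have hq1 : 1 ≤ H / U := (Nat.one_le_div_iff hU0).2 hUH
  have hqU : H / U * U ≤ H := Nat.div_mul_le_self H U
  have hHq : H ≤ 2 * (H / U * U) := by
    have h4 : H < H / U * U + U := Nat.lt_div_mul_add hU0
    have h5 : 1 * U ≤ H / U * U := Nat.mul_le_mul_right U hq1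
    omega
  set q := H / U with hq
  have hVZ := V_pos Z
  have hsum : (q : ℝ) * (c * (U * V Z)) ≤ (T1 cc Z x (q * U) : ℝ) := by
    rw [T1_mul_eq' cc Z x U q]
    push_cast
    calc (q : ℝ) * (c * (U * V Z)) = ∑ _i ∈ range q, c * (U * V Z) := by
          rw [sum_const, card_range, nsmul_eq_mul]
      _ ≤ ∑ i ∈ range q, (T1 cc Z (x + i * U) U : ℝ) := by
          refine sum_le_sum fun i hi => key i ?_
          have hi' := mem_range.1 hi
          have h4 : (i + 1) * U ≤ q * U := Nat.mul_le_mul_right U hi'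
          have h5 : (i + 1) * U = i * U + U := by ring
          omega
  refine le_trans ?_ hsum
  have hHqr : (H : ℝ) ≤ 2 * (q * U) := by exact_mod_cast hHq
  calc c * ((H : ℝ) / 2 * V Z) ≤ c * ((q * U) * V Z) := by
        have : (H : ℝ) / 2 ≤ q * U := by linarith
        gcongr
    _ = q * (c * (U * V Z)) := by ring

theorem T1_le_sv (z : ℕ → ℕ) (hz : Monotone z) (D : Finset ℕ) (b a : ℕ → ℕ) (x H U X : ℕ)
    (hU : U ≤ H) (hX : x + H ≤ X) :
    (T1 (fun p => if p ∈ D.filter Nat.Prime then b p else a p) (z X) x U : ℝ) ≤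
      ({n | n ∈ sv z D b a ∧ x < n ∧ n ≤ x + H}.ncard : ℝ) := by
  have hsub : ((TT {0} (fun p => if p ∈ D.filter Nat.Prime then b p else a p) (primesLe (z X))
      x U : Finset ℕ) : Set ℕ) ⊆ {n | n ∈ sv z D b a ∧ x < n ∧ n ≤ x + H} := by
    intro n hn
    have hn' := mem_T1.1 (mem_coe.1 hn)
    have hnH : n ≤ x + H := by omega
    refine ⟨?_, hn'.1.1, hnH⟩
    intro p hp hpz hmod
    have h4 : z n ≤ z X := hz (by omega)
    have h5 := hn'.2 p (mem_primesLe.2 ⟨hpz.trans h4, hp⟩)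
    refine h5 ?_
    show n % p = (if p ∈ D.filter Nat.Prime then b p else a p) % p
    by_cases hpD : p ∈ D
    · rw [if_pos (mem_filter.2 ⟨hpD, hp⟩)]
      rw [if_pos hpD] at hmod
      exact hmod
    · rw [if_neg (fun h => hpD (mem_filter.1 h).1)]
      rw [if_neg hpD] at hmod
      exact hmod
  have hfin : {n | n ∈ sv z D b a ∧ x < n ∧ n ≤ x + H}.Finite :=
    (Set.finite_Iic (x + H)).subset fun n hn => hn.2.2
  have := Set.ncard_le_ncard hsub hfin
  rw [Set.ncard_coe_finset] at this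
  exact_mod_cast this

theorem fin6 (ε δ : ℝ) (hε : 0 < ε) (hδ : 0 < δ) : ∃ c : ℝ, 0 < c ∧
    ∀ {Ω : Type} [MeasurableSpace Ω]
    (μ : Measure Ω) [IsProbabilityMeasure μ] (A : ℕ → Ω → ℕ), RandomClasses μ A →
    ∀ z : ℕ → ℕ, Monotone z → Tendsto (fun n : ℕ => V (z n) * Real.log n) atTop (𝓝 1) →
    ∀ᵐ ω ∂μ, ∀ᶠ x : ℕ in atTop, ∀ H : ℕ, H ≤ x → ∀ (D₀ D₁ : Finset ℕ) (b : ℕ → ℕ),
      ((D₀.card : ℝ) + Real.log x) ^ (2 + ε) ≤ H →
      (∀ p ∈ D₁, p.Prime → ((D₁.card : ℝ) + Real.log x) ^ (1 + δ) < p) →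
      (D₁.card : ℝ) ≤ c * H / Real.log x →
      c * H / Real.log x ≤
        ({n | n ∈ sv z (D₀ ∪ D₁) b (fun p => A p ω) ∧ x < n ∧ n ≤ x + H}.ncard : ℝ) := by
  classical
  set e : ℝ := min ε 1 with he
  have he0 : 0 < e := lt_min hε one_pos
  have he1 : e ≤ 1 := min_le_right _ _
  have heε : e ≤ ε := min_le_left _ _
  have hα2 : 1 / (2 + e) < 1 / 2 := one_div_lt_one_div_of_lt (by norm_num) (by linarith)
  have hα3 : 1 / 3 ≤ 1 / (2 + e) := one_div_le_one_div_of_le (by linarith) (by linarith)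
  set d : ℝ := min δ 1 / 2 with hd
  have hd0 : 0 < d := half_pos (lt_min hδ one_pos)
  have hdδ : 2 * d ≤ δ := by
    have := min_le_left δ 1
    linarith
  have hd1 : d ≤ 1 := by
    have := min_le_right δ 1
    linarith
  obtain ⟨κ, hκ, c, hc, hb⟩ := blocks (1 / (2 + e)) d (by positivity) hα2 hd0 hd1
  obtain ⟨c1, hc1, hfin1⟩ := fin1 (ε / 2) (by positivity)
  set c' : ℝ := min (min (c / 4) (κ / 4)) (min c1 (1 / 2)) with hc'
  have hc'0 : 0 < c' := lt_min (lt_min (by positivity) (by positivity)) (lt_min hc1 (by norm_num))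
  have hc'1 : c' ≤ c / 4 := (min_le_left _ _).trans (min_le_left _ _)
  have hc'c1 : c' ≤ c1 := (min_le_right _ _).trans (min_le_left _ _)
  have hc'2 : 4 * c' ≤ κ := by
    have h1 : c' ≤ κ / 4 := (min_le_left _ _).trans (min_le_right _ _)
    linarith
  have hc'3 : 2 * c' ≤ 1 := by
    have h1 : c' ≤ 1 / 2 := (min_le_right _ _).trans (min_le_right _ _)
    linarith
  refine ⟨c', hc'0, ?_⟩
  intro Ω _ μ _ A hA z hz hlim
  have hZ := Zj_lim z hlim
  filter_upwards [hb μ A hA (fun j => z (2 ^ (j + 2))) hZ, hfin1 μ A hA z hz hlim] with ω hω hω1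
  clear hb hfin1
  have hV : ∀ᶠ j : ℕ in atTop, 1 / 2 ≤ V (z (2 ^ (j + 2))) * (j * Real.log 2) := by
    filter_upwards [hZ.eventually (lt_mem_nhds (by norm_num : (1 / 2 : ℝ) < 1))] with j hj
    exact hj.le
  have ev2 : ∀ᶠ x : ℕ in atTop, 4 ≤ Real.log x ^ d :=
    ((tendsto_rpow_atTop hd0).comp logt).eventually_ge_atTop _
  obtain ⟨N0, hN0⟩ := exists_nat_ge (1 / κ)
  have ev4 : ∀ᶠ x : ℕ in atTop, (2 : ℝ) ^ (2 + ε / 2) ≤ Real.log x ^ (ε / 2) :=
    ((tendsto_rpow_atTop (by positivity)).comp logt).eventually_ge_atTop _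
  filter_upwards [nlog_tendsto.eventually hω, nlog_tendsto.eventually hV, ev2,
    logt.eventually_ge_atTop 3, nlog_tendsto.eventually_ge_atTop (max N0 2), eventually_ge_atTop 3,
    hω1, ev4] with x h1 h2 g2 g3 g4 h3 g5 g6
  clear hω hω1 hV ev2 ev4
  intro H hH D₀ D₁ b hHl hD hDc
  set j := Nat.log 2 x with hj
  set L : ℝ := Real.log x with hL
  have hx1 : 2 ^ j ≤ x := Nat.pow_log_le_self 2 (by omega)
  have hx2 : x < 2 ^ (j + 1) := Nat.lt_pow_succ_log_self (by norm_num) x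
  have hL0 : 0 < L := by linarith only [g3]
  have hL1 : 1 ≤ L := by linarith only [g3]
  have hD₀0 : (0 : ℝ) ≤ D₀.card := Nat.cast_nonneg _
  have hD₁0 : (0 : ℝ) ≤ D₁.card := Nat.cast_nonneg _
  have hcardU : ((D₀ ∪ D₁).card : ℝ) ≤ D₀.card + D₁.card := by exact_mod_cast card_union_le D₀ D₁
  have hcardU0 : (0 : ℝ) ≤ (D₀ ∪ D₁).card := Nat.cast_nonneg _
  have hH0' : (0 : ℝ) ≤ H := Nat.cast_nonneg _
  -- few changed classes
  rcases le_or_gt D₁.card D₀.card with hK01 | hK01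
  · have hK01r : (D₁.card : ℝ) ≤ D₀.card := by exact_mod_cast hK01
    have h4 := few ε L D₀.card (D₀ ∪ D₁).card H hε hL1 hD₀0 hcardU0
      (by linarith only [hcardU, hK01r]) g6 hHl
    refine le_trans ?_ (g5 H hH (D₀ ∪ D₁) b h4)
    gcongr
  clear g5 g6
  have hK01r : (D₀.card : ℝ) ≤ D₁.card := by exact_mod_cast hK01.le
  have hlog2 : (1 / 2 : ℝ) ≤ Real.log 2 := by
    have := Real.log_two_gt_d9
    linarith only [this]
  have hjlog : (j : ℝ) * Real.log 2 ≤ L := by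
    rw [hL, ← Real.log_pow]
    refine Real.log_le_log (by positivity) ?_
    exact_mod_cast hx1
  have hj2 : 2 ≤ j := (le_max_right _ _).trans g4
  have hjN0 : N0 ≤ j := (le_max_left _ _).trans g4
  have hj2L : (j : ℝ) ≤ 2 * L := by
    have h4 : (j : ℝ) * (1 / 2) ≤ j * Real.log 2 := by gcongr
    linarith only [h4, hjlog]
  have hR₀0 : 0 < (D₀.card : ℝ) + L := by linarith only [hD₀0, hL0]
  have hR₀1 : 1 ≤ (D₀.card : ℝ) + L := by linarith only [hD₀0, hL1]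
  have hR₀e : ((D₀.card : ℝ) + L) ^ (2 + e) ≤ H :=
    (Real.rpow_le_rpow_of_exponent_le hR₀1 (by linarith only [heε])).trans hHl
  have hHe : L ^ (2 + e) ≤ H :=
    (Real.rpow_le_rpow hL0.le (by linarith only [hD₀0]) (by positivity)).trans hR₀e
  have hLH : L ≤ H := by
    refine le_trans ?_ hHe
    calc L = L ^ (1 : ℝ) := (Real.rpow_one _).symm
      _ ≤ L ^ (2 + e) := Real.rpow_le_rpow_of_exponent_le hL1 (by linarith only [he0])
  have hH3 : (3 : ℝ) ≤ H := g3.trans hLH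
  have hHr0 : (0 : ℝ) < H := by linarith only [hH3]
  have hH0 : 0 < H := by exact_mod_cast hHr0
  have hR₀α := invp e _ H he0 hR₀0 hR₀e
  set D' := (D₀ ∪ D₁).filter Nat.Prime with hD'
  set K := D'.card with hK
  have hKD : (K : ℝ) ≤ 2 * D₁.card := by
    have h4 : (K : ℝ) ≤ (D₀ ∪ D₁).card := by exact_mod_cast card_le_card (filter_subset _ _)
    linarith only [h4, hcardU, hK01r]
  have hKc : (K : ℝ) * L ≤ 2 * c' * H := by
    have h4 := hDc
    rw [le_div_iff₀ hL0] at h4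
    have h5 : (K : ℝ) * L ≤ 2 * D₁.card * L := by gcongr
    linarith only [h4, h5]
  have hKH : K ≤ H := by
    have h4 : (K : ℝ) ≤ H := by
      calc (K : ℝ) = K * 1 := (mul_one _).symm
        _ ≤ K * L := by gcongr
        _ ≤ 2 * c' * H := hKc
        _ ≤ 1 * H := by gcongr
        _ = H := one_mul _
    exact_mod_cast h4
  have hN1 : (1 : ℝ) ≤ ((K + j : ℕ) : ℝ) := by exact_mod_cast (by omega : 1 ≤ K + j)
  have hjN : (j : ℝ) ≤ ((K + j : ℕ) : ℝ) := by exact_mod_cast (by omega : j ≤ K + j)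
  -- the changed classes at small primes
  have hD'p : ∀ p ∈ D', p.Prime := fun p hp => (mem_filter.1 hp).2
  have hsmall : D'.filter (fun p => p ≤ wN d (K + j)) ⊆ D₀ := by
    intro p hp
    obtain ⟨hp1, hp3⟩ := mem_filter.1 hp
    obtain ⟨hp1, hp2⟩ := mem_filter.1 hp1
    by_contra hpD₀
    have hpD₁ : p ∈ D₁ := (mem_union.1 hp1).resolve_left hpD₀
    have h4 := hD p hpD₁ hp2
    have h6 : ((wN d (K + j) : ℕ) : ℝ) ≤ ((K + j : ℕ) : ℝ) ^ (1 + d) :=
      Nat.floor_le (by positivity)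
    have h7 : (p : ℝ) ≤ ((wN d (K + j) : ℕ) : ℝ) := by exact_mod_cast hp3
    have h8 := lvl d δ L D₁.card ((K + j : ℕ) : ℝ) hd0 hd1 hdδ hL1 hD₁0 (by linarith only [hN1])
      (by push_cast; linarith only [hKD, hj2L]) g2
    linarith only [h4, h6, h7, h8]
  have hS1 : ((D'.filter (fun p => p ≤ wN d (K + j))).card : ℝ) ≤ D₀.card := by
    exact_mod_cast card_le_card hsmall
  have hS2 : ((D'.filter (fun p => p ≤ wN d (K + j))).card : ℝ) ≤ ((K + j : ℕ) : ℝ) := by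
    have h4 : (D'.filter (fun p => p ≤ wN d (K + j))).card ≤ K := card_le_card (filter_subset _ _)
    exact_mod_cast h4.trans (by omega)
  -- the pieces
  have hκN : 1 ≤ κ * ((K + j : ℕ) : ℝ) := by
    have h4 : 1 / κ ≤ ((K + j : ℕ) : ℝ) := hN0.trans (by exact_mod_cast (by omega : N0 ≤ K + j))
    rw [div_le_iff₀ hκ] at h4
    linarith only [h4]
  have hUj := arS κ c' L H K j hκ hj2 hL0 hj2L hc'0.le hKc hc'2 hκN
  have hU12 : (j : ℝ) ≤ 2 * ((min H ((K + j) ^ 3) : ℕ) : ℝ) ^ (1 / (2 + e)) ∧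
      ((D'.filter (fun p => p ≤ wN d (K + j))).card : ℝ) ≤
        ((min H ((K + j) ^ 3) : ℕ) : ℝ) ^ (1 / (2 + e)) := by
    rcases le_total H ((K + j) ^ 3) with h | h
    · rw [min_eq_left h]
      exact ⟨by linarith only [hR₀α, hj2L, hD₀0], by linarith only [hR₀α, hS1, hL0]⟩
    · rw [min_eq_right h]
      have h4 := pw3 (1 / (2 + e)) _ hα3 hN1
      have e1 : (((K + j) ^ 3 : ℕ) : ℝ) = ((K + j : ℕ) : ℝ) ^ 3 := by push_cast; ring
      rw [e1]
      exact ⟨by linarith only [h4, hjN, hN1], by linarith only [h4, hS2]⟩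
  obtain ⟨hUα, hUS⟩ := hU12
  have hUH : min H ((K + j) ^ 3) ≤ H := min_le_left _ _
  have hUN : min H ((K + j) ^ 3) ≤ (K + j) ^ 3 := min_le_right _ _
  have hU0 : 0 < min H ((K + j) ^ 3) := lt_min hH0 (by positivity)
  set U := min H ((K + j) ^ 3) with hU
  have e3 : 2 ^ (j + 3) = 2 * (2 * 2 ^ (j + 1)) := by ring
  have e2 : 2 ^ (j + 2) = 2 * 2 ^ (j + 1) := by ring
  have hcut := cut c hc (z (2 ^ (j + 2))) (fun p => if p ∈ D' then b p else A p ω) x H U hU0 hUH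
    (fun i hi => h1 (x + i * U) (by omega) U (by omega) hUα K (by omega) hUj hUN D' hD'p le_rfl
      hUS b)
  have hle := T1_le_sv z hz (D₀ ∪ D₁) b (fun p => A p ω) x H (H / U * U) (2 ^ (j + 2))
    (Nat.div_mul_le_self H U) (by omega)
  refine le_trans ?_ (hcut.trans hle)
  have hVZ := V_pos (z (2 ^ (j + 2)))
  have hVlow : 1 / (2 * L) ≤ V (z (2 ^ (j + 2))) := by
    rw [div_le_iff₀ (by positivity)]
    have h5 : V (z (2 ^ (j + 2))) * (j * Real.log 2) ≤ V (z (2 ^ (j + 2))) * L := by gcongr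
    linarith only [h5, h2]
  calc c' * H / L ≤ c / 4 * H / L := by gcongr
    _ = c * ((H / 2) * (1 / (2 * L))) := by field_simp; ring
    _ ≤ c * ((H / 2) * V (z (2 ^ (j + 2)))) := by gcongr

end Pool.Agent.H565.AC
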